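import Mathlib

/-!
Stein's equation for Lipschitz test functions: the derivative of the solution is Lipschitz.
-/

namespace Pool.Agent.H90.PA

open MeasureTheory Set Filter Topology

/-- The unnormalised Gaussian weight. -/
noncomputable def ph (x : ℝ) : ℝ := Real.exp (-(1 / 2) * x ^ 2)

theorem ph_pos (x : ℝ) : 0 < ph x := Real.exp_pos _

theorem ph_cont : Continuous ph := by
  unfold ph
  fun_prop

theorem ph_neg (x : ℝ) : ph (-x) = ph x := by
  unfold ph
  rw [neg_sq]

theorem ph_int : Integrable ph := integrable_exp_neg_mul_sq (by norm_num : (0 : ℝ) < 1 / 2)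

theorem xph_int : Integrable (fun x => x * ph x) :=
  integrable_mul_exp_neg_mul_sq (by norm_num : (0 : ℝ) < 1 / 2)

theorem ph_total : ∫ x, ph x = Real.sqrt (2 * Real.pi) := by
  unfold ph
  rw [integral_gaussian]
  congr 1
  ring

theorem sqrt_ge_two : 2 ≤ Real.sqrt (2 * Real.pi) := by
  refine Real.le_sqrt_of_sq_le ?_
  linarith [Real.pi_gt_three]

theorem ph_deriv (x : ℝ) : HasDerivAt ph (-(x * ph x)) x := by
  unfold ph
  have h := ((hasDerivAt_pow 2 x).const_mul (-(1 / 2 : ℝ))).exp
  refine h.congr_deriv ?_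
  simp
  ring

theorem ph_tendsto : Tendsto ph atTop (𝓝 0) := by
  unfold ph
  refine Real.tendsto_exp_atBot.comp ?_
  have h1 : Tendsto (fun x : ℝ => x ^ 2) atTop atTop := tendsto_pow_atTop (by norm_num)
  exact h1.const_mul_atTop_of_neg (by norm_num : (-(1 / 2) : ℝ) < 0)

theorem int_xph (w : ℝ) : ∫ x in Ioi w, x * ph x = ph w := by
  have h := integral_Ioi_of_hasDerivAt_of_tendsto' (a := w) (f := fun x => - ph x)
    (f' := fun x => x * ph x) (m := 0) (fun x _ => by
      have := (ph_deriv x).fun_neg
      rwa [neg_neg] at this) xph_int.integrableOn (by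
      have := ph_tendsto.neg
      simpa using this)
  rw [h]
  ring

/-- Lower bound for the Gaussian tail. -/
theorem tail_lower (w : ℝ) : w * ph w / (1 + w ^ 2) ≤ ∫ x in Ioi w, ph x := by
  set f' : ℝ → ℝ := fun x => ph x * ((x ^ 4 + 2 * x ^ 2 - 1) / (1 + x ^ 2) ^ 2) with hf'
  have hcont : Continuous f' := by
    refine ph_cont.mul (Continuous.div (by fun_prop) (by fun_prop) fun x => ?_)
    positivity
  have hle : ∀ x, f' x ≤ ph x := fun x => by
    have h1 : (x ^ 4 + 2 * x ^ 2 - 1) / (1 + x ^ 2) ^ 2 ≤ 1 := by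
      rw [div_le_one (by positivity)]
      nlinarith
    calc f' x ≤ ph x * 1 := mul_le_mul_of_nonneg_left h1 (ph_pos x).le
      _ = ph x := mul_one _
  have habs : ∀ x, ‖f' x‖ ≤ ph x := fun x => by
    rw [Real.norm_eq_abs, abs_le]
    refine ⟨?_, hle x⟩
    have h1 : -1 ≤ (x ^ 4 + 2 * x ^ 2 - 1) / (1 + x ^ 2) ^ 2 := by
      rw [le_div_iff₀ (by positivity)]
      nlinarith [sq_nonneg x, sq_nonneg (x ^ 2)]
    calc -ph x = ph x * (-1) := by ring
      _ ≤ _ := mul_le_mul_of_nonneg_left h1 (ph_pos x).le
  have hint : Integrable f' := ph_int.mono' hcont.aestronglyMeasurable (ae_of_all _ habs)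
  have h := integral_Ioi_of_hasDerivAt_of_tendsto' (a := w)
    (f := fun x => -(x * ph x / (1 + x ^ 2)))
    (f' := f') (m := 0) (fun x _ => by
      have h1 : (1 + x ^ 2) ≠ 0 := by positivity
      have h2 := (((hasDerivAt_id x).mul (ph_deriv x)).div
        ((hasDerivAt_pow 2 x).const_add 1) h1).neg
      refine h2.congr_deriv ?_
      rw [hf']
      simp
      field_simp
      ring) hint.integrableOn (by
      refine squeeze_zero_norm (fun x => ?_) ph_tendsto
      rw [norm_neg, Real.norm_eq_abs, abs_div, abs_mul, abs_of_pos (ph_pos x),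
        abs_of_pos (by positivity : 0 < 1 + x ^ 2), div_le_iff₀ (by positivity)]
      have h3 : |x| ≤ 1 + x ^ 2 := by
        rw [← sq_abs]
        nlinarith [sq_nonneg (|x| - 1), abs_nonneg x]
      have := mul_le_mul_of_nonneg_right h3 (ph_pos x).le
      linarith)
  have h4 : ∫ x in Ioi w, f' x = w * ph w / (1 + w ^ 2) := by
    rw [h]
    ring
  rw [← h4]
  exact setIntegral_mono hint.integrableOn ph_int.integrableOn hle

/-- Upper bound for the Gaussian tail. -/
theorem tail_upper {w : ℝ} (hw : 0 ≤ w) :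
    ∫ x in Ioi w, ph x ≤ Real.sqrt (2 * Real.pi) * ph w := by
  have h1 : Integrable (fun x => ph w * ph (x - w)) := (ph_int.comp_sub_right w).const_mul _
  calc ∫ x in Ioi w, ph x ≤ ∫ x in Ioi w, ph w * ph (x - w) := by
        refine setIntegral_mono_on ph_int.integrableOn h1.integrableOn measurableSet_Ioi
          fun x hx => ?_
        unfold ph
        rw [← Real.exp_add]
        refine Real.exp_le_exp.2 ?_
        have hx' : w < x := hx
        nlinarith [mul_nonneg hw (by linarith : 0 ≤ x - w)]
    _ ≤ ∫ x, ph w * ph (x - w) := setIntegral_le_integral h1 (ae_of_all _ fun x => by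
        exact (mul_pos (ph_pos w) (ph_pos _)).le)
    _ = Real.sqrt (2 * Real.pi) * ph w := by
        rw [integral_const_mul, integral_sub_right_eq_self (fun x => ph x) w, ph_total]
        ring

theorem abs_total : ∫ x, |x| * ph x = 2 := by
  have h1 : (fun x => |x| * ph x) = fun x => (fun y => y * ph y) |x| := by
    funext x
    change |x| * ph x = |x| * ph |x|
    unfold ph
    rw [sq_abs]
  rw [h1, integral_comp_abs (f := fun y => y * ph y), int_xph]
  unfold ph
  simp

theorem absph_int : Integrable (fun x => |x| * ph x) := by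
  have h := xph_int.norm
  refine h.congr (ae_of_all _ fun x => ?_)
  change ‖x * ph x‖ = |x| * ph x
  rw [norm_mul, Real.norm_eq_abs, Real.norm_eq_abs, abs_of_pos (ph_pos x)]

section Sol

variable {g : ℝ → ℝ}

theorem g_cont (hg : ∀ x y, |g x - g y| ≤ |x - y|) : Continuous g := by
  have : LipschitzWith 1 g := LipschitzWith.of_dist_le_mul fun x y => by
    rw [Real.dist_eq, Real.dist_eq]
    simpa using hg x y
  exact this.continuous

theorem g_bd (hg : ∀ x y, |g x - g y| ≤ |x - y|) (w x : ℝ) : |g x| ≤ |g w| + |x - w| := by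
  have h1 := hg x w
  have h2 : |g x| ≤ |g x - g w| + |g w| := by
    have := abs_add_le (g x - g w) (g w)
    simpa using this
  linarith

theorem gph_int (hg : ∀ x y, |g x - g y| ≤ |x - y|) : Integrable (fun x => g x * ph x) := by
  have h1 : Integrable (fun x => |g 0| * ph x + |x| * ph x) :=
    (ph_int.const_mul _).add absph_int
  refine h1.mono' ((g_cont hg).mul ph_cont).aestronglyMeasurable (ae_of_all _ fun x => ?_)
  rw [norm_mul, Real.norm_eq_abs, Real.norm_eq_abs, abs_of_pos (ph_pos x), ← add_mul]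
  refine mul_le_mul_of_nonneg_right ?_ (ph_pos x).le
  have := g_bd hg 0 x
  simpa using this

theorem g0_bd (hg : ∀ x y, |g x - g y| ≤ |x - y|) (h0 : ∫ x, g x * ph x = 0) :
    |g 0| * Real.sqrt (2 * Real.pi) ≤ 2 := by
  have h1 : g 0 * Real.sqrt (2 * Real.pi) = ∫ x, (g 0 - g x) * ph x := by
    have h2 : (fun x => (g 0 - g x) * ph x) = fun x => g 0 * ph x - g x * ph x := by
      funext x
      ring
    rw [h2, integral_sub (ph_int.const_mul _) (gph_int hg), h0, integral_const_mul, ph_total,
      sub_zero]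
  have h3 : |g 0| * Real.sqrt (2 * Real.pi) = |g 0 * Real.sqrt (2 * Real.pi)| := by
    rw [abs_mul, abs_of_nonneg (Real.sqrt_nonneg _)]
  rw [h3, h1, ← abs_total]
  refine (abs_integral_le_integral_abs).trans (integral_mono_of_nonneg
    (ae_of_all _ fun x => abs_nonneg _) absph_int (ae_of_all _ fun x => ?_))
  change |(g 0 - g x) * ph x| ≤ |x| * ph x
  rw [abs_mul, abs_of_pos (ph_pos x)]
  refine mul_le_mul_of_nonneg_right ?_ (ph_pos x).le
  have := hg 0 x
  simpa using this

/-- The solution of Stein's equation, up to sign. -/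
noncomputable def GG (g : ℝ → ℝ) (w : ℝ) : ℝ := (∫ x in Ioi w, g x * ph x) / ph w

theorem GG_bounds (hg : ∀ x y, |g x - g y| ≤ |x - y|) (h0 : ∫ x, g x * ph x = 0) {w : ℝ}
    (hw : 0 ≤ w) : |GG g w| ≤ 3 ∧ w * |g w - w * GG g w| ≤ 3 := by
  have hg0 := g0_bd hg h0
  have hs2 := sqrt_ge_two
  have hg01 : |g 0| ≤ 1 := by
    have := abs_nonneg (g 0)
    nlinarith
  set J := ∫ x in Ioi w, ph x with hJ
  have hJ0 : 0 ≤ J := setIntegral_nonneg measurableSet_Ioi fun x _ => (ph_pos x).le
  have hlow := tail_lower w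
  have hup := tail_upper hw
  rw [← hJ] at hlow hup
  have hp := ph_pos w
  set r := ph w - w * J with hr
  set I := ∫ x in Ioi w, g x * ph x with hI
  have hdiff : |I - g w * J| ≤ r := by
    have h1 : I - g w * J = ∫ x in Ioi w, (g x - g w) * ph x := by
      have h2 : (fun x => (g x - g w) * ph x) = fun x => g x * ph x - g w * ph x := by
        funext x
        ring
      rw [h2, integral_sub (gph_int hg).integrableOn (ph_int.const_mul _).integrableOn,
        integral_const_mul]
    have h3 : r = ∫ x in Ioi w, (x - w) * ph x := by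
      have h2 : (fun x => (x - w) * ph x) = fun x => x * ph x - w * ph x := by
        funext x
        ring
      rw [h2, integral_sub xph_int.integrableOn (ph_int.const_mul _).integrableOn,
        integral_const_mul, int_xph]
    rw [h1, h3]
    refine (abs_integral_le_integral_abs).trans ?_
    have h4 : Integrable (fun x => (x - w) * ph x) := by
      have h2 : (fun x => (x - w) * ph x) = fun x => x * ph x - w * ph x := by
        funext x
        ring
      rw [h2]
      exact xph_int.sub (ph_int.const_mul _)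
    have h5 : Integrable (fun x => (g x - g w) * ph x) := by
      have h2 : (fun x => (g x - g w) * ph x) = fun x => g x * ph x - g w * ph x := by
        funext x
        ring
      rw [h2]
      exact (gph_int hg).sub (ph_int.const_mul _)
    refine setIntegral_mono_on h5.abs.integrableOn h4.integrableOn measurableSet_Ioi
      fun x hx => ?_
    have hx' : w < x := hx
    rw [abs_mul, abs_of_pos (ph_pos x)]
    refine mul_le_mul_of_nonneg_right ?_ (ph_pos x).le
    have := hg x w
    rwa [abs_of_pos (by linarith : 0 < x - w)] at this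
  have hr0 : 0 ≤ r := (abs_nonneg _).trans hdiff
  have hr1 : r ≤ ph w / (1 + w ^ 2) := by
    rw [hr]
    have h1 : w * (w * ph w / (1 + w ^ 2)) ≤ w * J := mul_le_mul_of_nonneg_left hlow hw
    have h2 : ph w - w * (w * ph w / (1 + w ^ 2)) = ph w / (1 + w ^ 2) := by
      field_simp
      ring
    linarith
  have hgw : |g w| ≤ |g 0| + w := by
    have := g_bd hg 0 w
    rwa [sub_zero, abs_of_nonneg hw] at this
  constructor
  · unfold GG
    rw [abs_div, abs_of_pos hp, div_le_iff₀ hp]
    have h1 : |I| ≤ |g w| * J + r := by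
      have h2 : I = (I - g w * J) + g w * J := by ring
      rw [h2]
      refine (abs_add_le _ _).trans ?_
      rw [abs_mul, abs_of_nonneg hJ0]
      linarith
    have h3 : |g w| * J ≤ |g 0| * J + w * J := by
      have := mul_le_mul_of_nonneg_right hgw hJ0
      linarith
    have h4 : |g 0| * J ≤ 2 * ph w := by
      calc |g 0| * J ≤ |g 0| * (Real.sqrt (2 * Real.pi) * ph w) :=
            mul_le_mul_of_nonneg_left hup (abs_nonneg _)
        _ = (|g 0| * Real.sqrt (2 * Real.pi)) * ph w := by ring
        _ ≤ 2 * ph w := mul_le_mul_of_nonneg_right hg0 hp.le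
    linarith
  · have h1 : g w - w * GG g w = (g w * r - w * (I - g w * J)) / ph w := by
      unfold GG
      rw [← hI, hr]
      field_simp
      ring
    rw [h1, abs_div, abs_of_pos hp, mul_div_assoc', div_le_iff₀ hp]
    have h2 : |g w * r - w * (I - g w * J)| ≤ (1 + 2 * w) * r := by
      refine (abs_sub _ _).trans ?_
      rw [abs_mul, abs_mul, abs_of_nonneg hr0, abs_of_nonneg hw]
      have h3 := mul_le_mul_of_nonneg_right hgw hr0
      have h4 := mul_le_mul_of_nonneg_left hdiff hw
      nlinarith
    have h5 : w * ((1 + 2 * w) * r) ≤ w * ((1 + 2 * w) * (ph w / (1 + w ^ 2))) := by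
      refine mul_le_mul_of_nonneg_left (mul_le_mul_of_nonneg_left hr1 (by linarith)) hw
    have h6 : w * ((1 + 2 * w) * (ph w / (1 + w ^ 2))) ≤ 3 * ph w := by
      have h7 : w * ((1 + 2 * w) * (ph w / (1 + w ^ 2)))
          = (w * (1 + 2 * w)) / (1 + w ^ 2) * ph w := by ring
      rw [h7]
      refine mul_le_mul_of_nonneg_right ?_ hp.le
      rw [div_le_iff₀ (by positivity)]
      nlinarith [sq_nonneg (w - 1)]
    have h8 := mul_le_mul_of_nonneg_left h2 hw
    linarith

theorem GG_reflect (hg : ∀ x y, |g x - g y| ≤ |x - y|) (h0 : ∫ x, g x * ph x = 0) (w : ℝ) :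
    GG (fun x => g (-x)) (-w) = - GG g w := by
  unfold GG
  rw [ph_neg, ← neg_div]
  congr 1
  have h1 : (fun x => g (-x) * ph x) = fun x => (fun y => g y * ph y) (-x) := by
    funext x
    simp only [ph_neg]
  rw [h1, integral_comp_neg_Ioi (-w) (fun y => g y * ph y), neg_neg]
  have h2 : (∫ x in Iic w, g x * ph x) + (∫ x in Ioi w, g x * ph x) = ∫ x, g x * ph x :=
    intervalIntegral.integral_Iic_add_Ioi (gph_int hg).integrableOn (gph_int hg).integrableOn
  linarith

theorem GG_bounds' (hg : ∀ x y, |g x - g y| ≤ |x - y|) (h0 : ∫ x, g x * ph x = 0) (w : ℝ) :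
    |GG g w| ≤ 3 ∧ |w * (g w - w * GG g w)| ≤ 3 := by
  rcases le_total 0 w with hw | hw
  · have h := GG_bounds hg h0 hw
    refine ⟨h.1, ?_⟩
    rw [abs_mul, abs_of_nonneg hw]
    exact h.2
  · have hg' : ∀ x y, |(fun x => g (-x)) x - (fun x => g (-x)) y| ≤ |x - y| := fun x y => by
      have := hg (-x) (-y)
      rwa [show -x - -y = -(x - y) by ring, abs_neg] at this
    have h0' : ∫ x, (fun x => g (-x)) x * ph x = 0 := by
      have h1 : (fun x => (fun x => g (-x)) x * ph x) = fun x => (fun y => g y * ph y) (-x) := by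
        funext x
        simp only [ph_neg]
      rw [h1, integral_neg_eq_self (fun y => g y * ph y) volume, h0]
    have h := GG_bounds hg' h0' (by linarith : 0 ≤ -w)
    rw [GG_reflect hg h0 w] at h
    refine ⟨by simpa using h.1, ?_⟩
    have h2 := h.2
    simp only [neg_neg] at h2
    rw [abs_mul, abs_of_nonpos hw]
    have h3 : g w - -w * -GG g w = g w - w * GG g w := by ring
    rwa [h3] at h2

theorem GG_deriv (hg : ∀ x y, |g x - g y| ≤ |x - y|) (w : ℝ) :
    HasDerivAt (fun w => - GG g w) (g w - w * GG g w) w := by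
  have hc : Continuous (fun x => g x * ph x) := (g_cont hg).mul ph_cont
  have h1 : HasDerivAt (fun w => ∫ x in Ioi w, g x * ph x) (-(g w * ph w)) w := by
    have h2 : (fun w => ∫ x in Ioi w, g x * ph x)
        = fun w => (∫ x in Ioi (0 : ℝ), g x * ph x) - ∫ x in (0 : ℝ)..w, g x * ph x := by
      funext u
      rw [← intervalIntegral.integral_Ioi_sub_Ioi' (gph_int hg).integrableOn
        (gph_int hg).integrableOn]
      ring
    rw [h2]
    have h3 := intervalIntegral.integral_hasDerivAt_right (a := 0) (b := w)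
      (hc.intervalIntegrable 0 w) (hc.stronglyMeasurableAtFilter _ _) hc.continuousAt
    exact h3.const_sub _
  have h4 := (h1.div (ph_deriv w) (ph_pos w).ne').neg
  refine h4.congr_deriv ?_
  unfold GG
  have := (ph_pos w).ne'
  field_simp
  ring

theorem stein_lip (hg : ∀ x y, |g x - g y| ≤ |x - y|) (h0 : ∫ x, g x * ph x = 0) (x y : ℝ) :
    |(g x - x * GG g x) - (g y - y * GG g y)| ≤ 7 * |x - y| := by
  have hd : ∀ w, HasDerivAt (fun w => w * (- GG g w)) (1 * (- GG g w)
      + w * (g w - w * GG g w)) w := fun w => (hasDerivAt_id w).mul (GG_deriv hg w)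
  have h1 : ‖x * (- GG g x) - y * (- GG g y)‖ ≤ 6 * ‖x - y‖ := by
    refine Convex.norm_image_sub_le_of_norm_hasDerivWithin_le (s := univ)
      (f := fun w => w * (- GG g w)) (f' := fun w => 1 * (- GG g w) + w * (g w - w * GG g w))
      (fun w _ => (hd w).hasDerivWithinAt) (fun w _ => ?_) convex_univ (mem_univ y) (mem_univ x)
    have hb := GG_bounds' hg h0 w
    refine (norm_add_le _ _).trans ?_
    rw [one_mul, norm_neg, Real.norm_eq_abs, Real.norm_eq_abs]
    linarith [hb.1, hb.2]
  rw [Real.norm_eq_abs, Real.norm_eq_abs] at h1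
  have h2 := hg x y
  have h3 : (g x - x * GG g x) - (g y - y * GG g y)
      = (x * (- GG g x) - y * (- GG g y)) + (g x - g y) := by ring
  rw [h3]
  refine (abs_add_le _ _).trans ?_
  linarith

end Sol

theorem gauss_int_eq (h : ℝ → ℝ) :
    ∫ x, h x ∂(ProbabilityTheory.gaussianReal 0 1)
      = (Real.sqrt (2 * Real.pi))⁻¹ * ∫ x, h x * ph x := by
  rw [ProbabilityTheory.integral_gaussianReal_eq_integral_smul one_ne_zero,
    ← integral_const_mul]
  congr 1
  funext x
  rw [ProbabilityTheory.gaussianPDFReal, smul_eq_mul]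
  unfold ph
  simp
  ring_nf

/-- Stein's equation with Lipschitz data. -/
theorem stein_exists (h : ℝ → ℝ) (hh : LipschitzWith 1 h) :
    ∃ f f' : ℝ → ℝ, (∀ w, HasDerivAt f (f' w) w) ∧
      (∀ w, f' w = w * f w + (h w - ∫ x, h x ∂(ProbabilityTheory.gaussianReal 0 1))) ∧
      (∀ x y, |f' x - f' y| ≤ 7 * |x - y|) := by
  set N := ∫ x, h x ∂(ProbabilityTheory.gaussianReal 0 1) with hN
  set g : ℝ → ℝ := fun x => h x - N with hg
  have hlip : ∀ x y, |g x - g y| ≤ |x - y| := fun x y => by
    have h1 := hh.dist_le_mul x y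
    rw [Real.dist_eq, Real.dist_eq] at h1
    simpa [hg] using h1
  have hhlip : ∀ x y, |h x - h y| ≤ |x - y| := fun x y => by
    have h1 := hh.dist_le_mul x y
    rw [Real.dist_eq, Real.dist_eq] at h1
    simpa using h1
  have h0 : ∫ x, g x * ph x = 0 := by
    have h1 : (fun x => g x * ph x) = fun x => h x * ph x - N * ph x := by
      funext x
      rw [hg]
      ring
    rw [h1, integral_sub (gph_int hhlip) (ph_int.const_mul _), integral_const_mul, ph_total]
    have h2 := gauss_int_eq h
    rw [← hN] at h2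
    have h3 : Real.sqrt (2 * Real.pi) ≠ 0 := by
      have := sqrt_ge_two
      intro h4
      rw [h4] at this
      linarith
    rw [h2]
    field_simp
    ring
  refine ⟨fun w => - GG g w, fun w => g w - w * GG g w, GG_deriv hlip, fun w => ?_,
    stein_lip hlip h0⟩
  rw [hg]
  ring

end Pool.Agent.H90.PA
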