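import Pool.Agent.H90.PA.Dist
import Pool.Agent.H90.PA.Stein

/-!
Wasserstein bound for sums of independent Bernoulli variables.
-/

namespace Pool.Agent.H90.PA

open Finset MeasureTheory

variable {p : ℕ → ℝ}

theorem EB_add (n : ℕ) (F G : ℝ → ℝ) : EB p n (fun b => F b + G b) = EB p n F + EB p n G := by
  induction n generalizing F G with
  | zero => rfl
  | succ n ih =>
    rw [EB, EB, EB, ← ih]
    congr 1
    funext b
    ring

theorem EB_smul (n : ℕ) (a : ℝ) (F : ℝ → ℝ) : EB p n (fun b => a * F b) = a * EB p n F := by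
  induction n generalizing F with
  | zero => rfl
  | succ n ih =>
    rw [EB, EB, ← ih]
    congr 1
    funext b
    ring

theorem EB_mono (hp0 : ∀ k, 0 ≤ p k) (hp1 : ∀ k, p k ≤ 1) (n : ℕ) {F G : ℝ → ℝ}
    (h : ∀ b, F b ≤ G b) : EB p n F ≤ EB p n G := by
  induction n generalizing F G with
  | zero => exact h 0
  | succ n ih =>
    refine ih fun b => ?_
    exact add_le_add (mul_le_mul_of_nonneg_left (h _) (hp0 n))
      (mul_le_mul_of_nonneg_left (h _) (by linarith [hp1 n]))

theorem EB_const (n : ℕ) (a : ℝ) : EB p n (fun _ => a) = a := by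
  induction n with
  | zero => rfl
  | succ n ih =>
    rw [EB]
    have : (fun _ : ℝ => p n * a + (1 - p n) * a) = fun _ => a := by
      funext b
      ring
    rw [this, ih]

theorem EB_abs_le (hp0 : ∀ k, 0 ≤ p k) (hp1 : ∀ k, p k ≤ 1) (n : ℕ) {F : ℝ → ℝ} {K : ℝ}
    (h : ∀ b, |F b| ≤ K) : |EB p n F| ≤ K := by
  rw [abs_le]
  constructor
  · have := EB_mono hp0 hp1 n (F := fun _ => -K) (G := F) fun b => (abs_le.1 (h b)).1
    rwa [EB_const] at this
  · have := EB_mono hp0 hp1 n (F := F) (G := fun _ => K) fun b => (abs_le.1 (h b)).2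
    rwa [EB_const] at this

/-- Mean of the sum. -/
noncomputable def bt (p : ℕ → ℝ) (n : ℕ) : ℝ := ∑ k ∈ range n, p k

/-- Variance of the sum. -/
noncomputable def vr (p : ℕ → ℝ) (n : ℕ) : ℝ := ∑ k ∈ range n, p k * (1 - p k)

theorem vr_nonneg (hp0 : ∀ k, 0 ≤ p k) (hp1 : ∀ k, p k ≤ 1) (n : ℕ) : 0 ≤ vr p n :=
  Finset.sum_nonneg fun k _ => mul_nonneg (hp0 k) (by linarith [hp1 k])

theorem EB_stein (hp0 : ∀ k, 0 ≤ p k) (hp1 : ∀ k, p k ≤ 1) (n : ℕ) {g g' : ℝ → ℝ} {K : ℝ}
    (hg : ∀ x, HasDerivAt g (g' x) x) (hK : ∀ x y, |g' x - g' y| ≤ K * |x - y|) :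
    |EB p n (fun b => (b - bt p n) * g b) - vr p n * EB p n g'| ≤ K * vr p n := by
  have hK0 : 0 ≤ K := by
    have := hK 1 0
    have h2 := abs_nonneg (g' 1 - g' 0)
    simp at this
    linarith
  induction n generalizing g g' with
  | zero => simp [EB, bt, vr]
  | succ n ih =>
    have hpn0 := hp0 n
    have hpn1 := hp1 n
    have hq : 0 ≤ 1 - p n := by linarith
    have h1 : EB p (n + 1) (fun b => (b - bt p (n + 1)) * g b)
        = EB p n (fun b => (b - bt p n) * (p n * g (b + 1) + (1 - p n) * g b))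
          + p n * (1 - p n) * EB p n (fun b => g (b + 1) - g b) := by
      rw [EB, ← EB_smul, ← EB_add]
      congr 1
      funext b
      unfold bt
      rw [Finset.sum_range_succ]
      ring
    have h2 : EB p (n + 1) g' = EB p n (fun b => p n * g' (b + 1) + (1 - p n) * g' b) := rfl
    have h3 : vr p (n + 1) = vr p n + p n * (1 - p n) := by
      unfold vr
      rw [Finset.sum_range_succ]
    have h4 := ih (g := fun b => p n * g (b + 1) + (1 - p n) * g b)
      (g' := fun b => p n * g' (b + 1) + (1 - p n) * g' b) (fun x => by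
        have h5 : HasDerivAt (fun b => g (b + 1)) (g' (x + 1)) x :=
          HasDerivAt.comp_add_const x 1 (hg (x + 1))
        exact (h5.const_mul (p n)).add ((hg x).const_mul (1 - p n))) (fun x y => by
        have h5 := hK (x + 1) (y + 1)
        rw [show x + 1 - (y + 1) = x - y by ring] at h5
        have h6 := hK x y
        have h7 : p n * g' (x + 1) + (1 - p n) * g' x - (p n * g' (y + 1) + (1 - p n) * g' y)
            = p n * (g' (x + 1) - g' (y + 1)) + (1 - p n) * (g' x - g' y) := by ring
        rw [h7]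
        refine (abs_add_le _ _).trans ?_
        rw [abs_mul, abs_mul, abs_of_nonneg hpn0, abs_of_nonneg hq]
        have h8 := mul_le_mul_of_nonneg_left h5 hpn0
        have h9 := mul_le_mul_of_nonneg_left h6 hq
        linarith)
    have h5 : ∀ b, |g (b + 1) - g b - (p n * g' (b + 1) + (1 - p n) * g' b)| ≤ K := fun b => by
      obtain ⟨c, hc, hc'⟩ := exists_hasDerivAt_eq_slope g g' (by linarith : b < b + 1)
        (fun x _ => (hg x).continuousAt.continuousWithinAt) (fun x _ => hg x)
      have h6 : g (b + 1) - g b = g' c := by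
        rw [hc']
        ring
      rw [h6]
      have h7 : g' c - (p n * g' (b + 1) + (1 - p n) * g' b)
          = p n * (g' c - g' (b + 1)) + (1 - p n) * (g' c - g' b) := by ring
      rw [h7]
      refine (abs_add_le _ _).trans ?_
      rw [abs_mul, abs_mul, abs_of_nonneg hpn0, abs_of_nonneg hq]
      have h8 : |g' c - g' (b + 1)| ≤ K := by
        refine (hK _ _).trans ?_
        have : |c - (b + 1)| ≤ 1 := by
          rw [abs_le]
          constructor <;> linarith [hc.1, hc.2]
        nlinarith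
      have h9 : |g' c - g' b| ≤ K := by
        refine (hK _ _).trans ?_
        have : |c - b| ≤ 1 := by
          rw [abs_le]
          constructor <;> linarith [hc.1, hc.2]
        nlinarith
      have h10 := mul_le_mul_of_nonneg_left h8 hpn0
      have h11 := mul_le_mul_of_nonneg_left h9 hq
      linarith
    have h6 := EB_abs_le hp0 hp1 n h5
    have h7 : EB p n (fun b => g (b + 1) - g b - (p n * g' (b + 1) + (1 - p n) * g' b))
        = EB p n (fun b => g (b + 1) - g b)
          - EB p n (fun b => p n * g' (b + 1) + (1 - p n) * g' b) := by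
      have : (fun b => g (b + 1) - g b - (p n * g' (b + 1) + (1 - p n) * g' b))
          = fun b => (g (b + 1) - g b) + (-1) * (p n * g' (b + 1) + (1 - p n) * g' b) := by
        funext b
        ring
      rw [this, EB_add, EB_smul]
      ring
    rw [h7] at h6
    rw [h1, h2, h3]
    set A1 := EB p n (fun b => (b - bt p n) * (p n * g (b + 1) + (1 - p n) * g b))
    set A2 := EB p n (fun b => g (b + 1) - g b)
    set A3 := EB p n (fun b => p n * g' (b + 1) + (1 - p n) * g' b)
    have h8 : A1 + p n * (1 - p n) * A2 - (vr p n + p n * (1 - p n)) * A3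
        = (A1 - vr p n * A3) + p n * (1 - p n) * (A2 - A3) := by ring
    rw [h8]
    refine (abs_add_le _ _).trans ?_
    rw [abs_mul, abs_of_nonneg (mul_nonneg hpn0 hq)]
    have h9 := mul_le_mul_of_nonneg_left h6 (mul_nonneg hpn0 hq)
    linarith

theorem EB_center (hp0 : ∀ k, 0 ≤ p k) (hp1 : ∀ k, p k ≤ 1) (n : ℕ) :
    EB p n (fun b => b - bt p n) = 0 := by
  have h := EB_stein hp0 hp1 n (g := fun _ => (1 : ℝ)) (g' := fun _ => 0) (K := 0)
    (fun x => hasDerivAt_const x 1) (fun x y => by simp)
  simp only [mul_one, EB_const, mul_zero, sub_zero, zero_mul] at h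
  exact abs_nonpos_iff.1 h

theorem EB_second (hp0 : ∀ k, 0 ≤ p k) (hp1 : ∀ k, p k ≤ 1) (n : ℕ) :
    EB p n (fun b => (b - bt p n) ^ 2) = vr p n := by
  have h := EB_stein hp0 hp1 n (g := fun b => b - bt p n) (g' := fun _ => 1) (K := 0)
    (fun x => (hasDerivAt_id x).sub_const _) (fun x y => by simp)
  simp only [EB_const, mul_one, zero_mul] at h
  have h2 := abs_nonpos_iff.1 h
  have h3 : (fun b => (b - bt p n) ^ 2) = fun b => (b - bt p n) * (b - bt p n) := by
    funext b
    ring
  rw [h3]
  linarith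

theorem EB_clt (hp0 : ∀ k, 0 ≤ p k) (hp1 : ∀ k, p k ≤ 1) (n : ℕ) {s : ℝ} (hs : 0 < s)
    (hv : s ^ 2 = vr p n) (h : ℝ → ℝ) (hh : LipschitzWith 1 h) :
    |EB p n (fun b => h ((b - bt p n) / s))
      - ∫ x, h x ∂(ProbabilityTheory.gaussianReal 0 1)| ≤ 7 / s := by
  obtain ⟨f, f', hf, hst, hlip⟩ := stein_exists h hh
  set Nh := ∫ x, h x ∂(ProbabilityTheory.gaussianReal 0 1) with hN
  have h1 := EB_stein hp0 hp1 n (g := fun b => f ((b - bt p n) / s))
    (g' := fun b => f' ((b - bt p n) / s) / s) (K := 7 / s ^ 2) (fun x => by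
      have h2 : HasDerivAt (fun b => (b - bt p n) / s) (1 / s) x :=
        ((hasDerivAt_id x).sub_const _).div_const s
      have h3 := (hf ((x - bt p n) / s)).comp x h2
      refine h3.congr_deriv ?_
      ring) (fun x y => by
      rw [← sub_div, abs_div, abs_of_pos hs, div_le_iff₀ hs]
      refine (hlip _ _).trans (le_of_eq ?_)
      rw [← sub_div, abs_div, abs_of_pos hs, show x - bt p n - (y - bt p n) = x - y by ring]
      field_simp)
  rw [← hv] at h1
  have h2 : (7 : ℝ) / s ^ 2 * s ^ 2 = 7 := by field_simp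
  rw [h2] at h1
  have h3 : EB p n (fun b => (b - bt p n) * f ((b - bt p n) / s))
        - s ^ 2 * EB p n (fun b => f' ((b - bt p n) / s) / s)
      = (-s) * (EB p n (fun b => h ((b - bt p n) / s)) - Nh) := by
    have h4 : EB p n (fun b => h ((b - bt p n) / s)) - Nh
        = EB p n (fun b => h ((b - bt p n) / s) + (-Nh)) := by
      rw [EB_add, EB_const]
      ring
    have h5 : EB p n (fun b => (b - bt p n) * f ((b - bt p n) / s))
        - s ^ 2 * EB p n (fun b => f' ((b - bt p n) / s) / s)
        = EB p n (fun b => (b - bt p n) * f ((b - bt p n) / s)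
          + (-s ^ 2) * (f' ((b - bt p n) / s) / s)) := by
      rw [EB_add, EB_smul]
      ring
    rw [h4, h5, ← EB_smul]
    congr 1
    funext b
    rw [hst]
    field_simp
    ring
  rw [h3, abs_mul, abs_neg, abs_of_pos hs] at h1
  rw [le_div_iff₀ hs]
  linarith

end Pool.Agent.H90.PA
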