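import Pool.Agent.H90.PA.Lsq

/-!
The coupling of the triangle count with a sum of independent Bernoulli variables.
-/

namespace Pool.Agent.H90.PA

open Finset

variable {m : ℕ} {δ : ℝ}

/-- The Bernoulli sum: expectation of `g` of a sum of independent Bernoulli variables with
parameters `p 0, ..., p (k-1)`. -/
noncomputable def EB (p : ℕ → ℝ) : ℕ → (ℝ → ℝ) → ℝ
  | 0, g => g 0
  | k + 1, g => EB p k (fun b => p k * g (b + 1) + (1 - p k) * g b)

/-- Indicator that a triangle is created. -/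
noncomputable def Ind (k : ℕ) (M : Gr) (N : ℕ → ℕ) : ℝ := if 1 ≤ Del (k + 2) M N then 1 else 0

/-- Conditional probability that a triangle is created. -/
noncomputable def tk (m : ℕ) (δ : ℝ) (k : ℕ) (M : Gr) : ℝ :=
  Mul (k + 2) (fun v => Dg δ k M v / Sk m δ k) m (Ind k M)

/-- The coupling rule. -/
noncomputable def lam (t p x : ℝ) : ℝ := if p ≤ t then p / t * x else x + (1 - x) * ((p - t) / (1 - t))

/-- One step of the coupled chain. -/
noncomputable def Cst (m : ℕ) (δ : ℝ) (p : ℕ → ℝ) (k : ℕ) (F : Gr → ℝ → ℝ) (M : Gr) (b : ℝ) : ℝ :=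
  Mul (k + 2) (fun v => Dg δ k M v / Sk m δ k) m (fun N =>
    lam (tk m δ k M) (p k) (Ind k M N) * F (att (k + 2) M N) (b + 1)
      + (1 - lam (tk m δ k M) (p k) (Ind k M N)) * F (att (k + 2) M N) b)

/-- The coupled expectation. -/
noncomputable def Ec (m : ℕ) (δ : ℝ) (p : ℕ → ℝ) : ℕ → (Gr → ℝ → ℝ) → ℝ
  | 0, F => F (start m) 0
  | k + 1, F => Ec m δ p k (Cst m δ p k F)

theorem Ind_cases (k : ℕ) (M : Gr) (N : ℕ → ℕ) : Ind k M N = 0 ∨ Ind k M N = 1 := by
  unfold Ind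
  split_ifs
  · exact Or.inr rfl
  · exact Or.inl rfl

theorem Ind_nonneg (k : ℕ) (M : Gr) (N : ℕ → ℕ) : 0 ≤ Ind k M N := by
  rcases Ind_cases k M N with h | h
  · rw [h]
  · rw [h]
    norm_num

theorem Ind_le_one (k : ℕ) (M : Gr) (N : ℕ → ℕ) : Ind k M N ≤ 1 := by
  rcases Ind_cases k M N with h | h
  · rw [h]
    norm_num
  · rw [h]

theorem tk_nonneg (hm : 2 ≤ m) (hδ : 0 < δ) {k : ℕ} {M : Gr} (h : Inv m k M) :
    0 ≤ tk m δ k M := by
  have he := env hm hδ h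
  unfold tk
  rw [← Mul_const (n := k + 2) he.w1 m 0]
  exact Mul_mono (fun v _ => he.w0 v) m fun N _ => Ind_nonneg k M N

theorem tk_le_one (hm : 2 ≤ m) (hδ : 0 < δ) {k : ℕ} {M : Gr} (h : Inv m k M) :
    tk m δ k M ≤ 1 := by
  have he := env hm hδ h
  unfold tk
  rw [← Mul_const (n := k + 2) he.w1 m 1]
  exact Mul_mono (fun v _ => he.w0 v) m fun N _ => Ind_le_one k M N

theorem lam_nonneg {t p x : ℝ} (ht0 : 0 ≤ t) (hp0 : 0 ≤ p) (hp1 : p ≤ 1)
    (hx0 : 0 ≤ x) (hx1 : x ≤ 1) : 0 ≤ lam t p x := by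
  unfold lam
  split_ifs with h
  · positivity
  · push Not at h
    have h1 : 0 ≤ (p - t) / (1 - t) := div_nonneg (by linarith) (by linarith)
    have h2 : 0 ≤ 1 - x := by linarith
    positivity

theorem lam_le_one {t p x : ℝ} (ht0 : 0 ≤ t) (hp1 : p ≤ 1)
    (hx0 : 0 ≤ x) (hx1 : x ≤ 1) : lam t p x ≤ 1 := by
  unfold lam
  split_ifs with h
  · have h1 : p / t ≤ 1 := div_le_one_of_le₀ h ht0
    calc p / t * x ≤ 1 * x := mul_le_mul_of_nonneg_right h1 hx0
      _ ≤ 1 := by linarith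
  · push Not at h
    have h1 : (p - t) / (1 - t) ≤ 1 := div_le_one_of_le₀ (by linarith) (by linarith)
    have h2 := mul_le_mul_of_nonneg_left h1 (by linarith : 0 ≤ 1 - x)
    linarith

theorem lam_mean (hm : 2 ≤ m) (hδ : 0 < δ) {k : ℕ} {M : Gr} (h : Inv m k M) {p : ℝ}
    (hp0 : 0 ≤ p) (hp1 : p ≤ 1) :
    Mul (k + 2) (fun v => Dg δ k M v / Sk m δ k) m (fun N => lam (tk m δ k M) p (Ind k M N)) = p := by
  have he := env hm hδ h
  have ht0 := tk_nonneg hm hδ h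
  unfold lam
  by_cases hpt : p ≤ tk m δ k M
  · simp only [if_pos hpt]
    rw [Mul_smul]
    change p / tk m δ k M * tk m δ k M = p
    rcases eq_or_lt_of_le ht0 with h0 | h0
    · rw [← h0] at hpt ⊢
      simp
      linarith
    · field_simp
  · simp only [if_neg hpt]
    push Not at hpt
    have h1 : Mul (k + 2) (fun v => Dg δ k M v / Sk m δ k) m
          (fun N => Ind k M N + (1 - Ind k M N) * ((p - tk m δ k M) / (1 - tk m δ k M)))
        = Mul (k + 2) (fun v => Dg δ k M v / Sk m δ k) m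
          (fun N => (1 - (p - tk m δ k M) / (1 - tk m δ k M)) * Ind k M N
            + (p - tk m δ k M) / (1 - tk m δ k M)) :=
      Mul_congr (fun v _ => he.w0 v) m fun N _ => by ring
    rw [h1, Mul_add, Mul_smul, Mul_const he.w1]
    change (1 - (p - tk m δ k M) / (1 - tk m δ k M)) * tk m δ k M
      + (p - tk m δ k M) / (1 - tk m δ k M) = p
    have h2 : 1 - tk m δ k M ≠ 0 := by
      have : 0 < 1 - tk m δ k M := by linarith
      exact this.ne'
    field_simp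
    ring

theorem lam_dist (hm : 2 ≤ m) (hδ : 0 < δ) {k : ℕ} {M : Gr} (h : Inv m k M) {p : ℝ}
    (hp0 : 0 ≤ p) (hp1 : p ≤ 1) :
    Mul (k + 2) (fun v => Dg δ k M v / Sk m δ k) m
      (fun N => |Ind k M N - lam (tk m δ k M) p (Ind k M N)|) = |tk m δ k M - p| := by
  have he := env hm hδ h
  have ht0 := tk_nonneg hm hδ h
  have hmean := lam_mean hm hδ h hp0 hp1
  by_cases hpt : p ≤ tk m δ k M
  · have h1 : ∀ N, |Ind k M N - lam (tk m δ k M) p (Ind k M N)|
        = Ind k M N - lam (tk m δ k M) p (Ind k M N) := fun N => by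
      refine abs_of_nonneg ?_
      unfold lam
      rw [if_pos hpt]
      have h2 : p / tk m δ k M ≤ 1 := div_le_one_of_le₀ hpt ht0
      have h3 := mul_le_mul_of_nonneg_right h2 (Ind_nonneg k M N)
      linarith
    simp only [h1]
    rw [Mul_sub, hmean, abs_of_nonneg (by linarith)]
    rfl
  · have h1 : ∀ N, |Ind k M N - lam (tk m δ k M) p (Ind k M N)|
        = lam (tk m δ k M) p (Ind k M N) - Ind k M N := fun N => by
      rw [abs_sub_comm]
      refine abs_of_nonneg ?_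
      unfold lam
      rw [if_neg hpt]
      push Not at hpt
      have h2 : 0 ≤ (p - tk m δ k M) / (1 - tk m δ k M) :=
        div_nonneg (by linarith) (by linarith)
      have h3 := mul_nonneg (by linarith [Ind_le_one k M N] : 0 ≤ 1 - Ind k M N) h2
      linarith
    simp only [h1]
    rw [Mul_sub, hmean, abs_of_neg (by linarith [not_le.1 hpt])]
    change p - tk m δ k M = _
    ring

section coupled

variable {p : ℕ → ℝ}

theorem Cst_mono (hm : 2 ≤ m) (hδ : 0 < δ) (hp0 : ∀ k, 0 ≤ p k) (hp1 : ∀ k, p k ≤ 1) {k : ℕ}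
    {M : Gr} (hM : Inv m k M) {F G : Gr → ℝ → ℝ}
    (h : ∀ M', Inv m (k + 1) M' → ∀ b, F M' b ≤ G M' b) (b : ℝ) :
    Cst m δ p k F M b ≤ Cst m δ p k G M b := by
  have he := env hm hδ hM
  have ht0 := tk_nonneg hm hδ hM
  unfold Cst
  refine Mul_mono (fun v _ => he.w0 v) m fun N hN => ?_
  have h1 := lam_nonneg ht0 (hp0 k) (hp1 k) (Ind_nonneg k M N) (Ind_le_one k M N)
  have h2 := lam_le_one ht0 (hp1 k) (Ind_nonneg k M N) (Ind_le_one k M N)
  have hI := Inv_att hM hN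
  exact add_le_add (mul_le_mul_of_nonneg_left (h _ hI _) h1)
    (mul_le_mul_of_nonneg_left (h _ hI _) (by linarith))

theorem Ec_mono (hm : 2 ≤ m) (hδ : 0 < δ) (hp0 : ∀ k, 0 ≤ p k) (hp1 : ∀ k, p k ≤ 1) (k : ℕ)
    {F G : Gr → ℝ → ℝ} (h : ∀ M, Inv m k M → ∀ b, F M b ≤ G M b) :
    Ec m δ p k F ≤ Ec m δ p k G := by
  induction k generalizing F G with
  | zero => exact h _ (Inv_start m) 0
  | succ k ih => exact ih fun M hM b => Cst_mono hm hδ hp0 hp1 hM h b

theorem Ec_congr (hm : 2 ≤ m) (hδ : 0 < δ) (hp0 : ∀ k, 0 ≤ p k) (hp1 : ∀ k, p k ≤ 1) (k : ℕ)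
    {F G : Gr → ℝ → ℝ} (h : ∀ M, Inv m k M → ∀ b, F M b = G M b) :
    Ec m δ p k F = Ec m δ p k G :=
  le_antisymm (Ec_mono hm hδ hp0 hp1 k fun M hM b => (h M hM b).le)
    (Ec_mono hm hδ hp0 hp1 k fun M hM b => (h M hM b).ge)

theorem Ec_add (k : ℕ) (F G : Gr → ℝ → ℝ) :
    Ec m δ p k (fun M b => F M b + G M b) = Ec m δ p k F + Ec m δ p k G := by
  induction k generalizing F G with
  | zero => rfl
  | succ k ih =>
    rw [Ec, Ec, Ec, ← ih]
    congr 1
    funext M b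
    unfold Cst
    rw [← Mul_add]
    congr 1
    funext N
    ring

theorem Ec_smul (k : ℕ) (a : ℝ) (F : Gr → ℝ → ℝ) :
    Ec m δ p k (fun M b => a * F M b) = a * Ec m δ p k F := by
  induction k generalizing F with
  | zero => rfl
  | succ k ih =>
    rw [Ec, Ec, ← ih]
    congr 1
    funext M b
    unfold Cst
    rw [← Mul_smul]
    congr 1
    funext N
    ring

theorem Ec_left (hm : 2 ≤ m) (hδ : 0 < δ) (hp0 : ∀ k, 0 ≤ p k) (hp1 : ∀ k, p k ≤ 1) (k : ℕ)
    (F : Gr → ℝ) : Ec m δ p k (fun M _ => F M) = E m δ k F := by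
  induction k generalizing F with
  | zero => rfl
  | succ k ih =>
    rw [Ec, E_succ, ← ih]
    refine Ec_congr hm hδ hp0 hp1 k fun M _ b => ?_
    unfold Cst Pst
    congr 1
    funext N
    ring

theorem Ec_right (hm : 2 ≤ m) (hδ : 0 < δ) (hp0 : ∀ k, 0 ≤ p k) (hp1 : ∀ k, p k ≤ 1) (k : ℕ)
    (g : ℝ → ℝ) : Ec m δ p k (fun _ b => g b) = EB p k g := by
  induction k generalizing g with
  | zero => rfl
  | succ k ih =>
    rw [Ec, EB, ← ih]
    refine Ec_congr hm hδ hp0 hp1 k fun M hM b => ?_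
    have he := env hm hδ hM
    unfold Cst
    have h1 : Mul (k + 2) (fun v => Dg δ k M v / Sk m δ k) m (fun N =>
          lam (tk m δ k M) (p k) (Ind k M N) * g (b + 1)
            + (1 - lam (tk m δ k M) (p k) (Ind k M N)) * g b)
        = Mul (k + 2) (fun v => Dg δ k M v / Sk m δ k) m (fun N =>
          (g (b + 1) - g b) * lam (tk m δ k M) (p k) (Ind k M N) + g b) :=
      Mul_congr (fun v _ => he.w0 v) m fun N _ => by ring
    rw [h1, Mul_add, Mul_smul, Mul_const he.w1, lam_mean hm hδ hM (hp0 k) (hp1 k)]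
    ring

end coupled

theorem Del_nat {k : ℕ} {M : Gr} (h : Inv m k M) (N : ℕ → ℕ) :
    ∃ d : ℕ, Del (k + 2) M N = d := ⟨_, Del_eq h N⟩

theorem ind_ineq (d : ℕ) {L : ℝ} (hL0 : 0 ≤ L) :
    L * ((d : ℝ) - 1) ^ 2 + (1 - L) * (d : ℝ) ^ 2
      ≤ 3 * ((d : ℝ) * (d - 1)) + |(if (1 : ℝ) ≤ d then (1 : ℝ) else 0) - L| := by
  rcases Nat.eq_zero_or_pos d with h | h
  · rw [h]
    simp only [Nat.cast_zero]
    rw [if_neg (by norm_num)]
    have h2 : |(0 : ℝ) - L| = L := by rw [zero_sub, abs_neg, abs_of_nonneg hL0]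
    rw [h2]
    linarith
  · have h1 : (1 : ℝ) ≤ d := by exact_mod_cast h
    rw [if_pos h1]
    have h2 : 1 - L ≤ |1 - L| := le_abs_self _
    nlinarith [mul_nonneg (by linarith : (0 : ℝ) ≤ d - 1) hL0,
      mul_nonneg (by linarith : (0 : ℝ) ≤ d - 1) (by linarith : (0 : ℝ) ≤ 2 * d - 1)]

theorem ind_le (d : ℕ) : (if (1 : ℝ) ≤ d then (1 : ℝ) else 0) ≤ d := by
  split_ifs with h
  · exact h
  · exact Nat.cast_nonneg _

theorem le_ind (d : ℕ) :
    (d : ℝ) ≤ (if (1 : ℝ) ≤ d then (1 : ℝ) else 0) + (d : ℝ) * (d - 1) := by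
  rcases Nat.eq_zero_or_pos d with h | h
  · rw [h]
    split_ifs <;> simp
  · have h1 : (1 : ℝ) ≤ d := by exact_mod_cast h
    rw [if_pos h1]
    nlinarith

theorem fact_nonneg (d : ℕ) : 0 ≤ (d : ℝ) * (d - 1) := by
  rcases Nat.eq_zero_or_pos d with h | h
  · rw [h]
    simp
  · have h1 : (1 : ℝ) ≤ d := by exact_mod_cast h
    nlinarith

/-- Conditional second factorial moment. -/
noncomputable def ze (m : ℕ) (δ : ℝ) (k : ℕ) (M : Gr) : ℝ :=
  Mul (k + 2) (fun v => Dg δ k M v / Sk m δ k) m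
    (fun N => Del (k + 2) M N * (Del (k + 2) M N - 1))

/-- Mean minus `p`. -/
noncomputable def er (m : ℕ) (δ : ℝ) (p : ℕ → ℝ) (k : ℕ) (M : Gr) : ℝ :=
  m * (m - 1) / 2 * (Qs δ k M / Sk m δ k ^ 2) - p k

theorem tk_dist (hm : 2 ≤ m) (hδ : 0 < δ) {k : ℕ} {M : Gr} (h : Inv m k M) (p : ℕ → ℝ) :
    |tk m δ k M - p k| ≤ |er m δ p k M| + ze m δ k M := by
  have he := env hm hδ h
  have h1 : tk m δ k M ≤ m * (m - 1) / 2 * (Qs δ k M / Sk m δ k ^ 2) := by
    rw [← Del_mean hm hδ h]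
    unfold tk
    refine Mul_mono (fun v _ => he.w0 v) m fun N _ => ?_
    obtain ⟨d, hd⟩ := Del_nat h N
    unfold Ind
    rw [hd]
    exact ind_le d
  have h2 : m * (m - 1) / 2 * (Qs δ k M / Sk m δ k ^ 2) ≤ tk m δ k M + ze m δ k M := by
    rw [← Del_mean hm hδ h]
    unfold tk ze
    rw [← Mul_add]
    refine Mul_mono (fun v _ => he.w0 v) m fun N _ => ?_
    obtain ⟨d, hd⟩ := Del_nat h N
    unfold Ind
    rw [hd]
    exact le_ind d
  have h3 : 0 ≤ ze m δ k M := by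
    unfold ze
    rw [← Mul_const (n := k + 2) he.w1 m 0]
    refine Mul_mono (fun v _ => he.w0 v) m fun N _ => ?_
    obtain ⟨d, hd⟩ := Del_nat h N
    rw [hd]
    exact fact_nonneg d
  have h4 : tk m δ k M - p k = er m δ p k M
      + (tk m δ k M - m * (m - 1) / 2 * (Qs δ k M / Sk m δ k ^ 2)) := by
    unfold er
    ring
  rw [h4]
  refine (abs_add_le _ _).trans (add_le_add le_rfl ?_)
  rw [abs_le]
  constructor <;> linarith

theorem ze_nonneg (hm : 2 ≤ m) (hδ : 0 < δ) {k : ℕ} {M : Gr} (h : Inv m k M) :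
    0 ≤ ze m δ k M := by
  have he := env hm hδ h
  unfold ze
  rw [← Mul_const (n := k + 2) he.w1 m 0]
  refine Mul_mono (fun v _ => he.w0 v) m fun N _ => ?_
  obtain ⟨d, hd⟩ := Del_nat h N
  rw [hd]
  exact fact_nonneg d

/-- One coupled step for the squared distance. -/
theorem Cst_sq (hm : 2 ≤ m) (hδ : 0 < δ) {p : ℕ → ℝ} (hp0 : ∀ k, 0 ≤ p k) (hp1 : ∀ k, p k ≤ 1)
    {k : ℕ} {M : Gr} (h : Inv m k M) (b : ℝ) :
    Cst m δ p k (fun M' b' => ((tri (k + 2 + 1) M' : ℝ) - b') ^ 2) M b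
      ≤ ((tri (k + 2) M : ℝ) - b) ^ 2 + 2 * ((tri (k + 2) M : ℝ) - b) * er m δ p k M
        + 4 * ze m δ k M + |er m δ p k M| := by
  have he := env hm hδ h
  have ht0 := tk_nonneg hm hδ h
  set Z := (tri (k + 2) M : ℝ) - b with hZ
  have h1 : Cst m δ p k (fun M' b' => ((tri (k + 2 + 1) M' : ℝ) - b') ^ 2) M b
      ≤ Mul (k + 2) (fun v => Dg δ k M v / Sk m δ k) m (fun N =>
        Z ^ 2 + ((2 * Z) * (Del (k + 2) M N - lam (tk m δ k M) (p k) (Ind k M N))
          + (3 * (Del (k + 2) M N * (Del (k + 2) M N - 1))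
          + |Ind k M N - lam (tk m δ k M) (p k) (Ind k M N)|))) := by
    unfold Cst
    refine Mul_mono (fun v _ => he.w0 v) m fun N hN => ?_
    beta_reduce
    rw [tri_att h]
    have h2 := lam_nonneg ht0 (hp0 k) (hp1 k) (Ind_nonneg k M N) (Ind_le_one k M N)
    obtain ⟨d, hd⟩ := Del_nat h N
    have h3 := ind_ineq d h2
    have h4 : (if (1 : ℝ) ≤ d then (1 : ℝ) else 0) = Ind k M N := by
      unfold Ind
      rw [hd]
    rw [h4] at h3
    rw [hd]
    set L := lam (tk m δ k M) (p k) (Ind k M N) with hL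
    have h5 : L * ((tri (k + 2) M : ℝ) + d - (b + 1)) ^ 2
          + (1 - L) * ((tri (k + 2) M : ℝ) + d - b) ^ 2
        = Z ^ 2 + 2 * Z * (d - L) + (L * ((d : ℝ) - 1) ^ 2 + (1 - L) * (d : ℝ) ^ 2) := by
      rw [hZ]
      ring
    rw [h5]
    linarith
  refine h1.trans ?_
  rw [Mul_add, Mul_add, Mul_add, Mul_smul, Mul_smul, Mul_sub, Mul_const he.w1,
    lam_mean hm hδ h (hp0 k) (hp1 k), lam_dist hm hδ h (hp0 k) (hp1 k)]
  have h6 := Del_mean hm hδ h
  have h7 : Mul (k + 2) (fun v => Dg δ k M v / Sk m δ k) m (fun N => Del (k + 2) M N)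
      = m * (m - 1) / 2 * (Qs δ k M / Sk m δ k ^ 2) := h6
  rw [h7]
  have h8 := tk_dist hm hδ h p
  have h9 : m * (m - 1) / 2 * (Qs δ k M / Sk m δ k ^ 2) - p k = er m δ p k M := rfl
  rw [h9]
  change Z ^ 2 + (2 * Z * er m δ p k M + (3 * ze m δ k M + |tk m δ k M - p k|)) ≤ _
  linarith

end Pool.Agent.H90.PA
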