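import Mathlib

/-!
Instantaneous preferential attachment: the model, as an explicit expectation
functional, and the multinomial draws of one step.
-/

namespace Pool.Agent.H90.PA

open Finset

/-- A multigraph on the vertices `0, 1, 2, ...`: `M u v` is the number of edges joining
`u` and `v`. -/
abbrev Gr := ℕ → ℕ → ℕ

/-- The degree of `v` in the multigraph `M` with vertices `0, ..., n-1`
(parallel edges counted with multiplicity). -/
def deg (n : ℕ) (M : Gr) (v : ℕ) : ℕ := ∑ u ∈ range n, M v u

/-- The number of triangles of `M` (vertices `0, ..., n-1`), counted with edge multiplicity: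
the sum over all vertices `c < b < a < n` of `M a b * M a c * M b c`. -/
def tri (n : ℕ) (M : Gr) : ℕ :=
  ∑ a ∈ range n, ∑ b ∈ range a, ∑ c ∈ range b, M a b * M a c * M b c

/-- The initial multigraph: the vertices `0` and `1` joined by `m` parallel edges. -/
def start (m : ℕ) : Gr := fun u v => if (u = 0 ∧ v = 1) ∨ (u = 1 ∧ v = 0) then m else 0

/-- Add the new vertex `n` to `M`, joined to each old vertex `v` by `N v` parallel edges. -/
def att (n : ℕ) (M : Gr) (N : ℕ → ℕ) : Gr :=
  fun u v => if u = n then N v else if v = n then N u else M u v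

/-- The number of edges `l` whose endpoint `c l` is `v`. -/
def cnt {m n : ℕ} (c : Fin m → Fin n) (v : ℕ) : ℕ :=
  (univ.filter (fun l : Fin m => ((c l : Fin n) : ℕ) = v)).card

/-- The conditional probability, given the multigraph `M` with `n` vertices, that the `m` edges
of the new vertex have the endpoints `c 0, ..., c (m-1)` (independent choices, all with the
degrees of `M`; the new vertex is number `k = n + 1`, and the denominator is
`2m(k-2) + (k-1)δ`). -/
noncomputable def prob (m : ℕ) (δ : ℝ) (n : ℕ) (M : Gr) (c : Fin m → Fin n) : ℝ :=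
  ∏ l, (((deg n M (c l) : ℕ) : ℝ) + δ) / (2 * (m : ℝ) * ((n : ℝ) - 1) + (n : ℝ) * δ)

/-- `E m δ k F` is the expectation of `F (G_n)` for `n = k + 2`: the multigraph `G_2` is
deterministic, and `G_(n+1)` is obtained from `G_n` by adding one vertex whose `m` edges have
the endpoints `c` with conditional probability `prob m δ n G_n c`. -/
noncomputable def E (m : ℕ) (δ : ℝ) : ℕ → (Gr → ℝ) → ℝ
  | 0, F => F (start m)
  | k + 1, F => E m δ k (fun M =>
      ∑ c : Fin m → Fin (k + 2), prob m δ (k + 2) M c * F (att (k + 2) M (cnt c)))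

/-- Iterated single draws: the expectation of `F N`, where `N` counts `j` independent draws
with weights `w` from `0, ..., n-1`. -/
noncomputable def Mul (n : ℕ) (w : ℕ → ℝ) : ℕ → ((ℕ → ℕ) → ℝ) → ℝ
  | 0, F => F (fun _ => 0)
  | j + 1, F => Mul n w j (fun N => ∑ v ∈ range n, w v * F (fun u => N u + if u = v then 1 else 0))

theorem cnt_zero {n : ℕ} (c : Fin 0 → Fin n) : cnt c = fun _ => 0 := by
  funext v
  simp [cnt]

theorem cnt_cons {j n : ℕ} (v : Fin n) (c : Fin j → Fin n) :
    cnt (Fin.cons v c : Fin (j + 1) → Fin n) = fun u => cnt c u + if u = (v : ℕ) then 1 else 0 := by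
  funext u
  unfold cnt
  rw [card_filter, card_filter, Fin.sum_univ_succ]
  simp only [Fin.cons_zero, Fin.cons_succ]
  rw [add_comm]
  congr 1
  by_cases h : u = (v : ℕ)
  · simp [h]
  · rw [if_neg h, if_neg (fun h' => h h'.symm)]

theorem sum_eq_Mul (n : ℕ) (w : ℕ → ℝ) (j : ℕ) (F : (ℕ → ℕ) → ℝ) :
    ∑ c : Fin j → Fin n, (∏ l, w (c l)) * F (cnt c) = Mul n w j F := by
  induction j generalizing F with
  | zero =>
    simp [Mul, cnt_zero]
  | succ j ih =>
    rw [Mul, ← ih]
    rw [← (Fin.consEquiv (fun _ : Fin (j + 1) => Fin n)).sum_comp, Fintype.sum_prod_type_right]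
    refine Finset.sum_congr rfl fun c _ => ?_
    rw [Finset.mul_sum, ← Fin.sum_univ_eq_sum_range
      (fun v => (∏ l, w (c l)) * (w v * F (fun u => cnt c u + if u = v then 1 else 0))) n]
    refine Finset.sum_congr rfl fun v _ => ?_
    have h1 : (Fin.consEquiv (fun _ : Fin (j + 1) => Fin n)) (v, c) = Fin.cons v c := rfl
    rw [h1, cnt_cons, Fin.prod_univ_succ]
    simp only [Fin.cons_zero, Fin.cons_succ]
    ring

section Mul

variable {n : ℕ} {w : ℕ → ℝ}

theorem Mul_add (j : ℕ) (F G : (ℕ → ℕ) → ℝ) :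
    Mul n w j (fun N => F N + G N) = Mul n w j F + Mul n w j G := by
  induction j generalizing F G with
  | zero => simp [Mul]
  | succ j ih =>
    simp only [Mul]
    rw [← ih]
    congr 1
    funext N
    rw [← Finset.sum_add_distrib]
    exact Finset.sum_congr rfl fun v _ => by ring

theorem Mul_smul (j : ℕ) (a : ℝ) (F : (ℕ → ℕ) → ℝ) :
    Mul n w j (fun N => a * F N) = a * Mul n w j F := by
  induction j generalizing F with
  | zero => simp [Mul]
  | succ j ih =>
    simp only [Mul]
    rw [← ih]
    congr 1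
    funext N
    rw [Finset.mul_sum]
    exact Finset.sum_congr rfl fun v _ => by ring

theorem Mul_sub (j : ℕ) (F G : (ℕ → ℕ) → ℝ) :
    Mul n w j (fun N => F N - G N) = Mul n w j F - Mul n w j G := by
  have h := Mul_add (n := n) (w := w) j (fun N => F N - G N) G
  simp only [sub_add_cancel] at h
  linarith

theorem Mul_const (hw : ∑ v ∈ range n, w v = 1) (j : ℕ) (a : ℝ) :
    Mul n w j (fun _ => a) = a := by
  induction j with
  | zero => simp [Mul]
  | succ j ih =>
    simp only [Mul]
    rw [← Finset.sum_mul, hw, one_mul, ih]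

/-- The invariant of the counts after `j` draws. -/
def Cnt (n j : ℕ) (N : ℕ → ℕ) : Prop := (∀ v, n ≤ v → N v = 0) ∧ ∑ v ∈ range n, N v = j

theorem Cnt_zero : Cnt n 0 (fun _ => 0) := ⟨fun _ _ => rfl, by simp⟩

theorem Cnt_succ {j : ℕ} {N : ℕ → ℕ} (h : Cnt n j N) {v : ℕ} (hv : v ∈ range n) :
    Cnt n (j + 1) (fun u => N u + if u = v then 1 else 0) := by
  refine ⟨fun u hu => ?_, ?_⟩
  · have h1 := h.1 u hu
    have h2 : u ≠ v := by
      have := mem_range.1 hv
      omega
    simp [h1, h2]
  · rw [Finset.sum_add_distrib, h.2, Finset.sum_ite_eq' , if_pos hv]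

theorem Mul_mono (hw : ∀ v ∈ range n, 0 ≤ w v) (j : ℕ) {F G : (ℕ → ℕ) → ℝ}
    (h : ∀ N, Cnt n j N → F N ≤ G N) : Mul n w j F ≤ Mul n w j G := by
  induction j generalizing F G with
  | zero => exact h _ Cnt_zero
  | succ j ih =>
    simp only [Mul]
    refine ih fun N hN => ?_
    refine Finset.sum_le_sum fun v hv => ?_
    exact mul_le_mul_of_nonneg_left (h _ (Cnt_succ hN hv)) (hw v hv)

theorem Mul_congr (hw : ∀ v ∈ range n, 0 ≤ w v) (j : ℕ) {F G : (ℕ → ℕ) → ℝ}
    (h : ∀ N, Cnt n j N → F N = G N) : Mul n w j F = Mul n w j G :=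
  le_antisymm (Mul_mono hw j fun N hN => (h N hN).le) (Mul_mono hw j fun N hN => (h N hN).ge)

end Mul

end Pool.Agent.H90.PA
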