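import Pool.Agent.H90.PA.Cpl

/-!
The coupled triangle count and Bernoulli sum stay at bounded distance in mean square.
-/

namespace Pool.Agent.H90.PA

open Finset

variable {m : ℕ} {δ : ℝ}

/-- Half of `m (m - 1)`. -/
noncomputable def ka (m : ℕ) : ℝ := m * (m - 1) / 2

/-- The Bernoulli parameters. -/
noncomputable def pk (m : ℕ) (δ : ℝ) (k : ℕ) : ℝ :=
  ka m * qh m δ / (Sk m δ k + 2 * (ka m * qh m δ))

theorem ka_pos (hm : 2 ≤ m) : 0 < ka m := by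
  have hm2 : (2 : ℝ) ≤ m := by exact_mod_cast hm
  unfold ka
  have : 0 < (m : ℝ) - 1 := by linarith
  positivity

theorem qh_pos (hm : 2 ≤ m) (hδ : 0 < δ) : 0 < qh m δ := by
  have hm2 : (2 : ℝ) ≤ m := by exact_mod_cast hm
  unfold qh rh
  positivity

theorem pk_pos (hm : 2 ≤ m) (hδ : 0 < δ) (k : ℕ) : 0 < pk m δ k := by
  have h1 := ka_pos hm
  have h2 := qh_pos hm hδ
  have h3 := Sk_ge m hm hδ k
  unfold pk
  positivity

theorem pk_le_half (hm : 2 ≤ m) (hδ : 0 < δ) (k : ℕ) : pk m δ k ≤ 1 / 2 := by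
  have h1 := mul_pos (ka_pos hm) (qh_pos hm hδ)
  have h3 := Sk_ge m hm hδ k
  unfold pk
  rw [div_le_div_iff₀ (by linarith) (by norm_num)]
  linarith

theorem er_sq (hm : 2 ≤ m) (hδ : 0 < δ) (k : ℕ) (M : Gr) :
    er m δ (pk m δ) k M ^ 2
      ≤ 2 * ka m ^ 2 / Sk m δ k ^ 4 * (Qs δ k M - qh m δ * Sk m δ k) ^ 2
        + 2 * (2 * (ka m * qh m δ) ^ 2) ^ 2 / Sk m δ k ^ 4 := by
  have h0 := mul_pos (ka_pos hm) (qh_pos hm hδ)
  have hS : 0 < Sk m δ k := by linarith [Sk_ge m hm hδ k]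
  obtain ⟨g, hg⟩ : ∃ g, g = ka m * qh m δ := ⟨_, rfl⟩
  obtain ⟨S, hSd⟩ : ∃ S, S = Sk m δ k := ⟨_, rfl⟩
  rw [← hg] at h0
  rw [← hSd] at hS
  have h1 : er m δ (pk m δ) k M
      = ka m * (Qs δ k M - qh m δ * Sk m δ k) / Sk m δ k ^ 2 + (g / S - g / (S + 2 * g)) := by
    unfold er pk
    rw [← hg, ← hSd]
    have : m * (m - 1) / 2 = ka m := rfl
    rw [this, hg]
    field_simp
    ring
  have h2 : 0 ≤ g / S - g / (S + 2 * g) := by
    rw [sub_nonneg]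
    exact div_le_div_of_nonneg_left h0.le hS (by linarith)
  have h3 : g / S - g / (S + 2 * g) ≤ 2 * g ^ 2 / S ^ 2 := by
    have : g / S - g / (S + 2 * g) = 2 * g ^ 2 / (S * (S + 2 * g)) := by
      field_simp
      ring
    rw [this]
    refine div_le_div_of_nonneg_left (by positivity) (by positivity) ?_
    nlinarith
  have h4 : (g / S - g / (S + 2 * g)) ^ 2 ≤ (2 * g ^ 2 / S ^ 2) ^ 2 := pow_le_pow_left₀ h2 h3 2
  have h5 : (2 * g ^ 2 / S ^ 2) ^ 2 = (2 * (ka m * qh m δ) ^ 2) ^ 2 / Sk m δ k ^ 4 := by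
    rw [← hg, ← hSd]
    field_simp
  have h6 : (ka m * (Qs δ k M - qh m δ * Sk m δ k) / Sk m δ k ^ 2) ^ 2
      = ka m ^ 2 / Sk m δ k ^ 4 * (Qs δ k M - qh m δ * Sk m δ k) ^ 2 := by
    rw [← hSd]
    field_simp
  rw [h1]
  have h7 : 2 * ka m ^ 2 / Sk m δ k ^ 4 * (Qs δ k M - qh m δ * Sk m δ k) ^ 2
      = 2 * (ka m ^ 2 / Sk m δ k ^ 4 * (Qs δ k M - qh m δ * Sk m δ k) ^ 2) := by ring
  have h8 : 2 * (2 * (ka m * qh m δ) ^ 2) ^ 2 / Sk m δ k ^ 4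
      = 2 * ((2 * (ka m * qh m δ) ^ 2) ^ 2 / Sk m δ k ^ 4) := by ring
  rw [h7, h8, ← h6, ← h5]
  nlinarith [sq_nonneg (ka m * (Qs δ k M - qh m δ * Sk m δ k) / Sk m δ k ^ 2
    - (g / S - g / (S + 2 * g)))]

/-- The summable rate. -/
noncomputable def ra (m : ℕ) (δ : ℝ) (k : ℕ) : ℝ := Sk m δ k ^ (bp m δ - 3)

theorem ra_pos (hm : 2 ≤ m) (hδ : 0 < δ) (k : ℕ) : 0 < ra m δ k :=
  Real.rpow_pos_of_pos (by linarith [Sk_ge m hm hδ k]) _

theorem ra_summable (hm : 2 ≤ m) (hδ : 0 < δ) : Summable (ra m δ) := by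
  have h1 : Summable (fun k : ℕ => ((k + 1 : ℕ) : ℝ) ^ (bp m δ - 3)) :=
    (summable_nat_add_iff 1).2 (Real.summable_nat_rpow.2 (by linarith [bp_lt (m := m) hδ]))
  refine Summable.of_nonneg_of_le (fun k => (ra_pos hm hδ k).le) (fun k => ?_) h1
  unfold ra
  refine Real.rpow_le_rpow_of_nonpos (by positivity) ?_ (by linarith [bp_lt (m := m) hδ])
  unfold Sk
  push_cast
  have hm2 : (2 : ℝ) ≤ m := by exact_mod_cast hm
  have h2 : (0 : ℝ) ≤ k := Nat.cast_nonneg k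
  nlinarith [mul_nonneg h2 hδ.le, mul_nonneg h2 (by linarith : (0 : ℝ) ≤ m - 2)]

theorem er_mean (hm : 2 ≤ m) (hδ : 0 < δ) :
    ∃ C : ℝ, 0 ≤ C ∧ ∀ k, E m δ k (fun M => er m δ (pk m δ) k M ^ 2) ≤ C * ra m δ k ^ 2 := by
  obtain ⟨A, hA⟩ := exists_A m hδ
  obtain ⟨CX, hCX, hX⟩ := xsq_bound hm hδ hA
  refine ⟨2 * ka m ^ 2 * CX + 2 * (2 * (ka m * qh m δ) ^ 2) ^ 2, by positivity, fun k => ?_⟩
  have hS4 := Sk_ge m hm hδ k
  have hS : 0 < Sk m δ k := by linarith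
  have h1 := E_mono hm hδ k (F := fun M => er m δ (pk m δ) k M ^ 2)
    (G := fun M => 2 * ka m ^ 2 / Sk m δ k ^ 4 * (Qs δ k M - qh m δ * Sk m δ k) ^ 2
        + 2 * (2 * (ka m * qh m δ) ^ 2) ^ 2 / Sk m δ k ^ 4) (fun M _ => er_sq hm hδ k M)
  rw [E_add, E_smul, E_const hm hδ] at h1
  have h2 := mul_le_mul_of_nonneg_left (hX k) (by positivity : 0 ≤ 2 * ka m ^ 2 / Sk m δ k ^ 4)
  have h3 : 1 ≤ Sk m δ k ^ be m δ := Real.one_le_rpow (by linarith) (by linarith [be_ge (m := m) hδ])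
  have h4 : ra m δ k ^ 2 = Sk m δ k ^ be m δ / Sk m δ k ^ 4 := by
    unfold ra
    rw [← Real.rpow_natCast, ← Real.rpow_mul hS.le, ← Real.rpow_natCast (Sk m δ k) 4,
      ← Real.rpow_sub hS]
    congr 1
    unfold bp be
    have : (2 * (m : ℝ) + δ) ≠ 0 := by positivity
    push_cast
    field_simp
    ring
  rw [h4]
  have h5 : 2 * (2 * (ka m * qh m δ) ^ 2) ^ 2 / Sk m δ k ^ 4
      ≤ 2 * (2 * (ka m * qh m δ) ^ 2) ^ 2 * (Sk m δ k ^ be m δ / Sk m δ k ^ 4) := by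
    rw [mul_div_assoc']
    refine div_le_div_of_nonneg_right ?_ (by positivity)
    exact le_mul_of_one_le_right (by positivity) h3
  have h6 : 2 * ka m ^ 2 / Sk m δ k ^ 4 * (CX * Sk m δ k ^ be m δ)
      = 2 * ka m ^ 2 * CX * (Sk m δ k ^ be m δ / Sk m δ k ^ 4) := by ring
  have h7 : (2 * ka m ^ 2 * CX + 2 * (2 * (ka m * qh m δ) ^ 2) ^ 2)
        * (Sk m δ k ^ be m δ / Sk m δ k ^ 4)
      = 2 * ka m ^ 2 * CX * (Sk m δ k ^ be m δ / Sk m δ k ^ 4)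
        + 2 * (2 * (ka m * qh m δ) ^ 2) ^ 2 * (Sk m δ k ^ be m δ / Sk m δ k ^ 4) := by ring
  rw [h7]
  linarith

theorem ze_mean (hm : 2 ≤ m) (hδ : 0 < δ) :
    ∃ C : ℝ, 0 ≤ C ∧ ∀ k, E m δ k (ze m δ k) ≤ C * ra m δ k := by
  obtain ⟨A, hA⟩ := exists_A m hδ
  obtain ⟨CX, hCX, hX⟩ := xsq_bound hm hδ hA
  obtain ⟨CF, hCF, hF⟩ := Fs_bound hm hδ hA
  obtain ⟨CP, hCP, hP⟩ := Ps_bound hm hδ hA
  have hbe := be_ge (m := m) hδ
  have hbb := be_le_bp (m := m) hδ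
  refine ⟨m ^ 4 * (CF + (2 * CX + 2 * qh m δ ^ 2) + CP), by positivity, fun k => ?_⟩
  have hS4 := Sk_ge m hm hδ k
  have hS : 0 < Sk m δ k := by linarith
  have hS1 : 1 ≤ Sk m δ k := by linarith
  have hA0 : 0 ≤ A := by linarith [hA.h1]
  have h1 : E m δ k (ze m δ k) ≤ E m δ k (fun M => m ^ 4 / Sk m δ k ^ 3 * Fs δ A k M
      + (2 * m ^ 4 / Sk m δ k ^ 4 * (Qs δ k M - qh m δ * Sk m δ k) ^ 2
      + (m ^ 4 / Sk m δ k ^ 2 * Ps δ k M + 2 * m ^ 4 * qh m δ ^ 2 / Sk m δ k ^ 2))) := by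
    refine E_mono hm hδ k fun M hM => ?_
    have h2 := Del_fact hm hδ hM hA0
    refine h2.trans ?_
    have h3 : Qs δ k M ^ 2 ≤ 2 * (Qs δ k M - qh m δ * Sk m δ k) ^ 2
        + 2 * (qh m δ * Sk m δ k) ^ 2 := by
      nlinarith [sq_nonneg (Qs δ k M - 2 * (qh m δ * Sk m δ k))]
    have h4 : (Qs δ k M / Sk m δ k ^ 2) ^ 2
        ≤ (2 * (Qs δ k M - qh m δ * Sk m δ k) ^ 2 + 2 * (qh m δ * Sk m δ k) ^ 2)
          / Sk m δ k ^ 4 := by
      have : (Qs δ k M / Sk m δ k ^ 2) ^ 2 = Qs δ k M ^ 2 / Sk m δ k ^ 4 := by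
        field_simp
      rw [this]
      exact div_le_div_of_nonneg_right h3 (by positivity)
    have h5 : (2 * (Qs δ k M - qh m δ * Sk m δ k) ^ 2 + 2 * (qh m δ * Sk m δ k) ^ 2)
          / Sk m δ k ^ 4
        = 2 * (Qs δ k M - qh m δ * Sk m δ k) ^ 2 / Sk m δ k ^ 4
          + 2 * qh m δ ^ 2 / Sk m δ k ^ 2 := by
      field_simp
    rw [h5] at h4
    have h6 := mul_le_mul_of_nonneg_left h4 (by positivity : (0 : ℝ) ≤ m ^ 4)
    have h7 : (m : ℝ) ^ 4 * (Fs δ A k M / Sk m δ k ^ 3 + (Qs δ k M / Sk m δ k ^ 2) ^ 2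
          + Ps δ k M / Sk m δ k ^ 2)
        = m ^ 4 / Sk m δ k ^ 3 * Fs δ A k M + m ^ 4 * (Qs δ k M / Sk m δ k ^ 2) ^ 2
          + m ^ 4 / Sk m δ k ^ 2 * Ps δ k M := by ring
    rw [h7]
    have h8 : (m : ℝ) ^ 4 * (2 * (Qs δ k M - qh m δ * Sk m δ k) ^ 2 / Sk m δ k ^ 4
          + 2 * qh m δ ^ 2 / Sk m δ k ^ 2)
        = 2 * m ^ 4 / Sk m δ k ^ 4 * (Qs δ k M - qh m δ * Sk m δ k) ^ 2
          + 2 * m ^ 4 * qh m δ ^ 2 / Sk m δ k ^ 2 := by ring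
    linarith
  rw [E_add, E_add, E_add, E_smul, E_smul, E_smul, E_const hm hδ] at h1
  have hpow : ∀ x : ℝ, x ≤ bp m δ - 3 → Sk m δ k ^ x ≤ ra m δ k := fun x hx =>
    Real.rpow_le_rpow_of_exponent_le hS1 hx
  have e1 : m ^ 4 / Sk m δ k ^ 3 * E m δ k (Fs δ A k) ≤ m ^ 4 * CF * ra m δ k := by
    have h2 := mul_le_mul_of_nonneg_left (hF k) (by positivity : 0 ≤ m ^ 4 / Sk m δ k ^ 3)
    have h3 : m ^ 4 / Sk m δ k ^ 3 * (CF * Sk m δ k ^ be m δ)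
        = m ^ 4 * CF * Sk m δ k ^ (be m δ - 3) := by
      have h4 : Sk m δ k ^ (be m δ - 3) = Sk m δ k ^ be m δ / Sk m δ k ^ 3 := by
        rw [Real.rpow_sub hS]
        norm_cast
      rw [h4]
      ring
    have h5 := mul_le_mul_of_nonneg_left (hpow (be m δ - 3) (by linarith))
      (by positivity : 0 ≤ m ^ 4 * CF)
    linarith
  have e2 : 2 * m ^ 4 / Sk m δ k ^ 4 * E m δ k (fun M => (Qs δ k M - qh m δ * Sk m δ k) ^ 2)
      ≤ m ^ 4 * (2 * CX) * ra m δ k := by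
    have h2 := mul_le_mul_of_nonneg_left (hX k) (by positivity : 0 ≤ 2 * m ^ 4 / Sk m δ k ^ 4)
    have h3 : 2 * m ^ 4 / Sk m δ k ^ 4 * (CX * Sk m δ k ^ be m δ)
        = m ^ 4 * (2 * CX) * Sk m δ k ^ (be m δ - 4) := by
      have h4 : Sk m δ k ^ (be m δ - 4) = Sk m δ k ^ be m δ / Sk m δ k ^ 4 := by
        rw [Real.rpow_sub hS]
        norm_cast
      rw [h4]
      ring
    have h5 := mul_le_mul_of_nonneg_left (hpow (be m δ - 4) (by linarith))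
      (by positivity : 0 ≤ m ^ 4 * (2 * CX))
    linarith
  have e3 : m ^ 4 / Sk m δ k ^ 2 * E m δ k (Ps δ k) ≤ m ^ 4 * CP * ra m δ k := by
    have h2 := mul_le_mul_of_nonneg_left (hP k) (by positivity : 0 ≤ m ^ 4 / Sk m δ k ^ 3)
    have h3 : m ^ 4 / Sk m δ k ^ 3 * (Sk m δ k * E m δ k (Ps δ k))
        = m ^ 4 / Sk m δ k ^ 2 * E m δ k (Ps δ k) := by
      field_simp
    have h4 : m ^ 4 / Sk m δ k ^ 3 * (CP * Sk m δ k ^ bp m δ) = m ^ 4 * CP * ra m δ k := by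
      have h4 : ra m δ k = Sk m δ k ^ bp m δ / Sk m δ k ^ 3 := by
        unfold ra
        rw [Real.rpow_sub hS]
        norm_cast
      rw [h4]
      ring
    linarith
  have e4 : 2 * m ^ 4 * qh m δ ^ 2 / Sk m δ k ^ 2 ≤ m ^ 4 * (2 * qh m δ ^ 2) * ra m δ k := by
    have h3 : 2 * m ^ 4 * qh m δ ^ 2 / Sk m δ k ^ 2
        = m ^ 4 * (2 * qh m δ ^ 2) * Sk m δ k ^ (-2 : ℝ) := by
      have h4 : Sk m δ k ^ (-2 : ℝ) = (Sk m δ k ^ 2)⁻¹ := by
        rw [Real.rpow_neg hS.le]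
        norm_cast
      rw [h4]
      ring
    have h5 := mul_le_mul_of_nonneg_left (hpow (-2) (by linarith))
      (by positivity : 0 ≤ m ^ 4 * (2 * qh m δ ^ 2))
    linarith
  have h9 : m ^ 4 * (CF + (2 * CX + 2 * qh m δ ^ 2) + CP) * ra m δ k
      = m ^ 4 * CF * ra m δ k + m ^ 4 * (2 * CX) * ra m δ k + m ^ 4 * CP * ra m δ k
        + m ^ 4 * (2 * qh m δ ^ 2) * ra m δ k := by ring
  rw [h9]
  linarith

theorem bounded_rec {a z : ℕ → ℝ} (ha : ∀ k, 0 ≤ a k) (hs : Summable a) {C : ℝ} (hC : 0 ≤ C)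
    (hz : ∀ k, 0 ≤ z k) (h : ∀ k, z (k + 1) ≤ (1 + a k) * z k + C * a k) :
    ∃ B : ℝ, 0 < B ∧ ∀ k, z k ≤ B := by
  have key : ∀ k, z k + C ≤ Real.exp (∑ i ∈ range k, a i) * (z 0 + C) := by
    intro k
    induction k with
    | zero => simp
    | succ k ih =>
      have h1 : z (k + 1) + C ≤ (1 + a k) * (z k + C) := by
        have := h k
        linarith
      have h2 : 1 + a k ≤ Real.exp (a k) := by
        rw [add_comm]
        exact Real.add_one_le_exp _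
      rw [Finset.sum_range_succ, Real.exp_add]
      calc z (k + 1) + C ≤ (1 + a k) * (z k + C) := h1
        _ ≤ Real.exp (a k) * (Real.exp (∑ i ∈ range k, a i) * (z 0 + C)) :=
          mul_le_mul h2 ih (by linarith [hz k]) (Real.exp_pos _).le
        _ = _ := by ring
  refine ⟨Real.exp (∑' i, a i) * (z 0 + C) + 1, by
    have := hz 0
    positivity, fun k => ?_⟩
  have h3 : ∑ i ∈ range k, a i ≤ ∑' i, a i := hs.sum_le_tsum _ fun i _ => ha i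
  have h4 := mul_le_mul_of_nonneg_right (Real.exp_le_exp.2 h3) (by linarith [hz 0] : 0 ≤ z 0 + C)
  linarith [key k]

theorem dist_bound (hm : 2 ≤ m) (hδ : 0 < δ) :
    ∃ B : ℝ, 0 < B ∧ ∀ k,
      Ec m δ (pk m δ) k (fun M b => ((tri (k + 2) M : ℝ) - b) ^ 2) ≤ B := by
  obtain ⟨C1, hC1, h1⟩ := er_mean hm hδ
  obtain ⟨C2, hC2, h2⟩ := ze_mean hm hδ
  have hp0 : ∀ k, 0 ≤ pk m δ k := fun k => (pk_pos hm hδ k).le
  have hp1 : ∀ k, pk m δ k ≤ 1 := fun k => by linarith [pk_le_half hm hδ k]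
  refine bounded_rec (a := ra m δ) (fun k => (ra_pos hm hδ k).le) (ra_summable hm hδ)
    (C := 2 * C1 + 4 * C2 + 1) (by positivity) (fun k => ?_) (fun k => ?_)
  · have h3 := Ec_mono (m := m) (δ := δ) hm hδ hp0 hp1 k (F := fun _ _ => (0 : ℝ))
      (G := fun M b => ((tri (k + 2) M : ℝ) - b) ^ 2) (fun M _ b => sq_nonneg _)
    have h4 : Ec m δ (pk m δ) k (fun _ _ => (0 : ℝ)) = 0 := by
      rw [Ec_left hm hδ hp0 hp1 k (fun _ => (0 : ℝ)), E_const hm hδ]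
    linarith
  · have hr := ra_pos hm hδ k
    rw [show k + 1 + 2 = k + 2 + 1 by ring]
    have h3 : Ec m δ (pk m δ) (k + 1) (fun M b => ((tri (k + 2 + 1) M : ℝ) - b) ^ 2)
        ≤ Ec m δ (pk m δ) k (fun M b => (1 + ra m δ k) * ((tri (k + 2) M : ℝ) - b) ^ 2
          + (2 / ra m δ k * er m δ (pk m δ) k M ^ 2 + (4 * ze m δ k M + ra m δ k))) := by
      rw [Ec]
      refine Ec_mono hm hδ hp0 hp1 k fun M hM b => ?_
      refine (Cst_sq hm hδ hp0 hp1 hM b).trans ?_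
      set Z := (tri (k + 2) M : ℝ) - b
      set e := er m δ (pk m δ) k M
      set r := ra m δ k
      have h4 : 2 * Z * e ≤ r * Z ^ 2 + e ^ 2 / r := by
        have h5 : 0 ≤ (r * Z - e) ^ 2 / r := by positivity
        have h6 : (r * Z - e) ^ 2 / r = r * Z ^ 2 + e ^ 2 / r - 2 * Z * e := by
          field_simp
          ring
        linarith
      have h7 : |e| ≤ r + e ^ 2 / r := by
        have h5 : 0 ≤ (r - |e|) ^ 2 / r := by positivity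
        have h6 : (r - |e|) ^ 2 / r = r + |e| ^ 2 / r - 2 * |e| := by
          field_simp
          ring
        rw [sq_abs] at h6
        have := abs_nonneg e
        linarith
      have h8 : 2 / r * e ^ 2 = e ^ 2 / r + e ^ 2 / r := by ring
      rw [h8]
      linarith
    refine h3.trans ?_
    rw [Ec_add, Ec_smul]
    have h9 : Ec m δ (pk m δ) k (fun M (b : ℝ) => 2 / ra m δ k * er m δ (pk m δ) k M ^ 2
          + (4 * ze m δ k M + ra m δ k))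
        = 2 / ra m δ k * E m δ k (fun M => er m δ (pk m δ) k M ^ 2)
          + (4 * E m δ k (ze m δ k) + ra m δ k) := by
      rw [Ec_left hm hδ hp0 hp1 k (fun M => 2 / ra m δ k * er m δ (pk m δ) k M ^ 2
          + (4 * ze m δ k M + ra m δ k)), E_add, E_add, E_smul, E_smul, E_const hm hδ]
    rw [h9]
    have h10 : 2 / ra m δ k * E m δ k (fun M => er m δ (pk m δ) k M ^ 2)
        ≤ 2 * C1 * ra m δ k := by
      have h11 := mul_le_mul_of_nonneg_left (h1 k) (by positivity : 0 ≤ 2 / ra m δ k)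
      have h12 : 2 / ra m δ k * (C1 * ra m δ k ^ 2) = 2 * C1 * ra m δ k := by
        field_simp
      linarith
    have h13 := h2 k
    have h14 : (2 * C1 + 4 * C2 + 1) * ra m δ k
        = 2 * C1 * ra m δ k + 4 * (C2 * ra m δ k) + ra m δ k := by ring
    rw [h14]
    linarith

end Pool.Agent.H90.PA
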