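import Pool.Agent.H90.PA.Clt

/-!
Assembly: the Wasserstein bound for the triangle count.
-/

namespace Pool.Agent.H90.PA

open Finset MeasureTheory

variable {m : ℕ} {δ : ℝ}

theorem vr_lower (hm : 2 ≤ m) (hδ : 0 < δ) :
    ∃ c : ℝ, 0 < c ∧ ∀ k : ℕ, 1 ≤ k → c * Real.log ((k : ℝ) + 2) ≤ vr (pk m δ) k := by
  have hm2 : (2 : ℝ) ≤ m := by exact_mod_cast hm
  obtain ⟨g, hg⟩ : ∃ g, g = ka m * qh m δ := ⟨_, rfl⟩
  have hg0 : 0 < g := by
    rw [hg]
    exact mul_pos (ka_pos hm) (qh_pos hm hδ)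
  have hL : 0 < 2 * (m : ℝ) + 2 * δ + 2 * g := by linarith
  refine ⟨g / (2 * m + 2 * δ + 2 * g) / 4, by positivity, fun k hk => ?_⟩
  have h1 : ∀ i : ℕ, g / (2 * m + 2 * δ + 2 * g) / 2 * ((i : ℝ) + 1)⁻¹
      ≤ pk m δ i * (1 - pk m δ i) := fun i => by
    have h2 := pk_le_half hm hδ i
    have h3 := pk_pos hm hδ i
    have h4 : g / (2 * m + 2 * δ + 2 * g) * ((i : ℝ) + 1)⁻¹ ≤ pk m δ i := by
      unfold pk
      rw [← hg, ← div_eq_mul_inv, div_div]
      have hi : (0 : ℝ) ≤ i := Nat.cast_nonneg i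
      refine div_le_div_of_nonneg_left hg0.le (by linarith [Sk_ge m hm hδ i]) ?_
      unfold Sk
      nlinarith [mul_nonneg hi hδ.le, mul_nonneg hi hg0.le]
    nlinarith
  have h5 : Real.log ((k : ℝ) + 1) ≤ ∑ i ∈ range k, ((i : ℝ) + 1)⁻¹ := by
    have h6 := log_add_one_le_harmonic k
    rw [harmonic] at h6
    push_cast at h6
    exact h6
  have h7 : vr (pk m δ) k
      ≥ g / (2 * m + 2 * δ + 2 * g) / 2 * ∑ i ∈ range k, ((i : ℝ) + 1)⁻¹ := by
    unfold vr
    rw [Finset.mul_sum]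
    exact Finset.sum_le_sum fun i _ => h1 i
  have h8 : Real.log ((k : ℝ) + 2) ≤ 2 * Real.log ((k : ℝ) + 1) := by
    have hk1 : (1 : ℝ) ≤ k := by exact_mod_cast hk
    have : 2 * Real.log ((k : ℝ) + 1) = Real.log (((k : ℝ) + 1) ^ 2) := by
      rw [Real.log_pow]
      norm_num
    rw [this]
    refine Real.log_le_log (by linarith) ?_
    nlinarith
  have h9 : 0 ≤ g / (2 * m + 2 * δ + 2 * g) := by positivity
  have h10 := mul_le_mul_of_nonneg_left h5 (by positivity : 0 ≤ g / (2 * m + 2 * δ + 2 * g) / 2)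
  have h11 := mul_le_mul_of_nonneg_left h8 (by positivity : 0 ≤ g / (2 * m + 2 * δ + 2 * g) / 4)
  linarith

/-- The main comparison at a fixed time. -/
theorem main_fixed (hm : 2 ≤ m) (hδ : 0 < δ) {B : ℝ} (hB : 0 < B)
    (hdist : ∀ k, Ec m δ (pk m δ) k (fun M b => ((tri (k + 2) M : ℝ) - b) ^ 2) ≤ B) (k : ℕ)
    (hbig : 4 * B ≤ vr (pk m δ) k) :
    0 < E m δ k (fun M => ((tri (k + 2) M : ℝ) - E m δ k (fun M => (tri (k + 2) M : ℝ))) ^ 2) ∧
    ∀ h : ℝ → ℝ, LipschitzWith 1 h →
      |E m δ k (fun M => h (((tri (k + 2) M : ℝ) - E m δ k (fun M => (tri (k + 2) M : ℝ)))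
          / Real.sqrt (E m δ k
            (fun M => ((tri (k + 2) M : ℝ) - E m δ k (fun M => (tri (k + 2) M : ℝ))) ^ 2))))
        - ∫ x, h x ∂(ProbabilityTheory.gaussianReal 0 1)|
      ≤ (4 * Real.sqrt B + 7) / Real.sqrt (vr (pk m δ) k) := by
  have hp0 : ∀ k, 0 ≤ pk m δ k := fun k => (pk_pos hm hδ k).le
  have hp1 : ∀ k, pk m δ k ≤ 1 := fun k => by linarith [pk_le_half hm hδ k]
  set μ := E m δ k (fun M => (tri (k + 2) M : ℝ)) with hμ
  set V := E m δ k (fun M => ((tri (k + 2) M : ℝ) - μ) ^ 2) with hV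
  set β := bt (pk m δ) k with hβ
  set v := vr (pk m δ) k with hv
  have hv0 : 0 < v := by linarith
  set s := Real.sqrt v with hs
  have hs0 : 0 < s := Real.sqrt_pos.2 hv0
  have hs2 : s ^ 2 = v := Real.sq_sqrt hv0.le
  set r := Real.sqrt B with hr
  have hr0 : 0 < r := Real.sqrt_pos.2 hB
  have hr2 : r ^ 2 = B := Real.sq_sqrt hB.le
  have eL : ∀ F : Gr → ℝ, Ec m δ (pk m δ) k (fun M _ => F M) = E m δ k F :=
    Ec_left hm hδ hp0 hp1 k
  have eR : ∀ g : ℝ → ℝ, Ec m δ (pk m δ) k (fun _ b => g b) = EB (pk m δ) k g :=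
    Ec_right hm hδ hp0 hp1 k
  have eC : ∀ a : ℝ, Ec m δ (pk m δ) k (fun _ _ => a) = a := fun a => by
    rw [eL (fun _ => a), E_const hm hδ]
  have eM := fun {F G : Gr → ℝ → ℝ} (h : ∀ M b, F M b ≤ G M b) =>
    Ec_mono (m := m) (δ := δ) hm hδ hp0 hp1 k (F := F) (G := G) fun M _ b => h M b
  -- moments
  have hY1 : Ec m δ (pk m δ) k (fun _ b => b - β) = 0 := by
    rw [eR (fun b => b - β)]
    exact EB_center hp0 hp1 k
  have hY2 : Ec m δ (pk m δ) k (fun _ b => (b - β) ^ 2) = v := by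
    rw [eR (fun b => (b - β) ^ 2)]
    exact EB_second hp0 hp1 k
  have hX1 : Ec m δ (pk m δ) k (fun M _ => (tri (k + 2) M : ℝ) - μ) = 0 := by
    rw [eL (fun M => (tri (k + 2) M : ℝ) - μ)]
    have : (fun M : Gr => (tri (k + 2) M : ℝ) - μ) = fun M => (tri (k + 2) M : ℝ) + (-μ) := by
      funext M
      ring
    rw [this, E_add, E_const hm hδ, ← hμ]
    ring
  have hX2 : Ec m δ (pk m δ) k (fun M _ => ((tri (k + 2) M : ℝ) - μ) ^ 2) = V := by
    rw [eL (fun M => ((tri (k + 2) M : ℝ) - μ) ^ 2)]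
  -- the distance
  have hD : Ec m δ (pk m δ) k
      (fun M b => (((tri (k + 2) M : ℝ) - μ) - (b - β)) ^ 2) ≤ B := by
    set c := μ - β with hc
    have h1 : Ec m δ (pk m δ) k (fun M b => (tri (k + 2) M : ℝ) - b) = c := by
      have : (fun (M : Gr) (b : ℝ) => (tri (k + 2) M : ℝ) - b)
          = fun M b => ((tri (k + 2) M : ℝ) - μ) + ((-1) * (b - β) + c) := by
        funext M b
        rw [hc]
        ring
      rw [this, Ec_add, Ec_add, Ec_smul, hX1, hY1, eC]
      ring
    have h2 : Ec m δ (pk m δ) k (fun M b => (((tri (k + 2) M : ℝ) - μ) - (b - β)) ^ 2)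
        = Ec m δ (pk m δ) k (fun M b => ((tri (k + 2) M : ℝ) - b) ^ 2) - c ^ 2 := by
      have : (fun (M : Gr) (b : ℝ) => (((tri (k + 2) M : ℝ) - μ) - (b - β)) ^ 2)
          = fun M b => ((tri (k + 2) M : ℝ) - b) ^ 2
            + ((-2 * c) * ((tri (k + 2) M : ℝ) - b) + c ^ 2) := by
        funext M b
        rw [hc]
        ring
      rw [this, Ec_add, Ec_add, Ec_smul, h1, eC]
      ring
    rw [h2]
    have := hdist k
    have := sq_nonneg c
    linarith
  have hVpos : 0 < V := by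
    have h1 := eM (F := fun _ b => (b - β) ^ 2)
      (G := fun M b => 2 * (((tri (k + 2) M : ℝ) - μ) - (b - β)) ^ 2
        + 2 * ((tri (k + 2) M : ℝ) - μ) ^ 2) (fun M b => by
        nlinarith [sq_nonneg (2 * ((tri (k + 2) M : ℝ) - μ) - (b - β))])
    rw [Ec_add, Ec_smul, Ec_smul, hY2, hX2] at h1
    linarith
  refine ⟨hVpos, fun h hh => ?_⟩
  set σ := Real.sqrt V with hσ
  have hσ0 : 0 < σ := Real.sqrt_pos.2 hVpos
  have hσ2 : σ ^ 2 = V := Real.sq_sqrt hVpos.le
  -- the product moment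
  have hclose : |s - σ| ≤ r := by
    set P := Ec m δ (pk m δ) k (fun M b => ((tri (k + 2) M : ℝ) - μ) * (b - β)) with hP
    have h1 : Ec m δ (pk m δ) k (fun M b => (((tri (k + 2) M : ℝ) - μ) - (b - β)) ^ 2)
        = V - 2 * P + v := by
      have : (fun (M : Gr) (b : ℝ) => (((tri (k + 2) M : ℝ) - μ) - (b - β)) ^ 2)
          = fun M b => ((tri (k + 2) M : ℝ) - μ) ^ 2
            + ((-2) * (((tri (k + 2) M : ℝ) - μ) * (b - β)) + (b - β) ^ 2) := by
        funext M b
        ring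
      rw [this, Ec_add, Ec_add, Ec_smul, hX2, hY2]
      ring
    have h2 : 0 ≤ s ^ 2 * V - 2 * (s * σ) * P + σ ^ 2 * v := by
      have h3 := eM (F := fun _ _ => (0 : ℝ))
        (G := fun M b => s ^ 2 * ((tri (k + 2) M : ℝ) - μ) ^ 2
          + ((-(2 * (s * σ))) * (((tri (k + 2) M : ℝ) - μ) * (b - β)) + σ ^ 2 * (b - β) ^ 2))
        (fun M b => by
          nlinarith [sq_nonneg (s * ((tri (k + 2) M : ℝ) - μ) - σ * (b - β))])
      rw [Ec_add, Ec_add, Ec_smul, Ec_smul, Ec_smul, hX2, hY2, eC] at h3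
      linarith
    have h4 : P ≤ s * σ := by
      have h5 : 0 < s * σ := mul_pos hs0 hσ0
      have h6 : 0 ≤ 2 * (s * σ) * (s * σ - P) := by
        rw [hσ2] at h2
        have : s ^ 2 * V = (s * σ) * (s * σ) := by
          rw [← hσ2]
          ring
        have h7 : V * v = (s * σ) * (s * σ) := by
          rw [← hσ2, ← hs2]
          ring
        nlinarith
      by_contra hcon
      push Not at hcon
      have : 2 * (s * σ) * (s * σ - P) < 0 := by
        have : s * σ - P < 0 := by linarith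
        nlinarith
      linarith
    have h5 : (s - σ) ^ 2 ≤ r ^ 2 := by
      rw [hr2]
      have : (s - σ) ^ 2 = v - 2 * (s * σ) + V := by
        rw [← hs2, ← hσ2]
        ring
      rw [this]
      linarith
    exact abs_le_of_sq_le_sq h5 hr0.le
  have hrs : r ≤ s / 2 := by
    have h1 : (2 * r) ^ 2 ≤ s ^ 2 := by
      rw [hs2, mul_pow, hr2]
      linarith
    have h2 := abs_le_of_sq_le_sq h1 hs0.le
    rw [abs_le] at h2
    linarith [h2.2]
  have hσs : s / 2 ≤ σ := by
    have := (abs_le.1 hclose).2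
    linarith
  -- first absolute moments
  have hA1 : Ec m δ (pk m δ) k (fun M b => |((tri (k + 2) M : ℝ) - μ) - (b - β)|) ≤ r := by
    have h1 := eM (F := fun M b => |((tri (k + 2) M : ℝ) - μ) - (b - β)|)
      (G := fun M b => (1 / (2 * r)) * (((tri (k + 2) M : ℝ) - μ) - (b - β)) ^ 2 + r / 2)
      (fun M b => by
        set x := ((tri (k + 2) M : ℝ) - μ) - (b - β)
        have h2 : 0 ≤ (|x| - r) ^ 2 / (2 * r) := by positivity
        have h3 : (|x| - r) ^ 2 / (2 * r) = 1 / (2 * r) * |x| ^ 2 + r / 2 - |x| := by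
          field_simp
          ring
        rw [sq_abs] at h3
        linarith)
    rw [Ec_add, Ec_smul, eC] at h1
    have h2 := mul_le_mul_of_nonneg_left hD (by positivity : 0 ≤ 1 / (2 * r))
    have h3 : 1 / (2 * r) * B = r / 2 := by
      rw [← hr2]
      field_simp
    linarith
  have hA2 : Ec m δ (pk m δ) k (fun _ b => |b - β|) ≤ s := by
    have h1 := eM (F := fun _ b => |b - β|)
      (G := fun _ b => (1 / (2 * s)) * (b - β) ^ 2 + s / 2)
      (fun M b => by
        set x := b - β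
        have h2 : 0 ≤ (|x| - s) ^ 2 / (2 * s) := by positivity
        have h3 : (|x| - s) ^ 2 / (2 * s) = 1 / (2 * s) * |x| ^ 2 + s / 2 - |x| := by
          field_simp
          ring
        rw [sq_abs] at h3
        linarith)
    rw [Ec_add, Ec_smul, eC, hY2] at h1
    have h3 : 1 / (2 * s) * v = s / 2 := by
      rw [← hs2]
      field_simp
    linarith
  -- comparison of the test function
  have hcomp : |E m δ k (fun M => h (((tri (k + 2) M : ℝ) - μ) / σ))
      - EB (pk m δ) k (fun b => h ((b - β) / s))| ≤ 4 * r / s := by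
    rw [← eL (fun M => h (((tri (k + 2) M : ℝ) - μ) / σ)), ← eR (fun b => h ((b - β) / s))]
    have hpt : ∀ (M : Gr) (b : ℝ),
        |h (((tri (k + 2) M : ℝ) - μ) / σ) - h ((b - β) / s)|
        ≤ (1 / σ) * |((tri (k + 2) M : ℝ) - μ) - (b - β)| + (r / (σ * s)) * |b - β| := by
      intro M b
      have h1 := hh.dist_le_mul (((tri (k + 2) M : ℝ) - μ) / σ) ((b - β) / s)
      rw [Real.dist_eq, Real.dist_eq] at h1
      simp only [NNReal.coe_one, one_mul] at h1
      refine h1.trans ?_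
      set X := (tri (k + 2) M : ℝ) - μ
      set Y := b - β
      have h2 : X / σ - Y / s = (1 / σ) * (X - Y) + ((s - σ) / (σ * s)) * Y := by
        field_simp
        ring
      rw [h2]
      refine (abs_add_le _ _).trans ?_
      rw [abs_mul, abs_mul, abs_of_pos (by positivity : 0 < 1 / σ), abs_div,
        abs_of_pos (by positivity : 0 < σ * s)]
      have h3 : |s - σ| / (σ * s) ≤ r / (σ * s) :=
        div_le_div_of_nonneg_right hclose (by positivity)
      have h4 := mul_le_mul_of_nonneg_right h3 (abs_nonneg Y)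
      linarith
    have hsum : Ec m δ (pk m δ) k (fun M b =>
          (1 / σ) * |((tri (k + 2) M : ℝ) - μ) - (b - β)| + (r / (σ * s)) * |b - β|)
        ≤ 4 * r / s := by
      rw [Ec_add, Ec_smul, Ec_smul]
      have h1 := mul_le_mul_of_nonneg_left hA1 (by positivity : 0 ≤ 1 / σ)
      have h2 := mul_le_mul_of_nonneg_left hA2 (by positivity : 0 ≤ r / (σ * s))
      have h3 : r / (σ * s) * s = r / σ := by field_simp
      have h4 : 1 / σ * r = r / σ := by ring
      have h5 : r / σ ≤ 2 * r / s := by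
        rw [div_le_div_iff₀ hσ0 hs0]
        nlinarith
      have h6 : 4 * r / s = 2 * r / s + 2 * r / s := by ring
      linarith
    rw [abs_le]
    constructor
    · have h1 := eM (F := fun _ b => h ((b - β) / s))
        (G := fun M b => h (((tri (k + 2) M : ℝ) - μ) / σ)
          + ((1 / σ) * |((tri (k + 2) M : ℝ) - μ) - (b - β)| + (r / (σ * s)) * |b - β|))
        (fun M b => by
          have := (abs_le.1 (hpt M b)).1
          linarith)
      rw [Ec_add] at h1
      linarith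
    · have h1 := eM (F := fun M _ => h (((tri (k + 2) M : ℝ) - μ) / σ))
        (G := fun M b => h ((b - β) / s)
          + ((1 / σ) * |((tri (k + 2) M : ℝ) - μ) - (b - β)| + (r / (σ * s)) * |b - β|))
        (fun M b => by
          have := (abs_le.1 (hpt M b)).2
          linarith)
      rw [Ec_add] at h1
      linarith
  have hclt := EB_clt hp0 hp1 k hs0 hs2 h hh
  rw [← hβ] at hclt
  have hfin : (4 * r + 7) / s = 4 * r / s + 7 / s := by ring
  rw [hfin]
  calc _ ≤ |E m δ k (fun M => h (((tri (k + 2) M : ℝ) - μ) / σ))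
        - EB (pk m δ) k (fun b => h ((b - β) / s))|
        + |EB (pk m δ) k (fun b => h ((b - β) / s))
          - ∫ x, h x ∂(ProbabilityTheory.gaussianReal 0 1)| := abs_sub_le _ _ _
    _ ≤ _ := add_le_add hcomp hclt

end Pool.Agent.H90.PA
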