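import Pool.Agent.H90.PA.Step

/-!
A discrete growth lemma in the clock `Sk`.
-/

namespace Pool.Agent.H90.PA

open Finset

variable {m : ℕ} {δ : ℝ}

theorem Sk_ge_lin (hδ : 0 < δ) (k : ℕ) : (k : ℝ) * δ ≤ Sk m δ k := by
  unfold Sk
  have h1 : (0 : ℝ) ≤ m := Nat.cast_nonneg m
  have h2 : (0 : ℝ) ≤ k := Nat.cast_nonneg k
  nlinarith [mul_nonneg h1 h2]

theorem Sk_large (hδ : 0 < δ) (c : ℝ) : ∃ k1 : ℕ, ∀ k ≥ k1, c ≤ Sk m δ k := by
  obtain ⟨k1, hk1⟩ := exists_nat_ge (c / δ)
  refine ⟨k1, fun k hk => ?_⟩
  have h1 : (k1 : ℝ) ≤ k := by exact_mod_cast hk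
  have h2 : c ≤ (k : ℝ) * δ := by
    rw [div_le_iff₀ hδ] at hk1
    nlinarith
  exact h2.trans (Sk_ge_lin hδ k)

theorem growth (hm : 2 ≤ m) (hδ : 0 < δ) {β α c C : ℝ} (hβ : 1 ≤ β) (hα0 : 0 ≤ α) (hα : α < β)
    (hC : 0 ≤ C) (u : ℕ → ℝ) (hu : ∀ k, 0 ≤ u k)
    (h : ∀ k, u (k + 1) ≤ (1 + α * (2 * m + δ) / Sk m δ k + c / Sk m δ k ^ 2) * u k
      + C * Sk m δ k ^ (β - 1)) :
    ∃ C' : ℝ, 0 ≤ C' ∧ ∀ k, u k ≤ C' * Sk m δ k ^ β := by
  set d : ℝ := 2 * m + δ with hd
  have hd0 : 0 < d := by
    have : (0 : ℝ) ≤ m := Nat.cast_nonneg m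
    rw [hd]
    linarith
  have hg : 0 < (β - α) * d / 2 := by
    have : 0 < β - α := by linarith
    positivity
  obtain ⟨k1, hk1⟩ := Sk_large (m := m) hδ (c / ((β - α) * d / 2))
  set C' : ℝ := C / ((β - α) * d / 2) + ∑ i ∈ range (k1 + 1), u i with hC'
  have hCa : 0 ≤ C / ((β - α) * d / 2) := by positivity
  have hCb : 0 ≤ ∑ i ∈ range (k1 + 1), u i := Finset.sum_nonneg fun i _ => hu i
  have hC0 : 0 ≤ C' := by
    rw [hC']
    linarith
  refine ⟨C', hC0, fun k => ?_⟩
  rcases le_or_gt k k1 with hk | hk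
  · have h1 : u k ≤ C' := by
      have := Finset.single_le_sum (f := u) (fun i _ => hu i)
        (mem_range.2 (by omega : k < k1 + 1))
      linarith
    have h2 : 1 ≤ Sk m δ k ^ β :=
      Real.one_le_rpow (by linarith [Sk_ge m hm hδ k]) (by linarith)
    nlinarith
  · have key : ∀ i, u (k1 + i) ≤ C' * Sk m δ (k1 + i) ^ β := by
      intro i
      induction i with
      | zero =>
        have h1 : u k1 ≤ C' := by
          have := Finset.single_le_sum (f := u) (fun i _ => hu i)
            (mem_range.2 (by omega : k1 < k1 + 1))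
          linarith
        have h2 : 1 ≤ Sk m δ k1 ^ β :=
          Real.one_le_rpow (by linarith [Sk_ge m hm hδ k1]) (by linarith)
        simp only [add_zero]
        nlinarith
      | succ i ih =>
        have hr := h (k1 + i)
        rw [← add_assoc, Sk_succ, ← hd]
        set S := Sk m δ (k1 + i) with hS
        have hS4 : 4 ≤ S := Sk_ge m hm hδ _
        have hS0 : 0 < S := by linarith
        have hSc : c / ((β - α) * d / 2) ≤ S := hk1 (k1 + i) (by omega)
        have h1 : c / S ^ 2 ≤ ((β - α) * d / 2) / S := by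
          rw [div_le_iff₀ hg] at hSc
          rw [div_le_div_iff₀ (by positivity) hS0]
          nlinarith
        have hSβ : 0 ≤ S ^ β := Real.rpow_nonneg hS0.le _
        have h3 : S ^ (β - 1) = S ^ β / S := Real.rpow_sub_one hS0.ne' β
        have h4 : C ≤ C' * ((β - α) * d / 2) := by
          have h5 : C = C / ((β - α) * d / 2) * ((β - α) * d / 2) := (div_mul_cancel₀ C hg.ne').symm
          calc C = C / ((β - α) * d / 2) * ((β - α) * d / 2) := h5
            _ ≤ C' * ((β - α) * d / 2) :=
              mul_le_mul_of_nonneg_right (by rw [hC']; linarith) hg.le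
        have h6 : (S + d) ^ β = S ^ β * (1 + d / S) ^ β := by
          rw [← Real.mul_rpow hS0.le (by positivity)]
          congr 1
          field_simp
        have h7 : 1 + β * (d / S) ≤ (1 + d / S) ^ β :=
          one_add_mul_self_le_rpow_one_add (by
            have : 0 ≤ d / S := by positivity
            linarith) hβ
        have hui := hu (k1 + i)
        calc u (k1 + i + 1) ≤ _ := hr
          _ = (1 + α * d / S + c / S ^ 2) * u (k1 + i) + C * S ^ (β - 1) := by rw [hd]
          _ ≤ C' * S ^ β + C' * ((α * d + (β - α) * d / 2) * (S ^ β / S))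
              + C * (S ^ β / S) := by
            rw [h3]
            have h8 : (1 + α * d / S + c / S ^ 2) * u (k1 + i)
                ≤ (1 + (α * d + (β - α) * d / 2) / S) * u (k1 + i) := by
              refine mul_le_mul_of_nonneg_right ?_ hui
              have : (α * d + (β - α) * d / 2) / S = α * d / S + ((β - α) * d / 2) / S := by ring
              rw [this]
              linarith
            have hneg : 0 ≤ 1 + (α * d + (β - α) * d / 2) / S := by
              have : 0 ≤ α * d := by positivity
              positivity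
            have h9 := mul_le_mul_of_nonneg_left ih hneg
            have h10 : (1 + (α * d + (β - α) * d / 2) / S) * (C' * S ^ β)
                = C' * S ^ β + C' * ((α * d + (β - α) * d / 2) * (S ^ β / S)) := by ring
            linarith
          _ ≤ C' * S ^ β + C' * (β * d * (S ^ β / S)) := by
            have h12 : 0 ≤ S ^ β / S := by positivity
            have h13 := mul_le_mul_of_nonneg_right h4 h12
            nlinarith
          _ = C' * (S ^ β * (1 + β * (d / S))) := by ring
          _ ≤ C' * (S ^ β * (1 + d / S) ^ β) :=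
            mul_le_mul_of_nonneg_left (mul_le_mul_of_nonneg_left h7 hSβ) hC0
          _ = C' * (S + d) ^ β := by rw [h6]
    have := key (k - k1)
    rwa [Nat.add_sub_cancel' hk.le] at this

end Pool.Agent.H90.PA
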