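import Pool.Agent.H90.PA.One2
import Pool.Agent.H90.PA.Growth

/-!
Second-moment estimates for the state functionals.
-/

namespace Pool.Agent.H90.PA

open Finset

variable {m : ℕ} {δ : ℝ}

theorem E_step_le (hm : 2 ≤ m) (hδ : 0 < δ) (k : ℕ) {F G : Gr → ℝ}
    (h : ∀ M, Inv m k M → Pst m δ k F M ≤ G M) : E m δ (k + 1) F ≤ E m δ k G := by
  rw [E_succ]
  exact E_mono hm hδ k h

theorem E_nonneg (hm : 2 ≤ m) (hδ : 0 < δ) (k : ℕ) {F : Gr → ℝ}
    (h : ∀ M, Inv m k M → 0 ≤ F M) : 0 ≤ E m δ k F := by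
  have h1 := E_mono hm hδ k (F := fun _ => (0 : ℝ)) (G := F) h
  rwa [E_const hm hδ] at h1

theorem Pst_sq (hm : 2 ≤ m) (hδ : 0 < δ) {k : ℕ} {M : Gr} (h : Inv m k M) (F : Gr → ℝ) (a : ℝ) :
    Pst m δ k (fun M' => F M' ^ 2) M
      = Pst m δ k (fun M' => (F M' - a) ^ 2) M + 2 * a * Pst m δ k F M - a ^ 2 := by
  have he := env hm hδ h
  unfold Pst
  have h1 : Mul (k + 2) (fun v => Dg δ k M v / Sk m δ k) m
        (fun N => F (att (k + 2) M N) ^ 2)
      = Mul (k + 2) (fun v => Dg δ k M v / Sk m δ k) m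
        (fun N => (F (att (k + 2) M N) - a) ^ 2 + ((2 * a) * F (att (k + 2) M N) + - a ^ 2)) :=
    Mul_congr (fun v _ => he.w0 v) m fun N _ => by ring
  rw [h1, Mul_add, Mul_add, Mul_smul, Mul_const he.w1]
  ring

theorem Pst_sub_const (hm : 2 ≤ m) (hδ : 0 < δ) {k : ℕ} {M : Gr} (h : Inv m k M) (F : Gr → ℝ)
    (a : ℝ) : Pst m δ k (fun M' => F M' - a) M = Pst m δ k F M - a := by
  have he := env hm hδ h
  unfold Pst
  have h1 : Mul (k + 2) (fun v => Dg δ k M v / Sk m δ k) m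
        (fun N => F (att (k + 2) M N) - a)
      = Mul (k + 2) (fun v => Dg δ k M v / Sk m δ k) m
        (fun N => F (att (k + 2) M N) + - a) :=
    Mul_congr (fun v _ => he.w0 v) m fun N _ => by ring
  rw [h1, Mul_add, Mul_const he.w1]
  ring

/-- Generic bound for the conditional second moment of a centred functional. -/
theorem Pst_drift (hm : 2 ≤ m) (hδ : 0 < δ) {k : ℕ} {M : Gr} (h : Inv m k M) (F : Gr → ℝ)
    (V s s' d a e v : ℝ) (hs : s' = s + d)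
    (hmean : Pst m δ k F M = (1 + a) * (V - s) + s' + e)
    (hvar : Pst m δ k (fun M' => (F M' - V) ^ 2) M ≤ v) :
    Pst m δ k (fun M' => (F M' - s') ^ 2) M
      ≤ (1 + 2 * a) * (V - s) ^ 2 + 2 * (V - s) * e + 2 * v + 2 * d ^ 2 := by
  have he := env hm hδ h
  have h1 := Pst_sq hm hδ h (fun M' => F M' - s') (V - s)
  have h2 := Pst_sub_const hm hδ h F s'
  have h3 : Pst m δ k (fun M' => (F M' - s' - (V - s)) ^ 2) M
      ≤ 2 * Pst m δ k (fun M' => (F M' - V) ^ 2) M + 2 * d ^ 2 := by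
    unfold Pst
    rw [← Mul_smul, ← Mul_const (n := k + 2) he.w1 m (2 * d ^ 2), ← Mul_add]
    refine Mul_mono (fun v _ => he.w0 v) m fun N _ => ?_
    beta_reduce
    rw [hs]
    nlinarith [sq_nonneg (F (att (k + 2) M N) - V + d)]
  rw [h1, h2, hmean]
  nlinarith

/-- The constant of `Rs`. -/
noncomputable def rh (m : ℕ) (δ : ℝ) : ℝ := (m + (m + δ) ^ 2) / δ

/-- The constant of `Qs`. -/
noncomputable def qh (m : ℕ) (δ : ℝ) : ℝ := 2 * m * (m + δ) * (1 + rh m δ) / δ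

/-- The common exponent. -/
noncomputable def be (m : ℕ) (δ : ℝ) : ℝ := (4 * m + δ) / (2 * m + δ)

theorem be_ge (hδ : 0 < δ) : 1 ≤ be m δ := by
  have : (0 : ℝ) ≤ m := Nat.cast_nonneg _
  unfold be
  rw [le_div_iff₀ (by linarith)]
  linarith

theorem Rs_mean (hm : 2 ≤ m) (hδ : 0 < δ) {k : ℕ} {M : Gr} (h : Inv m k M) :
    Pst m δ k (Rs δ (k + 1)) M
      = (1 + ak m δ k) * (Rs δ k M - rh m δ * Sk m δ k) + rh m δ * Sk m δ (k + 1)
        + rh m δ * (m * (m - 1)) / Sk m δ k := by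
  have hS : 0 < Sk m δ k := by linarith [Sk_ge m hm hδ k]
  rw [Pst_Rs hm hδ h, Sk_succ]
  have h1 : ak m δ k * Sk m δ k = 2 * m + m * (m - 1) / Sk m δ k := by
    unfold ak
    field_simp
  have h2 : rh m δ * δ = m + (m + δ) ^ 2 := by
    unfold rh
    field_simp
  have h3 : (1 + ak m δ k) * (Rs δ k M - rh m δ * Sk m δ k)
      = (1 + ak m δ k) * Rs δ k M - rh m δ * Sk m δ k - rh m δ * (ak m δ k * Sk m δ k) := by
    ring
  rw [h3, h1]
  have h4 : rh m δ * (2 * m + m * (m - 1) / Sk m δ k)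
      = 2 * m * rh m δ + rh m δ * (m * (m - 1)) / Sk m δ k := by ring
  rw [h4]
  linarith

/-- The coefficient of `Rs` in the mean of `Qs`. -/
noncomputable def bk (m : ℕ) (δ : ℝ) (k : ℕ) : ℝ :=
  2 * (m + δ) * (m / Sk m δ k + m * (m - 1) / Sk m δ k ^ 2)

theorem Qs_mean (hm : 2 ≤ m) (hδ : 0 < δ) {k : ℕ} {M : Gr} (h : Inv m k M) :
    Pst m δ k (Qs δ (k + 1)) M
      = (1 + ak m δ k) * (Qs δ k M - qh m δ * Sk m δ k) + qh m δ * Sk m δ (k + 1)
        + (bk m δ k * (Rs δ k M - rh m δ * Sk m δ k)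
          + (qh m δ + 2 * (m + δ) * rh m δ) * (m * (m - 1)) / Sk m δ k) := by
  have hS : 0 < Sk m δ k := by linarith [Sk_ge m hm hδ k]
  rw [Pst_Qs hm hδ h, Sk_succ]
  have h1 : ak m δ k * Sk m δ k = 2 * m + m * (m - 1) / Sk m δ k := by
    unfold ak
    field_simp
  have h1b : bk m δ k * Sk m δ k = 2 * (m + δ) * (m + m * (m - 1) / Sk m δ k) := by
    unfold bk
    field_simp
  have h2 : qh m δ * δ = 2 * m * (m + δ) * (1 + rh m δ) := by
    unfold qh
    field_simp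
  have h3 : (1 + ak m δ k) * (Qs δ k M - qh m δ * Sk m δ k)
      = (1 + ak m δ k) * Qs δ k M - qh m δ * Sk m δ k - qh m δ * (ak m δ k * Sk m δ k) := by
    ring
  have h5 : bk m δ k * (Rs δ k M - rh m δ * Sk m δ k)
      = bk m δ k * Rs δ k M - rh m δ * (bk m δ k * Sk m δ k) := by ring
  have h6 : bk m δ k * Rs δ k M = 2 * (m + δ) * (m * (Rs δ k M / Sk m δ k)
      + m * (m - 1) * (Rs δ k M / Sk m δ k ^ 2)) := by
    unfold bk
    ring
  rw [h3, h1, h5, h1b, h6]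
  have h4 : qh m δ * (2 * m + m * (m - 1) / Sk m δ k)
      = 2 * m * qh m δ + qh m δ * (m * (m - 1)) / Sk m δ k := by ring
  rw [h4]
  have h7 : (qh m δ + 2 * (m + δ) * rh m δ) * (m * (m - 1)) / Sk m δ k
      = qh m δ * (m * (m - 1)) / Sk m δ k
        + 2 * (m + δ) * rh m δ * (m * (m - 1) / Sk m δ k) := by ring
  rw [h7]
  linarith

theorem one_le_rpow_be (hm : 2 ≤ m) (hδ : 0 < δ) (k : ℕ) : 1 ≤ Sk m δ k ^ (be m δ - 1) :=
  Real.one_le_rpow (by linarith [Sk_ge m hm hδ k]) (by linarith [be_ge (m := m) hδ])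

theorem Fs_bound (hm : 2 ≤ m) (hδ : 0 < δ) {A : ℝ} (hA : GoodA m δ A) :
    ∃ C : ℝ, 0 ≤ C ∧ ∀ k, E m δ k (Fs δ A k) ≤ C * Sk m δ k ^ be m δ := by
  obtain ⟨c, C, hc, hC, h⟩ := Pst_Fs hm hδ hA
  have hm0 : (0 : ℝ) ≤ m := Nat.cast_nonneg _
  have hd : (0 : ℝ) < 2 * m + δ := by linarith
  refine growth hm hδ (α := 4 * m / (2 * m + δ)) (c := c) (C := C) (be_ge hδ) (by positivity)
    ?_ hC _ (fun k => E_nonneg hm hδ k fun M hM => Fs_nonneg hm hδ hM A) fun k => ?_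
  · unfold be
    exact div_lt_div_of_pos_right (by linarith) hd
  · have h1 : 4 * (m : ℝ) / (2 * m + δ) * (2 * m + δ) = 4 * m := by field_simp
    rw [h1]
    have h2 := E_step_le hm hδ k (F := Fs δ A (k + 1))
      (G := fun M => (1 + 4 * m / Sk m δ k + c / Sk m δ k ^ 2) * Fs δ A k M + C) (h k)
    rw [E_add, E_smul, E_const hm hδ] at h2
    have h3 := mul_le_mul_of_nonneg_left (one_le_rpow_be hm hδ k) hC
    linarith

theorem ysq_bound (hm : 2 ≤ m) (hδ : 0 < δ) {A : ℝ} (hA : GoodA m δ A) :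
    ∃ C : ℝ, 0 ≤ C ∧ ∀ k, E m δ k (fun M => (Rs δ k M - rh m δ * Sk m δ k) ^ 2)
      ≤ C * Sk m δ k ^ be m δ := by
  obtain ⟨CF, hCF, hF⟩ := Fs_bound hm hδ hA
  obtain ⟨Cv, hCv, hv⟩ := Pst_var hm hδ hA
  have hm0 : (0 : ℝ) ≤ m := Nat.cast_nonneg _
  have hm2 : (2 : ℝ) ≤ m := by exact_mod_cast hm
  have hd : (0 : ℝ) < 2 * m + δ := by linarith
  obtain ⟨c, hcdef⟩ : ∃ c, c = rh m δ * (m * (m - 1)) := ⟨_, rfl⟩
  refine growth hm hδ (α := (4 * m + δ / 2) / (2 * m + δ)) (c := 2 * (m * (m - 1)))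
    (C := 2 * c ^ 2 / δ + 2 * Cv * (CF + 1) + 2 * (rh m δ * (2 * m + δ)) ^ 2)
    (be_ge hδ) (by positivity) ?_ (by positivity) _
    (fun k => E_nonneg hm hδ k fun M hM => sq_nonneg _) fun k => ?_
  · unfold be
    exact div_lt_div_of_pos_right (by linarith) hd
  · have hS4 := Sk_ge m hm hδ k
    have hS : 0 < Sk m δ k := by linarith
    have h1 : (4 * (m : ℝ) + δ / 2) / (2 * m + δ) * (2 * m + δ) = 4 * m + δ / 2 := by field_simp
    rw [h1]
    have h2 : ∀ M, Inv m k M → Pst m δ k (fun M' => (Rs δ (k + 1) M'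
          - rh m δ * Sk m δ (k + 1)) ^ 2) M
        ≤ (1 + (4 * m + δ / 2) / Sk m δ k + 2 * (m * (m - 1)) / Sk m δ k ^ 2)
            * (Rs δ k M - rh m δ * Sk m δ k) ^ 2
          + ((2 * Cv / Sk m δ k) * Fs δ A k M
          + (2 * c ^ 2 / δ + 2 * Cv + 2 * (rh m δ * (2 * m + δ)) ^ 2)) := by
      intro M hM
      have h3 := Pst_drift hm hδ hM (Rs δ (k + 1)) (Rs δ k M) (rh m δ * Sk m δ k)
        (rh m δ * Sk m δ (k + 1)) (rh m δ * (2 * m + δ)) (ak m δ k)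
        (rh m δ * (m * (m - 1)) / Sk m δ k) (Cv * (Fs δ A k M / Sk m δ k + 1))
        (by rw [Sk_succ]; ring) (Rs_mean hm hδ hM) (hv k M hM).1
      refine h3.trans ?_
      rw [← hcdef]
      set Y := Rs δ k M - rh m δ * Sk m δ k with hY
      have h4 : 2 * Y * (c / Sk m δ k) ≤ (δ / 2) / Sk m δ k * Y ^ 2 + 2 * c ^ 2 / δ := by
        have h5 : 2 * Y * c ≤ δ / 2 * Y ^ 2 + 2 * c ^ 2 / δ := by
          have h6 : 0 ≤ (δ * Y - 2 * c) ^ 2 / (2 * δ) := by positivity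
          have h7 : (δ * Y - 2 * c) ^ 2 / (2 * δ) = δ / 2 * Y ^ 2 + 2 * c ^ 2 / δ - 2 * Y * c := by
            field_simp
            ring
          linarith
        have h8 : 2 * Y * (c / Sk m δ k) = (2 * Y * c) / Sk m δ k := by ring
        have h9 : (δ / 2 * Y ^ 2 + 2 * c ^ 2 / δ) / Sk m δ k
            = (δ / 2) / Sk m δ k * Y ^ 2 + (2 * c ^ 2 / δ) / Sk m δ k := by ring
        have h10 : (2 * c ^ 2 / δ) / Sk m δ k ≤ 2 * c ^ 2 / δ :=
          div_le_self (by positivity) (by linarith)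
        rw [h8]
        have h11 := div_le_div_of_nonneg_right h5 hS.le
        linarith
      have h12 : (1 + 2 * ak m δ k) * Y ^ 2 + (δ / 2) / Sk m δ k * Y ^ 2
          = (1 + (4 * m + δ / 2) / Sk m δ k + 2 * (m * (m - 1)) / Sk m δ k ^ 2) * Y ^ 2 := by
        unfold ak
        ring
      have h13 : 2 * (Cv * (Fs δ A k M / Sk m δ k + 1))
          = 2 * Cv / Sk m δ k * Fs δ A k M + 2 * Cv := by ring
      linarith
    have h14 := E_step_le hm hδ k h2
    rw [E_add, E_add, E_smul, E_smul, E_const hm hδ] at h14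
    have h15 : 2 * Cv / Sk m δ k * E m δ k (Fs δ A k)
        ≤ 2 * Cv * CF * Sk m δ k ^ (be m δ - 1) := by
      have h16 := mul_le_mul_of_nonneg_left (hF k) (by positivity : 0 ≤ 2 * Cv / Sk m δ k)
      rw [Real.rpow_sub_one hS.ne']
      calc _ ≤ _ := h16
        _ = _ := by ring
    have h17 := mul_le_mul_of_nonneg_left (one_le_rpow_be hm hδ k)
      (by positivity : 0 ≤ 2 * c ^ 2 / δ + 2 * Cv + 2 * (rh m δ * (2 * m + δ)) ^ 2)
    have h18 : (2 * c ^ 2 / δ + 2 * Cv * (CF + 1) + 2 * (rh m δ * (2 * m + δ)) ^ 2)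
          * Sk m δ k ^ (be m δ - 1)
        = (2 * c ^ 2 / δ + 2 * Cv + 2 * (rh m δ * (2 * m + δ)) ^ 2) * Sk m δ k ^ (be m δ - 1)
          + 2 * Cv * CF * Sk m δ k ^ (be m δ - 1) := by ring
    rw [h18]
    linarith

theorem xsq_bound (hm : 2 ≤ m) (hδ : 0 < δ) {A : ℝ} (hA : GoodA m δ A) :
    ∃ C : ℝ, 0 ≤ C ∧ ∀ k, E m δ k (fun M => (Qs δ k M - qh m δ * Sk m δ k) ^ 2)
      ≤ C * Sk m δ k ^ be m δ := by
  obtain ⟨CF, hCF, hF⟩ := Fs_bound hm hδ hA
  obtain ⟨CY, hCY, hYb⟩ := ysq_bound hm hδ hA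
  obtain ⟨Cv, hCv, hv⟩ := Pst_var hm hδ hA
  have hm0 : (0 : ℝ) ≤ m := Nat.cast_nonneg _
  have hm2 : (2 : ℝ) ≤ m := by exact_mod_cast hm
  have hd : (0 : ℝ) < 2 * m + δ := by linarith
  obtain ⟨c, hcdef⟩ : ∃ c, c = (qh m δ + 2 * (m + δ) * rh m δ) * (m * (m - 1)) := ⟨_, rfl⟩
  obtain ⟨b0, hb0def⟩ : ∃ b0, b0 = 2 * (m + δ) * (m : ℝ) ^ 2 := ⟨_, rfl⟩
  have hb0 : 0 ≤ b0 := by
    rw [hb0def]
    positivity
  refine growth hm hδ (α := (4 * m + δ / 2) / (2 * m + δ)) (c := 2 * (m * (m - 1)))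
    (C := 4 * c ^ 2 / δ + 2 * Cv + 2 * (qh m δ * (2 * m + δ)) ^ 2 + 2 * Cv * CF
      + 4 * b0 ^ 2 / δ * CY)
    (be_ge hδ) (by positivity) ?_ (by positivity) _
    (fun k => E_nonneg hm hδ k fun M hM => sq_nonneg _) fun k => ?_
  · unfold be
    exact div_lt_div_of_pos_right (by linarith) hd
  · have hS4 := Sk_ge m hm hδ k
    have hS : 0 < Sk m δ k := by linarith
    have h1 : (4 * (m : ℝ) + δ / 2) / (2 * m + δ) * (2 * m + δ) = 4 * m + δ / 2 := by field_simp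
    rw [h1]
    have hbk0 : 0 ≤ bk m δ k := by
      unfold bk
      have : 0 ≤ (m : ℝ) - 1 := by linarith
      positivity
    have hbk : bk m δ k ≤ b0 / Sk m δ k := by
      unfold bk
      rw [hb0def]
      have h3 : (m : ℝ) * (m - 1) / Sk m δ k ^ 2 ≤ m * (m - 1) / Sk m δ k := by
        have : 0 ≤ (m : ℝ) * (m - 1) := by
          have : 0 ≤ (m : ℝ) - 1 := by linarith
          positivity
        refine div_le_div_of_nonneg_left this hS ?_
        nlinarith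
      have h4 : (m : ℝ) / Sk m δ k + m * (m - 1) / Sk m δ k = m ^ 2 / Sk m δ k := by ring
      have h5 : (m : ℝ) / Sk m δ k + m * (m - 1) / Sk m δ k ^ 2 ≤ m ^ 2 / Sk m δ k := by linarith
      have h6 := mul_le_mul_of_nonneg_left h5 (by linarith : 0 ≤ 2 * ((m : ℝ) + δ))
      calc _ ≤ _ := h6
        _ = _ := by ring
    have h2 : ∀ M, Inv m k M → Pst m δ k (fun M' => (Qs δ (k + 1) M'
          - qh m δ * Sk m δ (k + 1)) ^ 2) M
        ≤ (1 + (4 * m + δ / 2) / Sk m δ k + 2 * (m * (m - 1)) / Sk m δ k ^ 2)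
            * (Qs δ k M - qh m δ * Sk m δ k) ^ 2
          + ((2 * Cv / Sk m δ k) * Fs δ A k M
          + ((4 * b0 ^ 2 / δ / Sk m δ k) * (Rs δ k M - rh m δ * Sk m δ k) ^ 2
          + (4 * c ^ 2 / δ + 2 * Cv + 2 * (qh m δ * (2 * m + δ)) ^ 2))) := by
      intro M hM
      have h3 := Pst_drift hm hδ hM (Qs δ (k + 1)) (Qs δ k M) (qh m δ * Sk m δ k)
        (qh m δ * Sk m δ (k + 1)) (qh m δ * (2 * m + δ)) (ak m δ k)
        (bk m δ k * (Rs δ k M - rh m δ * Sk m δ k)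
          + (qh m δ + 2 * (m + δ) * rh m δ) * (m * (m - 1)) / Sk m δ k)
        (Cv * (Fs δ A k M / Sk m δ k + 1))
        (by rw [Sk_succ]; ring) (Qs_mean hm hδ hM) (hv k M hM).2
      refine h3.trans ?_
      rw [← hcdef]
      set Y := Rs δ k M - rh m δ * Sk m δ k with hY
      set X := Qs δ k M - qh m δ * Sk m δ k with hX
      have hyoung : ∀ t : ℝ, 2 * X * t ≤ δ / 4 * X ^ 2 + 4 * t ^ 2 / δ := by
        intro t
        have h6 : 0 ≤ (δ * X - 4 * t) ^ 2 / (4 * δ) := by positivity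
        have h7 : (δ * X - 4 * t) ^ 2 / (4 * δ) = δ / 4 * X ^ 2 + 4 * t ^ 2 / δ - 2 * X * t := by
          field_simp
          ring
        linarith
      have h4 : 2 * X * (c / Sk m δ k) ≤ (δ / 4) / Sk m δ k * X ^ 2 + 4 * c ^ 2 / δ := by
        have h8 : 2 * X * (c / Sk m δ k) = (2 * X * c) / Sk m δ k := by ring
        have h9 : (δ / 4 * X ^ 2 + 4 * c ^ 2 / δ) / Sk m δ k
            = (δ / 4) / Sk m δ k * X ^ 2 + (4 * c ^ 2 / δ) / Sk m δ k := by ring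
        have h10 : (4 * c ^ 2 / δ) / Sk m δ k ≤ 4 * c ^ 2 / δ :=
          div_le_self (by positivity) (by linarith)
        rw [h8]
        have h11 := div_le_div_of_nonneg_right (hyoung c) hS.le
        linarith
      have h5 : 2 * X * (bk m δ k * Y)
          ≤ (δ / 4) / Sk m δ k * X ^ 2 + 4 * b0 ^ 2 / δ / Sk m δ k * Y ^ 2 := by
        have h6 : 2 * X * (bk m δ k * Y) ≤ b0 / Sk m δ k * (2 * |X| * |Y|) := by
          have h7 : 2 * X * (bk m δ k * Y) = bk m δ k * (2 * (X * Y)) := by ring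
          have h8 : X * Y ≤ |X| * |Y| := by
            rw [← abs_mul]
            exact le_abs_self _
          rw [h7]
          calc bk m δ k * (2 * (X * Y)) ≤ bk m δ k * (2 * (|X| * |Y|)) :=
                mul_le_mul_of_nonneg_left (by linarith) hbk0
            _ ≤ b0 / Sk m δ k * (2 * (|X| * |Y|)) :=
                mul_le_mul_of_nonneg_right hbk (by positivity)
            _ = _ := by ring
        have h9 : 2 * |X| * (b0 * |Y|) ≤ δ / 4 * X ^ 2 + 4 * (b0 * |Y|) ^ 2 / δ := by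
          have h6 : 0 ≤ (δ * |X| - 4 * (b0 * |Y|)) ^ 2 / (4 * δ) := by positivity
          have h7 : (δ * |X| - 4 * (b0 * |Y|)) ^ 2 / (4 * δ)
              = δ / 4 * |X| ^ 2 + 4 * (b0 * |Y|) ^ 2 / δ - 2 * |X| * (b0 * |Y|) := by
            field_simp
            ring
          rw [sq_abs] at h7
          linarith
        have h10 := div_le_div_of_nonneg_right h9 hS.le
        have h11 : (δ / 4 * X ^ 2 + 4 * (b0 * |Y|) ^ 2 / δ) / Sk m δ k
            = (δ / 4) / Sk m δ k * X ^ 2 + 4 * b0 ^ 2 / δ / Sk m δ k * Y ^ 2 := by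
          rw [mul_pow, sq_abs]
          ring
        have h12 : b0 / Sk m δ k * (2 * |X| * |Y|) = 2 * |X| * (b0 * |Y|) / Sk m δ k := by ring
        linarith
      have h12 : (1 + 2 * ak m δ k) * X ^ 2 + (δ / 2) / Sk m δ k * X ^ 2
          = (1 + (4 * m + δ / 2) / Sk m δ k + 2 * (m * (m - 1)) / Sk m δ k ^ 2) * X ^ 2 := by
        unfold ak
        ring
      have h13 : 2 * (Cv * (Fs δ A k M / Sk m δ k + 1))
          = 2 * Cv / Sk m δ k * Fs δ A k M + 2 * Cv := by ring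
      have h14 : 2 * X * (bk m δ k * Y + c / Sk m δ k)
          = 2 * X * (bk m δ k * Y) + 2 * X * (c / Sk m δ k) := by ring
      have h15 : (δ / 2) / Sk m δ k * X ^ 2
          = (δ / 4) / Sk m δ k * X ^ 2 + (δ / 4) / Sk m δ k * X ^ 2 := by ring
      linarith
    have h14 := E_step_le hm hδ k h2
    rw [E_add, E_add, E_add, E_smul, E_smul, E_smul, E_const hm hδ] at h14
    have h15 : 2 * Cv / Sk m δ k * E m δ k (Fs δ A k)
        ≤ 2 * Cv * CF * Sk m δ k ^ (be m δ - 1) := by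
      have h16 := mul_le_mul_of_nonneg_left (hF k) (by positivity : 0 ≤ 2 * Cv / Sk m δ k)
      rw [Real.rpow_sub_one hS.ne']
      calc _ ≤ _ := h16
        _ = _ := by ring
    have h15b : 4 * b0 ^ 2 / δ / Sk m δ k
          * E m δ k (fun M => (Rs δ k M - rh m δ * Sk m δ k) ^ 2)
        ≤ 4 * b0 ^ 2 / δ * CY * Sk m δ k ^ (be m δ - 1) := by
      have h16 := mul_le_mul_of_nonneg_left (hYb k)
        (by positivity : 0 ≤ 4 * b0 ^ 2 / δ / Sk m δ k)
      rw [Real.rpow_sub_one hS.ne']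
      calc _ ≤ _ := h16
        _ = _ := by ring
    have h17 := mul_le_mul_of_nonneg_left (one_le_rpow_be hm hδ k)
      (by positivity : 0 ≤ 4 * c ^ 2 / δ + 2 * Cv + 2 * (qh m δ * (2 * m + δ)) ^ 2)
    have h18 : (4 * c ^ 2 / δ + 2 * Cv + 2 * (qh m δ * (2 * m + δ)) ^ 2 + 2 * Cv * CF
          + 4 * b0 ^ 2 / δ * CY) * Sk m δ k ^ (be m δ - 1)
        = (4 * c ^ 2 / δ + 2 * Cv + 2 * (qh m δ * (2 * m + δ)) ^ 2) * Sk m δ k ^ (be m δ - 1)
          + 2 * Cv * CF * Sk m δ k ^ (be m δ - 1)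
          + 4 * b0 ^ 2 / δ * CY * Sk m δ k ^ (be m δ - 1) := by ring
    rw [h18]
    linarith

/-- The exponent for multiple edges. -/
noncomputable def bp (m : ℕ) (δ : ℝ) : ℝ := (4 * m + 3 / 2 * δ) / (2 * m + δ)

theorem be_le_bp (hδ : 0 < δ) : be m δ ≤ bp m δ := by
  have : (0 : ℝ) ≤ m := Nat.cast_nonneg _
  unfold be bp
  exact div_le_div_of_nonneg_right (by linarith) (by linarith)

theorem bp_lt (hδ : 0 < δ) : bp m δ < 2 := by
  have : (0 : ℝ) ≤ m := Nat.cast_nonneg _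
  unfold bp
  rw [div_lt_iff₀ (by linarith)]
  linarith

theorem Ps_bound (hm : 2 ≤ m) (hδ : 0 < δ) {A : ℝ} (hA : GoodA m δ A) :
    ∃ C : ℝ, 0 ≤ C ∧ ∀ k, Sk m δ k * E m δ k (Ps δ k) ≤ C * Sk m δ k ^ bp m δ := by
  obtain ⟨CF, hCF, hF⟩ := Fs_bound hm hδ hA
  have hm0 : (0 : ℝ) ≤ m := Nat.cast_nonneg _
  have hm2 : (2 : ℝ) ≤ m := by exact_mod_cast hm
  have hd : (0 : ℝ) < 2 * m + δ := by linarith
  have hbp1 : 1 ≤ bp m δ := (be_ge hδ).trans (be_le_bp hδ)
  obtain ⟨Cp, hCp⟩ : ∃ Cp, Cp = 2 * (m + δ) * (1 + m / δ) * (m : ℝ) ^ 2 := ⟨_, rfl⟩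
  have hCp0 : 0 ≤ Cp := by
    rw [hCp]
    positivity
  refine growth hm hδ (α := (4 * m + δ) / (2 * m + δ))
    (c := m * (m - 1) + 2 * m * (2 * m + δ) + (2 * m + δ) * (m * (m - 1)))
    (C := (1 + (2 * m + δ)) * Cp * CF)
    hbp1 (by positivity) ?_ (by positivity) _
    (fun k => mul_nonneg (by linarith [Sk_ge m hm hδ k])
      (E_nonneg hm hδ k fun M hM => Ps_nonneg hm hδ hM)) fun k => ?_
  · unfold bp
    exact div_lt_div_of_pos_right (by linarith) hd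
  · have hS4 := Sk_ge m hm hδ k
    have hS : 0 < Sk m δ k := by linarith
    have h1 : (4 * (m : ℝ) + δ) / (2 * m + δ) * (2 * m + δ) = 4 * m + δ := by field_simp
    rw [h1]
    have hA1 := hA.h1
    have h2 := E_step_le hm hδ k (F := Ps δ (k + 1))
      (G := fun M => (1 + ak m δ k) * Ps δ k M + (Cp / Sk m δ k ^ 2) * Fs δ A k M)
      (fun M hM => (Pst_Ps hm hδ hM hA1).trans (le_of_eq (by rw [hCp]; ring)))
    rw [E_add, E_smul, E_smul] at h2
    have hP0 : 0 ≤ E m δ k (Ps δ k) := E_nonneg hm hδ k fun M hM => Ps_nonneg hm hδ hM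
    have h3 := mul_le_mul_of_nonneg_left h2 (by linarith : 0 ≤ Sk m δ k + (2 * m + δ))
    rw [Sk_succ]
    refine h3.trans ?_
    have h4 : (Sk m δ k + (2 * m + δ)) * ((1 + ak m δ k) * E m δ k (Ps δ k))
        ≤ (1 + (4 * m + δ) / Sk m δ k
          + (m * (m - 1) + 2 * m * (2 * m + δ) + (2 * m + δ) * (m * (m - 1))) / Sk m δ k ^ 2)
          * (Sk m δ k * E m δ k (Ps δ k)) := by
      have h5 : (Sk m δ k + (2 * m + δ)) * ((1 + ak m δ k) * E m δ k (Ps δ k))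
          = (1 + (4 * m + δ) / Sk m δ k
            + (m * (m - 1) + 2 * m * (2 * m + δ)) / Sk m δ k ^ 2
            + (2 * m + δ) * (m * (m - 1)) / Sk m δ k ^ 3) * (Sk m δ k * E m δ k (Ps δ k)) := by
        unfold ak
        field_simp
        ring
      rw [h5]
      refine mul_le_mul_of_nonneg_right ?_ (by positivity)
      have h6 : (2 * (m : ℝ) + δ) * (m * (m - 1)) / Sk m δ k ^ 3
          ≤ (2 * m + δ) * (m * (m - 1)) / Sk m δ k ^ 2 := by
        have h7 : 0 ≤ (2 * (m : ℝ) + δ) * (m * (m - 1)) := by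
          have : 0 ≤ (m : ℝ) - 1 := by linarith
          positivity
        refine div_le_div_of_nonneg_left h7 (by positivity) ?_
        exact pow_le_pow_right₀ (by linarith) (by norm_num)
      have h8 : (m * (m - 1) + 2 * m * (2 * m + δ) + (2 * m + δ) * (m * (m - 1))) / Sk m δ k ^ 2
          = (m * (m - 1) + 2 * m * (2 * m + δ)) / Sk m δ k ^ 2
            + (2 * m + δ) * (m * (m - 1)) / Sk m δ k ^ 2 := by ring
      rw [h8]
      linarith
    have h9 : (Sk m δ k + (2 * m + δ)) * (Cp / Sk m δ k ^ 2 * E m δ k (Fs δ A k))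
        ≤ (1 + (2 * m + δ)) * Cp * CF * Sk m δ k ^ (bp m δ - 1) := by
      have h10 : Sk m δ k + (2 * m + δ) ≤ (1 + (2 * m + δ)) * Sk m δ k := by nlinarith
      have h11 : 0 ≤ Cp / Sk m δ k ^ 2 * E m δ k (Fs δ A k) :=
        mul_nonneg (by positivity) (E_nonneg hm hδ k fun M hM => Fs_nonneg hm hδ hM A)
      have h12 := mul_le_mul_of_nonneg_right h10 h11
      have h13 := mul_le_mul_of_nonneg_left (hF k) (by positivity : 0 ≤ Cp / Sk m δ k ^ 2)
      have h14 := mul_le_mul_of_nonneg_left h13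
        (by positivity : 0 ≤ (1 + (2 * m + δ)) * Sk m δ k)
      have h15 : (1 + (2 * m + δ)) * Sk m δ k * (Cp / Sk m δ k ^ 2
            * (CF * Sk m δ k ^ be m δ))
          = (1 + (2 * m + δ)) * Cp * CF * Sk m δ k ^ (be m δ - 1) := by
        rw [Real.rpow_sub_one hS.ne']
        field_simp
      have h16 : Sk m δ k ^ (be m δ - 1) ≤ Sk m δ k ^ (bp m δ - 1) :=
        Real.rpow_le_rpow_of_exponent_le (by linarith) (by linarith [be_le_bp (m := m) hδ])
      have h17 := mul_le_mul_of_nonneg_left h16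
        (by positivity : 0 ≤ (1 + (2 * m + δ)) * Cp * CF)
      linarith
    linarith

end Pool.Agent.H90.PA
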