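import Pool.Agent.H90.PA.Step

/-!
Exact moments of functions of the multinomial counts.
-/

namespace Pool.Agent.H90.PA

open Finset

variable {n : ℕ} {w : ℕ → ℝ}

/-- A linear function of the counts. -/
noncomputable def lin (n : ℕ) (a : ℕ → ℝ) (N : ℕ → ℕ) : ℝ := ∑ v ∈ range n, a v * N v

theorem lin_shift (a : ℕ → ℝ) (N : ℕ → ℕ) {v : ℕ} (hv : v ∈ range n) :
    lin n a (fun u => N u + if u = v then 1 else 0) = lin n a N + a v := by
  unfold lin
  have : ∀ u ∈ range n, a u * ((N u + if u = v then 1 else 0 : ℕ) : ℝ)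
      = a u * N u + if u = v then a u else 0 := fun u _ => by
    push_cast
    split_ifs <;> ring
  rw [Finset.sum_congr rfl this, Finset.sum_add_distrib, Finset.sum_ite_eq', if_pos hv]

/-- One-draw rule: if the conditional increment has mean `g N`, then so it goes. -/
theorem Mul_step (hw : ∀ v ∈ range n, 0 ≤ w v) (hs : ∑ v ∈ range n, w v = 1) (j : ℕ)
    (F g : (ℕ → ℕ) → ℝ) (inc : (ℕ → ℕ) → ℕ → ℝ)
    (h : ∀ N, ∀ v ∈ range n, F (fun u => N u + if u = v then 1 else 0) = F N + inc N v)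
    (hg : ∀ N, Cnt n j N → ∑ v ∈ range n, w v * inc N v = g N) :
    Mul n w (j + 1) F = Mul n w j F + Mul n w j g := by
  rw [Mul, ← Mul_add]
  refine Mul_congr hw j fun N hN => ?_
  rw [← hg N hN]
  have : ∀ v ∈ range n, w v * F (fun u => N u + if u = v then 1 else 0)
      = w v * F N + w v * inc N v := fun v hv => by
    rw [h N v hv]
    ring
  rw [Finset.sum_congr rfl this, Finset.sum_add_distrib, ← Finset.sum_mul, hs, one_mul]

theorem Mul_lin (hw : ∀ v ∈ range n, 0 ≤ w v) (hs : ∑ v ∈ range n, w v = 1) (j : ℕ) (a : ℕ → ℝ) :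
    Mul n w j (lin n a) = j * ∑ v ∈ range n, w v * a v := by
  induction j with
  | zero => simp [Mul, lin]
  | succ j ih =>
    rw [Mul_step hw hs j (lin n a) (fun _ => ∑ v ∈ range n, w v * a v) (fun _ v => a v)
      (fun N v hv => lin_shift a N hv) (fun N _ => rfl), ih, Mul_const hs]
    push_cast
    ring

/-- Shifting a quadratic form at one vertex. -/
theorem quad_shift (G : ℕ → ℕ → ℝ) (hG : ∀ u v, G u v = G v u) (hd : ∀ u, G u u = 0)
    (x : ℕ → ℝ) {v : ℕ} (hv : v ∈ range n) :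
    ∑ a ∈ range n, ∑ b ∈ range n,
        (x a + if a = v then 1 else 0) * (x b + if b = v then 1 else 0) * G a b
      = ∑ a ∈ range n, ∑ b ∈ range n, x a * x b * G a b + 2 * ∑ a ∈ range n, x a * G a v := by
  have h1 : ∀ a ∈ range n, ∑ b ∈ range n,
        (x a + if a = v then 1 else 0) * (x b + if b = v then 1 else 0) * G a b
      = ∑ b ∈ range n, x a * x b * G a b + x a * G a v
        + (if a = v then ∑ b ∈ range n, x b * G a b else 0) := fun a _ => by
    by_cases ha : a = v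
    · rw [if_pos ha, if_pos ha]
      have : ∀ b ∈ range n, (x a + 1) * (x b + if b = v then 1 else 0) * G a b
          = x a * x b * G a b + x b * G a b + (if b = v then (x a + 1) * G a b else 0) :=
        fun b _ => by split_ifs <;> ring
      rw [Finset.sum_congr rfl this, Finset.sum_add_distrib, Finset.sum_add_distrib,
        Finset.sum_ite_eq', if_pos hv, ha, hd]
      ring
    · rw [if_neg ha, if_neg ha]
      have : ∀ b ∈ range n, (x a + 0) * (x b + if b = v then 1 else 0) * G a b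
          = x a * x b * G a b + (if b = v then x a * G a b else 0) :=
        fun b _ => by split_ifs <;> ring
      rw [Finset.sum_congr rfl this, Finset.sum_add_distrib, Finset.sum_ite_eq', if_pos hv]
      ring
  rw [Finset.sum_congr rfl h1, Finset.sum_add_distrib, Finset.sum_add_distrib,
    Finset.sum_ite_eq', if_pos hv]
  have h2 : ∑ b ∈ range n, x b * G v b = ∑ a ∈ range n, x a * G a v :=
    Finset.sum_congr rfl fun b _ => by rw [hG v b]
  rw [h2]
  ring

/-- The quadratic form with `D + N`. -/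
noncomputable def QQ (n : ℕ) (D : ℕ → ℝ) (G : ℕ → ℕ → ℝ) (N : ℕ → ℕ) : ℝ :=
  ∑ u ∈ range n, ∑ v ∈ range n, (D u + N u) * (D v + N v) * G u v

theorem QQ_shift (D : ℕ → ℝ) (G : ℕ → ℕ → ℝ) (hG : ∀ u v, G u v = G v u) (hd : ∀ u, G u u = 0)
    (N : ℕ → ℕ) {v : ℕ} (hv : v ∈ range n) :
    QQ n D G (fun u => N u + if u = v then 1 else 0)
      = QQ n D G N + 2 * ∑ u ∈ range n, (D u + N u) * G u v := by
  unfold QQ
  rw [← quad_shift G hG hd (fun u => D u + N u) hv]
  refine Finset.sum_congr rfl fun a _ => Finset.sum_congr rfl fun b _ => ?_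
  push_cast
  ring

/-- `∑ u, v D u D v G u v`. -/
noncomputable def Q0 (n : ℕ) (D : ℕ → ℝ) (G : ℕ → ℕ → ℝ) : ℝ :=
  ∑ u ∈ range n, ∑ v ∈ range n, D u * D v * G u v

theorem sum_w_G (D : ℕ → ℝ) (G : ℕ → ℕ → ℝ) (S : ℝ) (hw : ∀ v, w v = D v / S) (N : ℕ → ℕ) :
    ∑ v ∈ range n, w v * (2 * ∑ u ∈ range n, (D u + N u) * G u v)
      = 2 * (Q0 n D G / S) + 2 * lin n (fun u => ∑ v ∈ range n, w v * G u v) N := by
  have h1 : ∀ v ∈ range n, w v * (2 * ∑ u ∈ range n, (D u + N u) * G u v)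
      = ∑ u ∈ range n, (2 * (D u * D v * G u v / S) + 2 * (w v * G u v * N u)) := fun v _ => by
    rw [Finset.mul_sum, Finset.mul_sum]
    refine Finset.sum_congr rfl fun u _ => ?_
    rw [hw v]
    ring
  rw [Finset.sum_congr rfl h1, Finset.sum_comm]
  unfold Q0 lin
  rw [Finset.sum_div, Finset.mul_sum, Finset.mul_sum, ← Finset.sum_add_distrib]
  refine Finset.sum_congr rfl fun u _ => ?_
  rw [Finset.sum_add_distrib, Finset.sum_div, Finset.mul_sum, Finset.sum_mul, Finset.mul_sum]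

theorem sum_w_lin (D : ℕ → ℝ) (G : ℕ → ℕ → ℝ) (S : ℝ) (hw : ∀ v, w v = D v / S) :
    ∑ u ∈ range n, w u * ∑ v ∈ range n, w v * G u v = Q0 n D G / S ^ 2 := by
  unfold Q0
  rw [Finset.sum_div]
  refine Finset.sum_congr rfl fun u _ => ?_
  rw [Finset.mul_sum, Finset.sum_div]
  refine Finset.sum_congr rfl fun v _ => ?_
  rw [hw u, hw v]
  by_cases hS : S = 0
  · simp [hS]
  · field_simp

theorem Mul_QQ (D : ℕ → ℝ) (G : ℕ → ℕ → ℝ) (hG : ∀ u v, G u v = G v u) (hd : ∀ u, G u u = 0)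
    (S : ℝ) (hwD : ∀ v, w v = D v / S) (hw : ∀ v ∈ range n, 0 ≤ w v)
    (hs : ∑ v ∈ range n, w v = 1) (j : ℕ) :
    Mul n w j (QQ n D G) = Q0 n D G * (1 + 2 * j / S + j * (j - 1) / S ^ 2) := by
  induction j with
  | zero => simp [Mul, QQ, Q0]
  | succ j ih =>
    rw [Mul_step hw hs j (QQ n D G)
      (fun N => 2 * (Q0 n D G / S) + 2 * lin n (fun u => ∑ v ∈ range n, w v * G u v) N)
      (fun N v => 2 * ∑ u ∈ range n, (D u + N u) * G u v)
      (fun N v hv => QQ_shift D G hG hd N hv) (fun N _ => sum_w_G D G S hwD N), ih,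
      Mul_add, Mul_const hs, Mul_smul, Mul_lin hw hs, sum_w_lin D G S hwD]
    push_cast
    ring

/-- `∑ (D + N)^2`. -/
noncomputable def RR (n : ℕ) (D : ℕ → ℝ) (N : ℕ → ℕ) : ℝ := ∑ u ∈ range n, (D u + N u) ^ 2

theorem sum_shift (f : ℕ → ℝ → ℝ) (N : ℕ → ℕ) {v : ℕ} (hv : v ∈ range n) :
    ∑ u ∈ range n, f u ((N u + if u = v then 1 else 0 : ℕ) : ℝ)
      = ∑ u ∈ range n, f u (N u) + (f v (N v + 1) - f v (N v)) := by
  have : ∀ u ∈ range n, f u ((N u + if u = v then 1 else 0 : ℕ) : ℝ)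
      = f u (N u) + if u = v then f u (N u + 1) - f u (N u) else 0 := fun u _ => by
    push_cast
    split_ifs
    · ring
    · rw [add_zero, add_zero]
  rw [Finset.sum_congr rfl this, Finset.sum_add_distrib, Finset.sum_ite_eq', if_pos hv]

theorem RR_shift (D : ℕ → ℝ) (N : ℕ → ℕ) {v : ℕ} (hv : v ∈ range n) :
    RR n D (fun u => N u + if u = v then 1 else 0) = RR n D N + (2 * (D v + N v) + 1) := by
  unfold RR
  rw [sum_shift (fun u x => (D u + x) ^ 2) N hv]
  ring

theorem sum_w_sq (D : ℕ → ℝ) (S : ℝ) (hw : ∀ v, w v = D v / S) :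
    ∑ v ∈ range n, w v * w v = (∑ v ∈ range n, D v ^ 2) / S ^ 2 := by
  rw [Finset.sum_div]
  refine Finset.sum_congr rfl fun u _ => ?_
  rw [hw u, div_mul_div_comm]
  ring

theorem sum_w_D (D : ℕ → ℝ) (S : ℝ) (hw : ∀ v, w v = D v / S) :
    ∑ v ∈ range n, w v * D v = (∑ v ∈ range n, D v ^ 2) / S := by
  rw [Finset.sum_div]
  refine Finset.sum_congr rfl fun u _ => ?_
  rw [hw u]
  ring

theorem Mul_RR (D : ℕ → ℝ) (S : ℝ) (hwD : ∀ v, w v = D v / S) (hw : ∀ v ∈ range n, 0 ≤ w v)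
    (hs : ∑ v ∈ range n, w v = 1) (j : ℕ) :
    Mul n w j (RR n D)
      = (∑ v ∈ range n, D v ^ 2) * (1 + 2 * j / S + j * (j - 1) / S ^ 2) + j := by
  induction j with
  | zero => simp [Mul, RR]
  | succ j ih =>
    rw [Mul_step hw hs j (RR n D)
      (fun N => (2 * ((∑ v ∈ range n, D v ^ 2) / S) + 1) + 2 * lin n w N)
      (fun N v => 2 * (D v + N v) + 1)
      (fun N v hv => RR_shift D N hv) (fun N _ => ?_), ih,
      Mul_add, Mul_const hs, Mul_smul, Mul_lin hw hs, sum_w_sq D S hwD]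
    · push_cast
      ring
    · rw [← sum_w_D D S hwD]
      unfold lin
      have : ∀ v ∈ range n, w v * (2 * (D v + N v) + 1)
          = 2 * (w v * D v) + w v + 2 * (w v * N v) := fun v _ => by ring
      rw [Finset.sum_congr rfl this, Finset.sum_add_distrib, Finset.sum_add_distrib, hs,
        ← Finset.mul_sum, ← Finset.mul_sum]

/-- `∑ N (D + N)`. -/
noncomputable def KK (n : ℕ) (D : ℕ → ℝ) (N : ℕ → ℕ) : ℝ := ∑ u ∈ range n, (N u : ℝ) * (D u + N u)

theorem KK_shift (D : ℕ → ℝ) (N : ℕ → ℕ) {v : ℕ} (hv : v ∈ range n) :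
    KK n D (fun u => N u + if u = v then 1 else 0) = KK n D N + (D v + 2 * N v + 1) := by
  unfold KK
  rw [sum_shift (fun u x => x * (D u + x)) N hv]
  ring

theorem Mul_KK (D : ℕ → ℝ) (S : ℝ) (hwD : ∀ v, w v = D v / S) (hw : ∀ v ∈ range n, 0 ≤ w v)
    (hs : ∑ v ∈ range n, w v = 1) (j : ℕ) :
    Mul n w j (KK n D)
      = j * ((∑ v ∈ range n, D v ^ 2) / S + 1)
        + j * (j - 1) * ((∑ v ∈ range n, D v ^ 2) / S ^ 2) := by
  induction j with
  | zero => simp [Mul, KK]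
  | succ j ih =>
    rw [Mul_step hw hs j (KK n D)
      (fun N => ((∑ v ∈ range n, D v ^ 2) / S + 1) + 2 * lin n w N)
      (fun N v => D v + 2 * N v + 1)
      (fun N v hv => KK_shift D N hv) (fun N _ => ?_), ih,
      Mul_add, Mul_const hs, Mul_smul, Mul_lin hw hs, sum_w_sq D S hwD]
    · push_cast
      ring
    · rw [← sum_w_D D S hwD]
      unfold lin
      have : ∀ v ∈ range n, w v * (D v + 2 * N v + 1)
          = (w v * D v) + w v + 2 * (w v * N v) := fun v _ => by ring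
      rw [Finset.sum_congr rfl this, Finset.sum_add_distrib, Finset.sum_add_distrib, hs,
        ← Finset.mul_sum]

/-- `∑ D N (N - 1)`. -/
noncomputable def K2 (n : ℕ) (D : ℕ → ℝ) (N : ℕ → ℕ) : ℝ :=
  ∑ u ∈ range n, D u * ((N u : ℝ) * (N u - 1))

theorem K2_shift (D : ℕ → ℝ) (N : ℕ → ℕ) {v : ℕ} (hv : v ∈ range n) :
    K2 n D (fun u => N u + if u = v then 1 else 0) = K2 n D N + 2 * (D v * N v) := by
  unfold K2
  rw [sum_shift (fun u x => D u * (x * (x - 1))) N hv]
  ring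

theorem Mul_K2 (D : ℕ → ℝ) (S : ℝ) (hwD : ∀ v, w v = D v / S) (hw : ∀ v ∈ range n, 0 ≤ w v)
    (hs : ∑ v ∈ range n, w v = 1) (j : ℕ) :
    Mul n w j (K2 n D) = j * (j - 1) * ((∑ v ∈ range n, D v ^ 3) / S ^ 2) := by
  induction j with
  | zero => simp [Mul, K2]
  | succ j ih =>
    rw [Mul_step hw hs j (K2 n D) (fun N => 2 * lin n (fun v => w v * D v) N)
      (fun N v => 2 * (D v * N v))
      (fun N v hv => K2_shift D N hv) (fun N _ => ?_), ih, Mul_smul, Mul_lin hw hs]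
    · have : ∑ v ∈ range n, w v * (w v * D v) = (∑ v ∈ range n, D v ^ 3) / S ^ 2 := by
        rw [Finset.sum_div]
        refine Finset.sum_congr rfl fun v _ => ?_
        rw [hwD v]
        by_cases hS : S = 0
        · simp [hS]
        · field_simp
      rw [this]
      push_cast
      ring
    · unfold lin
      rw [Finset.mul_sum]
      exact Finset.sum_congr rfl fun v _ => by ring

section Delta

variable (M : ℕ → ℕ → ℝ)

/-- `∑ N N M / 2` with a real matrix. -/
noncomputable def De (n : ℕ) (M : ℕ → ℕ → ℝ) (N : ℕ → ℕ) : ℝ :=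
  (∑ u ∈ range n, ∑ v ∈ range n, (N u : ℝ) * N v * M u v) / 2

/-- `∑_u N_u M_uv`. -/
noncomputable def xx (n : ℕ) (M : ℕ → ℕ → ℝ) (v : ℕ) (N : ℕ → ℕ) : ℝ :=
  ∑ u ∈ range n, (N u : ℝ) * M u v

theorem De_shift (hG : ∀ u v, M u v = M v u) (hd : ∀ u, M u u = 0) (N : ℕ → ℕ) {v : ℕ}
    (hv : v ∈ range n) :
    De n M (fun u => N u + if u = v then 1 else 0) = De n M N + xx n M v N := by
  unfold De xx
  have h := quad_shift M hG hd (fun u => (N u : ℝ)) hv
  have h2 : ∑ a ∈ range n, ∑ b ∈ range n,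
        ((N a + if a = v then 1 else 0 : ℕ) : ℝ) * ((N b + if b = v then 1 else 0 : ℕ) : ℝ) * M a b
      = ∑ a ∈ range n, ∑ b ∈ range n, ((N a : ℝ) + if a = v then 1 else 0)
        * ((N b : ℝ) + if b = v then 1 else 0) * M a b := by
    refine Finset.sum_congr rfl fun a _ => Finset.sum_congr rfl fun b _ => ?_
    push_cast
    ring
  rw [h2, h]
  ring

theorem xx_shift (u : ℕ) (N : ℕ → ℕ) {v : ℕ} (hv : v ∈ range n) :
    xx n M u (fun u => N u + if u = v then 1 else 0) = xx n M u N + M v u := by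
  unfold xx
  rw [sum_shift (fun a x => x * M a u) N hv]
  ring

end Delta

end Pool.Agent.H90.PA
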