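import Pool.Agent.H90.PA.Phi

/-!
One-step formulas for the state functionals.
-/

namespace Pool.Agent.H90.PA

open Finset

variable {m : ℕ} {δ : ℝ}

/-- The real matrix of multiplicities. -/
def Mr (M : Gr) (u v : ℕ) : ℝ := (M u v : ℝ)

/-- The real matrix `M (M - 1)`. -/
def M2r (M : Gr) (u v : ℕ) : ℝ := (M u v : ℝ) * ((M u v : ℝ) - 1)

theorem env (hm : 2 ≤ m) (hδ : 0 < δ) {k : ℕ} {M : Gr} (h : Inv m k M) :
    Env (k + 2) m (Dg δ k M) (Mr M) (Sk m δ k) where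
  D0 := fun v => hδ.le.trans (Dg_ge k M v)
  DS := Dg_sum h
  S4 := Sk_ge m hm hδ k
  mS := Sk_ge_m m hδ k
  Mn := fun u v => Nat.cast_nonneg _
  Mm := fun u v => Nat.cast_le.2 (h.le u v)
  symm := fun u v => by
    unfold Mr
    rw [h.symm]
  diag := fun u => by
    unfold Mr
    rw [h.diag]
    simp

theorem M2r_symm {k : ℕ} {M : Gr} (h : Inv m k M) (u v : ℕ) : M2r M u v = M2r M v u := by
  unfold M2r
  rw [h.symm]

theorem M2r_diag {k : ℕ} {M : Gr} (h : Inv m k M) (u : ℕ) : M2r M u u = 0 := by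
  unfold M2r
  rw [h.diag]
  simp

theorem M2r_nonneg (M : Gr) (u v : ℕ) : 0 ≤ M2r M u v := by
  unfold M2r
  rcases Nat.eq_zero_or_pos (M u v) with h | h
  · rw [h]
    simp
  · have : (1 : ℝ) ≤ (M u v : ℝ) := by exact_mod_cast h
    nlinarith

/-- Sum of squares of the weights. -/
noncomputable def Rs (δ : ℝ) (k : ℕ) (M : Gr) : ℝ := ∑ v ∈ range (k + 2), Dg δ k M v ^ 2

/-- Quadratic functional of the edges. -/
noncomputable def Qs (δ : ℝ) (k : ℕ) (M : Gr) : ℝ := Q0 (k + 2) (Dg δ k M) (Mr M)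

/-- Quadratic functional of the multiple edges. -/
noncomputable def Ps (δ : ℝ) (k : ℕ) (M : Gr) : ℝ := Q0 (k + 2) (Dg δ k M) (M2r M)

/-- The cubic potential. -/
noncomputable def Fs (δ A : ℝ) (k : ℕ) (M : Gr) : ℝ :=
  ∑ u ∈ range (k + 2), Dg δ k M u
    * (∑ v ∈ range (k + 2), Mr M u v * Dg δ k M v + A * Dg δ k M u) ^ 2

theorem Fs_eq (δ A ρ : ℝ) (k : ℕ) (M : Gr) :
    Fs δ A k M = PHI (k + 2) (Dg δ k M) (Mr M) A ρ (fun _ => 0) := by
  unfold Fs PHI XX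
  simp

theorem Rs_att {k : ℕ} {M : Gr} {N : ℕ → ℕ} (hN : Cnt (k + 2) m N) :
    Rs δ (k + 1) (att (k + 2) M N) = RR (k + 2) (Dg δ k M) N + (m + δ) ^ 2 := by
  unfold Rs RR
  rw [show k + 1 + 2 = k + 2 + 1 by ring, Finset.sum_range_succ, Dg_att_new hN]
  congr 1
  exact Finset.sum_congr rfl fun v hv => by rw [Dg_att_old (mem_range.1 hv)]

theorem Q_att {k : ℕ} {M : Gr} {N : ℕ → ℕ} (hN : Cnt (k + 2) m N) (g : ℕ → ℝ) (g0 : g 0 = 0) :
    Q0 (k + 1 + 2) (Dg δ (k + 1) (att (k + 2) M N)) (fun u v => g (att (k + 2) M N u v))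
      = QQ (k + 2) (Dg δ k M) (fun u v => g (M u v)) N
        + 2 * (m + δ) * ∑ v ∈ range (k + 2), (Dg δ k M v + N v) * g (N v) := by
  unfold Q0 QQ
  rw [show k + 1 + 2 = k + 2 + 1 by ring, Finset.sum_range_succ, Dg_att_new hN]
  have h1 : ∑ v ∈ range (k + 2 + 1), (m + δ) * Dg δ (k + 1) (att (k + 2) M N) v
        * g (att (k + 2) M N (k + 2) v)
      = (m + δ) * ∑ v ∈ range (k + 2), (Dg δ k M v + N v) * g (N v) := by
    rw [Finset.sum_range_succ, att_new_left, hN.1 _ le_rfl, g0, mul_zero, add_zero,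
      Finset.mul_sum]
    refine Finset.sum_congr rfl fun v hv => ?_
    rw [Dg_att_old (mem_range.1 hv), att_new_left]
    ring
  have h2 : ∑ u ∈ range (k + 2), ∑ v ∈ range (k + 2 + 1),
        Dg δ (k + 1) (att (k + 2) M N) u * Dg δ (k + 1) (att (k + 2) M N) v
          * g (att (k + 2) M N u v)
      = ∑ u ∈ range (k + 2), (∑ v ∈ range (k + 2),
          (Dg δ k M u + N u) * (Dg δ k M v + N v) * g (M u v)
          + (m + δ) * ((Dg δ k M u + N u) * g (N u))) := by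
    refine Finset.sum_congr rfl fun u hu => ?_
    rw [Finset.sum_range_succ, Dg_att_new hN, att_new_right (mem_range.1 hu),
      Dg_att_old (mem_range.1 hu)]
    congr 1
    · refine Finset.sum_congr rfl fun v hv => ?_
      rw [Dg_att_old (mem_range.1 hv), att_old (mem_range.1 hu) (mem_range.1 hv)]
    · ring
  rw [h1, h2, Finset.sum_add_distrib, ← Finset.mul_sum]
  ring

theorem Qs_att {k : ℕ} {M : Gr} {N : ℕ → ℕ} (hN : Cnt (k + 2) m N) :
    Qs δ (k + 1) (att (k + 2) M N)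
      = QQ (k + 2) (Dg δ k M) (Mr M) N + 2 * (m + δ) * KK (k + 2) (Dg δ k M) N := by
  have h := Q_att (δ := δ) (M := M) hN (fun x => (x : ℝ)) (by simp)
  unfold Qs Mr
  refine h.trans ?_
  unfold KK
  congr 2
  exact Finset.sum_congr rfl fun v _ => by ring

theorem Ps_att {k : ℕ} {M : Gr} {N : ℕ → ℕ} (hN : Cnt (k + 2) m N) :
    Ps δ (k + 1) (att (k + 2) M N)
      = QQ (k + 2) (Dg δ k M) (M2r M) N
        + 2 * (m + δ) * ∑ v ∈ range (k + 2), (Dg δ k M v + N v) * ((N v : ℝ) * ((N v : ℝ) - 1)) :=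
  Q_att (δ := δ) (M := M) hN (fun x => (x : ℝ) * ((x : ℝ) - 1)) (by simp)

theorem Fs_att {k : ℕ} {M : Gr} {N : ℕ → ℕ} (hN : Cnt (k + 2) m N) (A : ℝ) :
    Fs δ A (k + 1) (att (k + 2) M N)
      = PHI (k + 2) (Dg δ k M) (Mr M) A (m + δ + A) N
        + (m + δ) * (KK (k + 2) (Dg δ k M) N + A * (m + δ)) ^ 2 := by
  unfold Fs PHI XX
  rw [show k + 1 + 2 = k + 2 + 1 by ring, Finset.sum_range_succ, Dg_att_new hN]
  congr 1
  · refine Finset.sum_congr rfl fun u hu => ?_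
    rw [Finset.sum_range_succ, Dg_att_new hN, Dg_att_old (mem_range.1 hu)]
    congr 2
    have h1 : ∑ v ∈ range (k + 2), Mr (att (k + 2) M N) u v * Dg δ (k + 1) (att (k + 2) M N) v
        = ∑ v ∈ range (k + 2), Mr M u v * (Dg δ k M v + N v) := by
      refine Finset.sum_congr rfl fun v hv => ?_
      rw [Dg_att_old (mem_range.1 hv)]
      unfold Mr
      rw [att_old (mem_range.1 hu) (mem_range.1 hv)]
    have h2 : Mr (att (k + 2) M N) u (k + 2) = N u := by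
      unfold Mr
      rw [att_new_right (mem_range.1 hu)]
    rw [h1, h2]
    ring
  · congr 2
    rw [Finset.sum_range_succ]
    have h1 : Mr (att (k + 2) M N) (k + 2) (k + 2) = 0 := by
      unfold Mr
      rw [att_new_left, hN.1 _ le_rfl]
      simp
    rw [h1, zero_mul, add_zero]
    unfold KK
    congr 1
    refine Finset.sum_congr rfl fun v hv => ?_
    rw [Dg_att_old (mem_range.1 hv)]
    unfold Mr
    rw [att_new_left]

/-- The drift coefficient. -/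
noncomputable def ak (m : ℕ) (δ : ℝ) (k : ℕ) : ℝ :=
  2 * m / Sk m δ k + m * (m - 1) / Sk m δ k ^ 2

theorem Pst_Rs (hm : 2 ≤ m) (hδ : 0 < δ) {k : ℕ} {M : Gr} (h : Inv m k M) :
    Pst m δ k (Rs δ (k + 1)) M = (1 + ak m δ k) * Rs δ k M + (m + (m + δ) ^ 2) := by
  have he := env hm hδ h
  unfold Pst
  rw [Mul_congr (G := fun N => RR (k + 2) (Dg δ k M) N + (m + δ) ^ 2) (fun v _ => he.w0 v) m
    (fun N hN => Rs_att hN), Mul_add, Mul_const he.w1,
    Mul_RR (Dg δ k M) (Sk m δ k) (fun _ => rfl) (fun v _ => he.w0 v) he.w1]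
  unfold ak Rs
  ring

theorem Pst_Qs (hm : 2 ≤ m) (hδ : 0 < δ) {k : ℕ} {M : Gr} (h : Inv m k M) :
    Pst m δ k (Qs δ (k + 1)) M = (1 + ak m δ k) * Qs δ k M
      + 2 * (m + δ) * (m * (Rs δ k M / Sk m δ k + 1) + m * (m - 1) * (Rs δ k M / Sk m δ k ^ 2)) := by
  have he := env hm hδ h
  unfold Pst
  rw [Mul_congr (G := fun N => QQ (k + 2) (Dg δ k M) (Mr M) N
      + 2 * (m + δ) * KK (k + 2) (Dg δ k M) N) (fun v _ => he.w0 v) m
    (fun N hN => Qs_att hN), Mul_add, Mul_smul,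
    Mul_QQ (Dg δ k M) (Mr M) he.symm he.diag (Sk m δ k) (fun _ => rfl) (fun v _ => he.w0 v) he.w1,
    Mul_KK (Dg δ k M) (Sk m δ k) (fun _ => rfl) (fun v _ => he.w0 v) he.w1]
  unfold ak Rs Qs
  ring

theorem cube_le (hm : 2 ≤ m) (hδ : 0 < δ) {k : ℕ} {M : Gr} (h : Inv m k M) {A : ℝ} (hA : 0 ≤ A) :
    A ^ 2 * ∑ v ∈ range (k + 2), Dg δ k M v ^ 3 ≤ Fs δ A k M := by
  have he := env hm hδ h
  unfold Fs
  rw [Finset.mul_sum]
  refine Finset.sum_le_sum fun u _ => ?_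
  have h1 : 0 ≤ ∑ v ∈ range (k + 2), Mr M u v * Dg δ k M v :=
    Finset.sum_nonneg fun v _ => mul_nonneg (he.Mn u v) (he.D0 v)
  have h2 := he.D0 u
  have h3 : (A * Dg δ k M u) ^ 2
      ≤ (∑ v ∈ range (k + 2), Mr M u v * Dg δ k M v + A * Dg δ k M u) ^ 2 :=
    pow_le_pow_left₀ (mul_nonneg hA h2) (by linarith) 2
  have h4 := mul_le_mul_of_nonneg_left h3 h2
  calc A ^ 2 * Dg δ k M u ^ 3 = Dg δ k M u * (A * Dg δ k M u) ^ 2 := by ring
    _ ≤ _ := h4

theorem Fs_nonneg (hm : 2 ≤ m) (hδ : 0 < δ) {k : ℕ} {M : Gr} (h : Inv m k M) (A : ℝ) :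
    0 ≤ Fs δ A k M := by
  have he := env hm hδ h
  unfold Fs
  exact Finset.sum_nonneg fun u _ => mul_nonneg (he.D0 u) (sq_nonneg _)

theorem Ps_nonneg (hm : 2 ≤ m) (hδ : 0 < δ) {k : ℕ} {M : Gr} (h : Inv m k M) :
    0 ≤ Ps δ k M := by
  have he := env hm hδ h
  unfold Ps Q0
  exact Finset.sum_nonneg fun u _ => Finset.sum_nonneg fun v _ =>
    mul_nonneg (mul_nonneg (he.D0 u) (he.D0 v)) (M2r_nonneg M u v)

theorem Pst_Ps (hm : 2 ≤ m) (hδ : 0 < δ) {k : ℕ} {M : Gr} (h : Inv m k M) {A : ℝ} (hA : 1 ≤ A) :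
    Pst m δ k (Ps δ (k + 1)) M ≤ (1 + ak m δ k) * Ps δ k M
      + 2 * (m + δ) * (1 + m / δ) * m ^ 2 * (Fs δ A k M / Sk m δ k ^ 2) := by
  have he := env hm hδ h
  have hm0 : (0 : ℝ) ≤ m := Nat.cast_nonneg _
  have hS := he.S4
  unfold Pst
  have h1 : Mul (k + 2) (fun v => Dg δ k M v / Sk m δ k) m
        (fun N => Ps δ (k + 1) (att (k + 2) M N))
      ≤ Mul (k + 2) (fun v => Dg δ k M v / Sk m δ k) m
        (fun N => QQ (k + 2) (Dg δ k M) (M2r M) N
          + 2 * (m + δ) * (1 + m / δ) * K2 (k + 2) (Dg δ k M) N) := by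
    refine Mul_mono (fun v _ => he.w0 v) m fun N hN => ?_
    rw [Ps_att hN]
    have h2 : ∑ v ∈ range (k + 2), (Dg δ k M v + N v) * ((N v : ℝ) * ((N v : ℝ) - 1))
        ≤ (1 + m / δ) * K2 (k + 2) (Dg δ k M) N := by
      unfold K2
      rw [Finset.mul_sum]
      refine Finset.sum_le_sum fun v hv => ?_
      have h3 : 0 ≤ (N v : ℝ) * ((N v : ℝ) - 1) := by
        rcases Nat.eq_zero_or_pos (N v) with h | h
        · rw [h]
          simp
        · have : (1 : ℝ) ≤ (N v : ℝ) := by exact_mod_cast h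
          nlinarith
      have h4 : (N v : ℝ) ≤ m := by
        have : N v ≤ m := by
          rw [← hN.2]
          exact Finset.single_le_sum (f := N) (fun _ _ => Nat.zero_le _) hv
        exact_mod_cast this
      have h5 : δ ≤ Dg δ k M v := Dg_ge k M v
      have h6 : (m : ℝ) ≤ m / δ * Dg δ k M v := by
        rw [div_mul_eq_mul_div, le_div_iff₀ hδ]
        exact mul_le_mul_of_nonneg_left h5 hm0
      have h7 : Dg δ k M v + N v ≤ (1 + m / δ) * Dg δ k M v := by linarith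
      calc _ ≤ (1 + m / δ) * Dg δ k M v * ((N v : ℝ) * ((N v : ℝ) - 1)) :=
            mul_le_mul_of_nonneg_right h7 h3
        _ = _ := by ring
    have h8 : 0 ≤ 2 * (m + δ) := by linarith
    have h9 := mul_le_mul_of_nonneg_left h2 h8
    linarith
  refine h1.trans ?_
  rw [Mul_add, Mul_smul,
    Mul_QQ (Dg δ k M) (M2r M) (M2r_symm h) (M2r_diag h) (Sk m δ k) (fun _ => rfl)
      (fun v _ => he.w0 v) he.w1,
    Mul_K2 (Dg δ k M) (Sk m δ k) (fun _ => rfl) (fun v _ => he.w0 v) he.w1]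
  have h10 : ∑ v ∈ range (k + 2), Dg δ k M v ^ 3 ≤ Fs δ A k M := by
    have h11 := cube_le hm hδ h (by linarith : 0 ≤ A)
    have h12 : 0 ≤ ∑ v ∈ range (k + 2), Dg δ k M v ^ 3 :=
      Finset.sum_nonneg fun v _ => pow_nonneg (he.D0 v) 3
    exact (le_mul_of_one_le_left h12 (one_le_pow₀ hA)).trans h11
  have h13 : (m : ℝ) * (m - 1) * ((∑ v ∈ range (k + 2), Dg δ k M v ^ 3) / Sk m δ k ^ 2)
      ≤ m ^ 2 * (Fs δ A k M / Sk m δ k ^ 2) := by
    have h14 : (∑ v ∈ range (k + 2), Dg δ k M v ^ 3) / Sk m δ k ^ 2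
        ≤ Fs δ A k M / Sk m δ k ^ 2 := div_le_div_of_nonneg_right h10 (by positivity)
    have h15 : 0 ≤ (∑ v ∈ range (k + 2), Dg δ k M v ^ 3) / Sk m δ k ^ 2 :=
      div_nonneg (Finset.sum_nonneg fun v _ => pow_nonneg (he.D0 v) 3) (by positivity)
    nlinarith
  have h16 : 0 ≤ 2 * (m + δ) * (1 + m / δ) := by positivity
  have h17 := mul_le_mul_of_nonneg_left h13 h16
  have h18 : Q0 (k + 2) (Dg δ k M) (M2r M)
        * (1 + 2 * (m : ℝ) / Sk m δ k + m * (m - 1) / Sk m δ k ^ 2)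
      = (1 + ak m δ k) * Ps δ k M := by
    unfold ak Ps
    ring
  rw [h18]
  linarith

end Pool.Agent.H90.PA
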