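import Pool.Agent.H90.PA.One

/-!
One-step inequalities: the cubic potential, conditional variances, and the number of new
triangles.
-/

namespace Pool.Agent.H90.PA

open Finset

variable {m : ℕ} {δ : ℝ}

theorem one_add_pow_le {x : ℝ} (hx : 0 ≤ x) (hx1 : x ≤ 1) (m : ℕ) :
    (1 + x) ^ m ≤ 1 + m * x + 4 ^ m * x ^ 2 := by
  induction m with
  | zero =>
    simp
    positivity
  | succ m ih =>
    have h1 := mul_le_mul_of_nonneg_right ih (by linarith : 0 ≤ 1 + x)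
    have h2 : (m : ℝ) ≤ 4 ^ m := by
      have : m < 4 ^ m := Nat.lt_pow_self (by norm_num)
      exact_mod_cast this.le
    have h3 : (1 : ℝ) ≤ 4 ^ m := one_le_pow₀ (by norm_num)
    have h4 : x ^ 3 ≤ x ^ 2 := pow_le_pow_of_le_one hx hx1 (by norm_num)
    have h5 := mul_le_mul_of_nonneg_left h4 (by positivity : (0 : ℝ) ≤ 4 ^ m)
    have h6 := mul_le_mul_of_nonneg_right h2 (sq_nonneg x)
    calc (1 + x) ^ (m + 1) = (1 + x) ^ m * (1 + x) := pow_succ _ _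
      _ ≤ _ := h1
      _ = 1 + (m + 1) * x + (m * x ^ 2 + 4 ^ m * x ^ 2 + 4 ^ m * x ^ 3) := by ring
      _ ≤ 1 + (m + 1) * x + (4 ^ (m + 1)) * x ^ 2 := by
        have : (4 : ℝ) ^ (m + 1) * x ^ 2 = 4 ^ m * x ^ 2 + 4 ^ m * x ^ 2 + 4 ^ m * x ^ 2
            + 4 ^ m * x ^ 2 := by ring
        have h7 : 0 ≤ (4 : ℝ) ^ m * x ^ 2 := by positivity
        linarith
      _ = _ := by push_cast; ring

theorem DN_le (hm : 2 ≤ m) (hδ : 0 < δ) {k : ℕ} {M : Gr} (h : Inv m k M) {A ρ : ℝ} (hA : 0 < A)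
    (hρ : A ≤ ρ) (N : ℕ → ℕ) (v : ℕ) :
    2 * (Dg δ k M v + N v) + 1
      ≤ (2 + 1 / δ) / A * XX (k + 2) (Dg δ k M) (Mr M) A ρ N v := by
  have he := env hm hδ h
  have h1 := XX_lower' he hρ N v
  have h2 : δ ≤ Dg δ k M v := Dg_ge k M v
  have h3 : (0 : ℝ) ≤ N v := Nat.cast_nonneg _
  have h4 : 1 ≤ 1 / δ * (Dg δ k M v + N v) := by
    rw [one_div, inv_mul_eq_div, le_div_iff₀ hδ]
    linarith
  have h5 : 0 ≤ (2 + 1 / δ) / A := by positivity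
  have h6 := mul_le_mul_of_nonneg_left h1 h5
  have h7 : (2 + 1 / δ) / A * (A * (Dg δ k M v + N v)) = (2 + 1 / δ) * (Dg δ k M v + N v) := by
    field_simp
  rw [h7] at h6
  nlinarith

/-- The choice of the parameter `A`. -/
structure GoodA (m : ℕ) (δ A : ℝ) : Prop where
  h1 : 1 ≤ A
  h8 : 8 * (m + δ) ≤ A
  hK : 2 * (m + δ) * 8 ^ m * ((2 + 1 / δ) / A) ^ 2 ≤ 1 / 2

theorem exists_A (m : ℕ) (hδ : 0 < δ) : ∃ A, GoodA m δ A := by
  have hm0 : (0 : ℝ) ≤ m := Nat.cast_nonneg m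
  set T : ℝ := 4 * (m + δ) * 8 ^ m * (2 + 1 / δ) ^ 2 with hT
  have hT0 : 0 ≤ T := by positivity
  refine ⟨1 + 8 * (m + δ) + T, ⟨by linarith [mul_nonneg (by norm_num : (0 : ℝ) ≤ 8) (by linarith : 0 ≤ (m : ℝ) + δ)],
    by linarith, ?_⟩⟩
  set A := 1 + 8 * (m + δ) + T with hA
  have hA1 : 1 ≤ A := by
    have : 0 ≤ 8 * ((m : ℝ) + δ) := by linarith
    linarith
  have hTA : T ≤ A := by
    have : 0 ≤ 8 * ((m : ℝ) + δ) := by linarith
    linarith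
  have hA2 : T ≤ A ^ 2 := by nlinarith
  have h1 : 2 * (m + δ) * 8 ^ m * ((2 + 1 / δ) / A) ^ 2 = (T / 2) / A ^ 2 := by
    rw [hT, div_pow]
    ring
  rw [h1, div_le_iff₀ (by positivity)]
  linarith

theorem KK_second (hm : 2 ≤ m) (hδ : 0 < δ) {k : ℕ} {M : Gr} (h : Inv m k M) {A : ℝ}
    (hA : GoodA m δ A) :
    Mul (k + 2) (fun v => Dg δ k M v / Sk m δ k) m (fun N => KK (k + 2) (Dg δ k M) N ^ 2)
      ≤ 8 ^ m * ((2 + 1 / δ) / A) ^ 2
        * ((Fs δ A k M + m * (2 * C0 m A (m + δ + A))) / Sk m δ k) := by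
  have he := env hm hδ h
  have hA0 : 0 < A := by linarith [hA.h1]
  have hm0 : (0 : ℝ) ≤ m := Nat.cast_nonneg m
  have hρ : A ≤ m + δ + A := by linarith
  have hρ2 : 8 * ((m : ℝ) + δ + A - A) ≤ A := by
    have := hA.h8
    linarith
  have hC0 : 0 ≤ C0 m A (m + δ + A) := by
    unfold C0
    positivity
  have hF := Fs_nonneg hm hδ h A
  have h1 := Mul_inc he (A := A) (ρ := m + δ + A) (V := KK (k + 2) (Dg δ k M))
    (K := (2 + 1 / δ) / A)
    (B := 2 ^ m * (Fs δ A k M + m * (2 * C0 m A (m + δ + A)))) m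
    (fun N v hv => ?_) (fun i hi => ?_) (by positivity)
  · have h0 : KK (k + 2) (Dg δ k M) (fun _ => 0) = 0 := by
      unfold KK
      simp
    simp only [h0, sub_zero] at h1
    refine h1.trans (le_of_eq ?_)
    have : (8 : ℝ) ^ m = 4 ^ m * 2 ^ m := by
      rw [← mul_pow]
      norm_num
    rw [this]
    ring
  · rw [KK_shift _ N hv]
    have h2 := DN_le hm hδ h hA0 hρ N v
    have h3 : 0 ≤ Dg δ k M v := he.D0 v
    have h4 : (0 : ℝ) ≤ N v := Nat.cast_nonneg _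
    rw [show KK (k + 2) (Dg δ k M) N + (Dg δ k M v + 2 * (N v : ℝ) + 1) - KK (k + 2) (Dg δ k M) N
      = Dg δ k M v + 2 * (N v : ℝ) + 1 by ring, abs_of_nonneg (by linarith)]
    linarith
  · rw [Fs_eq δ A (m + δ + A)]
    exact Mul_PHI_crude he hA0 hρ hρ2 hi.le

theorem Pst_Fs (hm : 2 ≤ m) (hδ : 0 < δ) {A : ℝ} (hA : GoodA m δ A) :
    ∃ c C : ℝ, 0 ≤ c ∧ 0 ≤ C ∧ ∀ (k : ℕ) (M : Gr), Inv m k M →
      Pst m δ k (Fs δ A (k + 1)) M
        ≤ (1 + 4 * m / Sk m δ k + c / Sk m δ k ^ 2) * Fs δ A k M + C := by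
  have hA0 : 0 < A := by linarith [hA.h1]
  have hm0 : (0 : ℝ) ≤ m := Nat.cast_nonneg m
  have hm1 : (2 : ℝ) ≤ m := by exact_mod_cast hm
  have hρ : A ≤ m + δ + A := by linarith
  have hρ2 : 8 * ((m : ℝ) + δ + A - A) ≤ A := by
    have := hA.h8
    linarith
  have hC0 : 0 ≤ C0 m A (m + δ + A) := by
    unfold C0
    positivity
  refine ⟨4 ^ m * (7 / 2) ^ 2,
    2 ^ m * (m * (2 * C0 m A (m + δ + A))) + m * (2 * C0 m A (m + δ + A))
      + 2 * (m + δ) * (A * (m + δ)) ^ 2, by positivity, by positivity, fun k M h => ?_⟩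
  have he := env hm hδ h
  have hF := Fs_nonneg hm hδ h A
  have hS : 0 < Sk m δ k := by linarith [he.S4]
  set c0 := m * (2 * C0 m A (m + δ + A)) with hc0
  have hc00 : 0 ≤ c0 := by positivity
  have h1 : Pst m δ k (Fs δ A (k + 1)) M
      ≤ Mul (k + 2) (fun v => Dg δ k M v / Sk m δ k) m
          (PHI (k + 2) (Dg δ k M) (Mr M) A (m + δ + A))
        + (2 * (m + δ)) * Mul (k + 2) (fun v => Dg δ k M v / Sk m δ k) m
          (fun N => KK (k + 2) (Dg δ k M) N ^ 2) + 2 * (m + δ) * (A * (m + δ)) ^ 2 := by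
    unfold Pst
    rw [← Mul_smul, ← Mul_const (n := k + 2) he.w1 m (2 * (m + δ) * (A * (m + δ)) ^ 2),
      ← Mul_add, ← Mul_add]
    refine Mul_mono (fun v _ => he.w0 v) m fun N hN => ?_
    rw [Fs_att hN]
    have h2 : (KK (k + 2) (Dg δ k M) N + A * (m + δ)) ^ 2
        ≤ 2 * KK (k + 2) (Dg δ k M) N ^ 2 + 2 * (A * (m + δ)) ^ 2 := by
      nlinarith [sq_nonneg (KK (k + 2) (Dg δ k M) N - A * (m + δ))]
    have h3 := mul_le_mul_of_nonneg_left h2 (by linarith : 0 ≤ (m : ℝ) + δ)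
    linarith
  have h4 := Mul_PHI he hA0 hρ hρ2 (le_refl m)
  rw [← Fs_eq δ A (m + δ + A), ← hc0] at h4
  have hx0 : 0 ≤ (7 / 2) / Sk m δ k := by positivity
  have hx1 : (7 / 2) / Sk m δ k ≤ 1 := by
    rw [div_le_one hS]
    linarith [he.S4]
  have h5 := one_add_pow_le hx0 hx1 m
  have h6 : (1 + (7 / 2) / Sk m δ k) ^ m ≤ 2 ^ m :=
    pow_le_pow_left₀ (by positivity) (by linarith) m
  have h7 := mul_le_mul_of_nonneg_right h5 hF
  have h8 := mul_le_mul_of_nonneg_right h6 hc00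
  have h9 := KK_second hm hδ h hA
  rw [← hc0] at h9
  have h10 := mul_le_mul_of_nonneg_left h9 (by linarith : 0 ≤ 2 * ((m : ℝ) + δ))
  have h11 : 2 * (m + δ) * (8 ^ m * ((2 + 1 / δ) / A) ^ 2 * ((Fs δ A k M + c0) / Sk m δ k))
      ≤ 1 / 2 * ((Fs δ A k M + c0) / Sk m δ k) := by
    have h12 := mul_le_mul_of_nonneg_right hA.hK
      (by positivity : 0 ≤ (Fs δ A k M + c0) / Sk m δ k)
    calc _ = 2 * (m + δ) * 8 ^ m * ((2 + 1 / δ) / A) ^ 2 * ((Fs δ A k M + c0) / Sk m δ k) := by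
          ring
      _ ≤ _ := h12
  have h13 : c0 / Sk m δ k ≤ c0 := div_le_self hc00 (by linarith [he.S4])
  have h14 : (1 / 2) * (Fs δ A k M / Sk m δ k) ≤ m / 2 * (Fs δ A k M / Sk m δ k) := by
    refine mul_le_mul_of_nonneg_right (by linarith) (by positivity)
  have h15 : (1 + 4 * m / Sk m δ k + 4 ^ m * (7 / 2) ^ 2 / Sk m δ k ^ 2) * Fs δ A k M
      = (1 + m * ((7 / 2) / Sk m δ k) + 4 ^ m * ((7 / 2) / Sk m δ k) ^ 2) * Fs δ A k M
        + m / 2 * (Fs δ A k M / Sk m δ k) := by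
    rw [div_pow]
    ring
  rw [h15]
  have h16 : 1 / 2 * ((Fs δ A k M + c0) / Sk m δ k)
      = (1 / 2) * (Fs δ A k M / Sk m δ k) + (1 / 2) * (c0 / Sk m δ k) := by ring
  have h17 : (1 + (7 / 2) / Sk m δ k) ^ m * (Fs δ A k M + c0)
      = (1 + (7 / 2) / Sk m δ k) ^ m * Fs δ A k M + (1 + (7 / 2) / Sk m δ k) ^ m * c0 := by ring
  rw [h16] at h11
  rw [h17] at h4
  linarith

theorem XX_ge_sum (hm : 2 ≤ m) (hδ : 0 < δ) {k : ℕ} {M : Gr} (h : Inv m k M) {A ρ : ℝ}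
    (hA : 0 ≤ A) (hρ : A ≤ ρ) (N : ℕ → ℕ) (v : ℕ) :
    ∑ u ∈ range (k + 2), (Dg δ k M u + N u) * Mr M u v
      ≤ XX (k + 2) (Dg δ k M) (Mr M) A ρ N v := by
  have he := env hm hδ h
  unfold XX
  have h1 : ∑ u ∈ range (k + 2), (Dg δ k M u + N u) * Mr M u v
      = ∑ u ∈ range (k + 2), Mr M v u * (Dg δ k M u + N u) :=
    Finset.sum_congr rfl fun u _ => by rw [he.symm u v]; ring
  rw [h1]
  have h2 : 0 ≤ A * Dg δ k M v := mul_nonneg hA (he.D0 v)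
  have h3 : 0 ≤ ρ * (N v : ℝ) := mul_nonneg (hA.trans hρ) (Nat.cast_nonneg _)
  linarith

/-- The functional whose increments give `Qs`. -/
noncomputable def VQ (m : ℕ) (δ : ℝ) (k : ℕ) (M : Gr) (N : ℕ → ℕ) : ℝ :=
  QQ (k + 2) (Dg δ k M) (Mr M) N + 2 * (m + δ) * KK (k + 2) (Dg δ k M) N

theorem VQ_zero (k : ℕ) (M : Gr) : VQ m δ k M (fun _ => 0) = Qs δ k M := by
  unfold VQ QQ KK Qs Q0
  simp

theorem RR_zero (k : ℕ) (M : Gr) : RR (k + 2) (Dg δ k M) (fun _ => 0) = Rs δ k M := by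
  unfold RR Rs
  simp

theorem VQ_inc (hm : 2 ≤ m) (hδ : 0 < δ) {A : ℝ} (hA : GoodA m δ A) {k : ℕ} {M : Gr}
    (h : Inv m k M) (N : ℕ → ℕ) {v : ℕ} (hv : v ∈ range (k + 2)) :
    |VQ m δ k M (fun x => N x + if x = v then 1 else 0) - VQ m δ k M N|
      ≤ (2 + 2 * (m + δ) * ((2 + 1 / δ) / A))
        * XX (k + 2) (Dg δ k M) (Mr M) A (m + δ + A) N v := by
  have he := env hm hδ h
  have hA0 : 0 < A := by linarith [hA.h1]
  have hm0 : (0 : ℝ) ≤ m := Nat.cast_nonneg m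
  have hρ : A ≤ m + δ + A := by linarith
  unfold VQ
  rw [QQ_shift _ _ he.symm he.diag N hv, KK_shift _ N hv]
  have h2 := DN_le hm hδ h hA0 hρ N v
  have h3 : 0 ≤ Dg δ k M v := he.D0 v
  have h4 : (0 : ℝ) ≤ N v := Nat.cast_nonneg _
  have h5 := XX_ge_sum hm hδ h hA0.le hρ N v
  have h6 : 0 ≤ ∑ u ∈ range (k + 2), (Dg δ k M u + N u) * Mr M u v :=
    Finset.sum_nonneg fun u _ => mul_nonneg (add_nonneg (he.D0 u) (Nat.cast_nonneg _))
      (he.Mn u v)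
  have h7 : QQ (k + 2) (Dg δ k M) (Mr M) N
        + 2 * ∑ u ∈ range (k + 2), (Dg δ k M u + N u) * Mr M u v
        + 2 * (m + δ) * (KK (k + 2) (Dg δ k M) N + (Dg δ k M v + 2 * N v + 1))
        - (QQ (k + 2) (Dg δ k M) (Mr M) N + 2 * (m + δ) * KK (k + 2) (Dg δ k M) N)
      = 2 * ∑ u ∈ range (k + 2), (Dg δ k M u + N u) * Mr M u v
        + 2 * (m + δ) * (Dg δ k M v + 2 * N v + 1) := by ring
  rw [h7, abs_of_nonneg (by positivity)]
  have h8 : 2 * ((m : ℝ) + δ) * (Dg δ k M v + 2 * N v + 1)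
      ≤ 2 * (m + δ) * ((2 + 1 / δ) / A * XX (k + 2) (Dg δ k M) (Mr M) A (m + δ + A) N v) := by
    refine mul_le_mul_of_nonneg_left ?_ (by linarith)
    linarith
  linarith

theorem RR_inc (hm : 2 ≤ m) (hδ : 0 < δ) {A : ℝ} (hA : GoodA m δ A) {k : ℕ} {M : Gr}
    (h : Inv m k M) (N : ℕ → ℕ) {v : ℕ} (hv : v ∈ range (k + 2)) :
    |RR (k + 2) (Dg δ k M) (fun x => N x + if x = v then 1 else 0)
        - RR (k + 2) (Dg δ k M) N|
      ≤ (2 + 2 * (m + δ) * ((2 + 1 / δ) / A) + (2 + 1 / δ) / A)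
        * XX (k + 2) (Dg δ k M) (Mr M) A (m + δ + A) N v := by
  have he := env hm hδ h
  have hA0 : 0 < A := by linarith [hA.h1]
  have hm0 : (0 : ℝ) ≤ m := Nat.cast_nonneg m
  have hρ : A ≤ m + δ + A := by linarith
  rw [RR_shift _ N hv, add_sub_cancel_left]
  have h2 := DN_le hm hδ h hA0 hρ N v
  have h3 : 0 ≤ Dg δ k M v := he.D0 v
  have h4 : (0 : ℝ) ≤ N v := Nat.cast_nonneg _
  have h5 := XX_nonneg he hA0.le hρ N v
  have h6 : 0 ≤ (2 + 2 * (m + δ) * ((2 + 1 / δ) / A))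
      * XX (k + 2) (Dg δ k M) (Mr M) A (m + δ + A) N v := by positivity
  rw [abs_of_nonneg (by linarith), add_mul]
  linarith

/-- The common bound for conditional second moments. -/
theorem second_fin {c0 K F S d : ℝ} (hc0 : 0 ≤ c0) (hF : 0 ≤ F) (hS : 1 ≤ S)
    (hd : 0 ≤ d) (m : ℕ) :
    2 * (4 ^ m * (K ^ 2 * (2 ^ m * (F + c0) / S))) + d
      ≤ (2 * (8 ^ m * K ^ 2 * (1 + c0)) + d) * (F / S + 1) := by
  have hS0 : 0 < S := by linarith
  have h8 : (8 : ℝ) ^ m = 4 ^ m * 2 ^ m := by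
    rw [← mul_pow]
    norm_num
  have h1 : 2 * (4 ^ m * (K ^ 2 * (2 ^ m * (F + c0) / S)))
      = 2 * (8 ^ m * K ^ 2) * (F / S + c0 / S) := by
    rw [h8]
    ring
  have h2 : c0 / S ≤ c0 := div_le_self hc0 hS
  have h3 : 0 ≤ F / S := by positivity
  have h4 : F / S + c0 / S ≤ (1 + c0) * (F / S + 1) := by
    nlinarith [mul_nonneg hc0 h3]
  have h5 := mul_le_mul_of_nonneg_left h4 (by positivity : 0 ≤ 2 * (8 ^ m * K ^ 2))
  have h6 : d ≤ d * (F / S + 1) := by nlinarith [mul_nonneg hd h3]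
  rw [h1]
  calc _ ≤ 2 * (8 ^ m * K ^ 2) * ((1 + c0) * (F / S + 1)) + d * (F / S + 1) := add_le_add h5 h6
    _ = _ := by ring

theorem Pst_var (hm : 2 ≤ m) (hδ : 0 < δ) {A : ℝ} (hA : GoodA m δ A) :
    ∃ C : ℝ, 0 ≤ C ∧ ∀ (k : ℕ) (M : Gr), Inv m k M →
      Pst m δ k (fun M' => (Rs δ (k + 1) M' - Rs δ k M) ^ 2) M
        ≤ C * (Fs δ A k M / Sk m δ k + 1) ∧
      Pst m δ k (fun M' => (Qs δ (k + 1) M' - Qs δ k M) ^ 2) M
        ≤ C * (Fs δ A k M / Sk m δ k + 1) := by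
  have hA0 : 0 < A := by linarith [hA.h1]
  have hm0 : (0 : ℝ) ≤ m := Nat.cast_nonneg m
  have hρ : A ≤ m + δ + A := by linarith
  have hρ2 : 8 * ((m : ℝ) + δ + A - A) ≤ A := by
    have := hA.h8
    linarith
  have hC0 : 0 ≤ C0 m A (m + δ + A) := by
    unfold C0
    positivity
  obtain ⟨c0, hc0⟩ : ∃ c0, c0 = m * (2 * C0 m A (m + δ + A)) := ⟨_, rfl⟩
  have hc00 : 0 ≤ c0 := by
    rw [hc0]
    positivity
  obtain ⟨K1, hK1⟩ : ∃ K1, K1 = 2 + 2 * (m + δ) * ((2 + 1 / δ) / A) + (2 + 1 / δ) / A := ⟨_, rfl⟩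
  obtain ⟨K2', hK2⟩ : ∃ K2', K2' = 2 + 2 * (m + δ) * ((2 + 1 / δ) / A) := ⟨_, rfl⟩
  refine ⟨(2 * (8 ^ m * K1 ^ 2 * (1 + c0)) + 2 * (m + δ) ^ 4)
    + (2 * (8 ^ m * K2' ^ 2 * (1 + c0)) + 0), by positivity, fun k M h => ?_⟩
  have he := env hm hδ h
  have hF := Fs_nonneg hm hδ h A
  have hS : 1 ≤ Sk m δ k := by linarith [he.S4]
  have hB : ∀ i < m, Mul (k + 2) (fun v => Dg δ k M v / Sk m δ k) i
      (PHI (k + 2) (Dg δ k M) (Mr M) A (m + δ + A)) ≤ 2 ^ m * (Fs δ A k M + c0) := fun i hi => by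
    rw [Fs_eq δ A (m + δ + A), hc0]
    exact Mul_PHI_crude he hA0 hρ hρ2 hi.le
  have hFS : 0 ≤ Fs δ A k M / Sk m δ k + 1 := by positivity
  constructor
  · have h1 := Mul_inc he (A := A) (ρ := m + δ + A) (V := RR (k + 2) (Dg δ k M)) (K := K1)
      (B := 2 ^ m * (Fs δ A k M + c0)) m
      (fun N v hv => by rw [hK1]; exact RR_inc hm hδ hA h N hv) hB (by positivity)
    rw [RR_zero] at h1
    have h2 : Pst m δ k (fun M' => (Rs δ (k + 1) M' - Rs δ k M) ^ 2) M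
        ≤ 2 * Mul (k + 2) (fun v => Dg δ k M v / Sk m δ k) m
          (fun N => (RR (k + 2) (Dg δ k M) N - Rs δ k M) ^ 2) + 2 * (m + δ) ^ 4 := by
      unfold Pst
      rw [← Mul_smul, ← Mul_const (n := k + 2) he.w1 m (2 * ((m : ℝ) + δ) ^ 4), ← Mul_add]
      refine Mul_mono (fun v _ => he.w0 v) m fun N hN => ?_
      beta_reduce
      rw [Rs_att hN]
      nlinarith [sq_nonneg (RR (k + 2) (Dg δ k M) N - Rs δ k M - (m + δ) ^ 2)]
    have h3 := second_fin (K := K1) hc00 hF hS (by positivity : 0 ≤ 2 * ((m : ℝ) + δ) ^ 4) m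
    have h4 : 0 ≤ (2 * (8 ^ m * K2' ^ 2 * (1 + c0)) + 0) * (Fs δ A k M / Sk m δ k + 1) := by
      positivity
    rw [add_mul]
    linarith
  · have h1 := Mul_inc he (A := A) (ρ := m + δ + A) (V := VQ m δ k M) (K := K2')
      (B := 2 ^ m * (Fs δ A k M + c0)) m
      (fun N v hv => by rw [hK2]; exact VQ_inc hm hδ hA h N hv) hB (by positivity)
    rw [VQ_zero] at h1
    have h2 : Pst m δ k (fun M' => (Qs δ (k + 1) M' - Qs δ k M) ^ 2) M
        = Mul (k + 2) (fun v => Dg δ k M v / Sk m δ k) m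
          (fun N => (VQ m δ k M N - Qs δ k M) ^ 2) := by
      unfold Pst
      refine Mul_congr (fun v _ => he.w0 v) m fun N hN => ?_
      beta_reduce
      rw [Qs_att hN, VQ]
    have h3 := second_fin (K := K2') hc00 hF hS (le_refl (0 : ℝ)) m
    have h4 : 0 ≤ (2 * (8 ^ m * K1 ^ 2 * (1 + c0)) + 2 * ((m : ℝ) + δ) ^ 4)
        * (Fs δ A k M / Sk m δ k + 1) := by positivity
    have h5 : 0 ≤ 4 ^ m * (K2' ^ 2 * (2 ^ m * (Fs δ A k M + c0) / Sk m δ k)) := by positivity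
    rw [h2, add_mul]
    linarith

/-- Mean number of new triangles. -/
theorem Del_mean (hm : 2 ≤ m) (hδ : 0 < δ) {k : ℕ} {M : Gr} (h : Inv m k M) :
    Mul (k + 2) (fun v => Dg δ k M v / Sk m δ k) m (Del (k + 2) M)
      = m * (m - 1) / 2 * (Qs δ k M / Sk m δ k ^ 2) := by
  have he := env hm hδ h
  have h1 : Del (k + 2) M = De (k + 2) (Mr M) := rfl
  rw [h1, Mul_De (Mr M) he.symm he.diag (fun v _ => he.w0 v) he.w1]
  congr 1
  unfold qq wt Qs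
  rw [← sum_w_lin (w := fun v => Dg δ k M v / Sk m δ k) (Dg δ k M) (Mr M) (Sk m δ k)
    (fun _ => rfl)]
  refine Finset.sum_congr rfl fun v _ => ?_
  congr 1
  exact Finset.sum_congr rfl fun u _ => by rw [he.symm]

/-- Second factorial moment of the number of new triangles. -/
theorem Del_fact (hm : 2 ≤ m) (hδ : 0 < δ) {k : ℕ} {M : Gr} (h : Inv m k M) {A : ℝ}
    (hA : 0 ≤ A) :
    Mul (k + 2) (fun v => Dg δ k M v / Sk m δ k) m
        (fun N => Del (k + 2) M N * (Del (k + 2) M N - 1))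
      ≤ m ^ 4 * (Fs δ A k M / Sk m δ k ^ 3 + (Qs δ k M / Sk m δ k ^ 2) ^ 2
        + Ps δ k M / Sk m δ k ^ 2) := by
  have he := env hm hδ h
  have hS : 0 < Sk m δ k := by linarith [he.S4]
  have hm2 : (2 : ℝ) ≤ m := by exact_mod_cast hm
  have h1 : Del (k + 2) M = De (k + 2) (Mr M) := rfl
  rw [h1, Mul_De2 (Mr M) he.symm he.diag (fun v _ => he.w0 v) he.w1]
  have hq : qq (k + 2) (fun v => Dg δ k M v / Sk m δ k) (Mr M) = Qs δ k M / Sk m δ k ^ 2 := by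
    unfold qq wt Qs
    rw [← sum_w_lin (w := fun v => Dg δ k M v / Sk m δ k) (Dg δ k M) (Mr M) (Sk m δ k)
      (fun _ => rfl)]
    refine Finset.sum_congr rfl fun v _ => ?_
    congr 1
    exact Finset.sum_congr rfl fun u _ => by rw [he.symm]
  have hp : pp (k + 2) (fun v => Dg δ k M v / Sk m δ k) (Mr M) = Ps δ k M / Sk m δ k ^ 2 := by
    unfold pp Ps
    rw [← sum_w_lin (w := fun v => Dg δ k M v / Sk m δ k) (Dg δ k M) (M2r M) (Sk m δ k)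
      (fun _ => rfl)]
    rfl
  have ht : tt (k + 2) (fun v => Dg δ k M v / Sk m δ k) (Mr M) ≤ Fs δ A k M / Sk m δ k ^ 3 := by
    unfold tt wt Fs
    rw [Finset.sum_div]
    refine Finset.sum_le_sum fun v _ => ?_
    have h2 : ∑ u ∈ range (k + 2), Dg δ k M u / Sk m δ k * Mr M u v
        = (∑ u ∈ range (k + 2), Mr M v u * Dg δ k M u) / Sk m δ k := by
      rw [Finset.sum_div]
      refine Finset.sum_congr rfl fun u _ => ?_
      rw [he.symm u v]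
      ring
    rw [h2]
    have h3 : 0 ≤ ∑ u ∈ range (k + 2), Mr M v u * Dg δ k M u :=
      Finset.sum_nonneg fun u _ => mul_nonneg (he.Mn v u) (he.D0 u)
    have h4 : (∑ u ∈ range (k + 2), Mr M v u * Dg δ k M u) ^ 2
        ≤ (∑ u ∈ range (k + 2), Mr M v u * Dg δ k M u + A * Dg δ k M v) ^ 2 :=
      pow_le_pow_left₀ h3 (by linarith [mul_nonneg hA (he.D0 v)]) 2
    have h5 := mul_le_mul_of_nonneg_left h4 (he.D0 v)
    have h6 : Dg δ k M v / Sk m δ k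
          * ((∑ u ∈ range (k + 2), Mr M v u * Dg δ k M u) / Sk m δ k) ^ 2
        = Dg δ k M v * (∑ u ∈ range (k + 2), Mr M v u * Dg δ k M u) ^ 2 / Sk m δ k ^ 3 := by
      field_simp
    rw [h6]
    exact div_le_div_of_nonneg_right h5 (by positivity)
  have ht0 : 0 ≤ tt (k + 2) (fun v => Dg δ k M v / Sk m δ k) (Mr M) := by
    unfold tt
    exact Finset.sum_nonneg fun v _ => mul_nonneg (he.w0 v) (sq_nonneg _)
  rw [hq, hp]
  have hP0 : 0 ≤ Ps δ k M / Sk m δ k ^ 2 := div_nonneg (Ps_nonneg hm hδ h) (by positivity)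
  have c1 : (m : ℝ) * (m - 1) * (m - 2) ≤ m ^ 4 := by
    have : (m : ℝ) * (m - 1) * (m - 2) ≤ m * m * m := by
      have h2 : 0 ≤ (m : ℝ) - 2 := by linarith
      have h3 : 0 ≤ (m : ℝ) - 1 := by linarith
      have h4 : 0 ≤ (m : ℝ) := by linarith
      nlinarith [mul_nonneg h4 h3, mul_nonneg h4 h2, mul_nonneg h4 h4]
    nlinarith [pow_pos (by linarith : (0 : ℝ) < m) 3]
  have c10 : 0 ≤ (m : ℝ) * (m - 1) * (m - 2) := by
    have h2 : 0 ≤ (m : ℝ) - 2 := by linarith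
    have h3 : 0 ≤ (m : ℝ) - 1 := by linarith
    have h4 : 0 ≤ (m : ℝ) := by linarith
    positivity
  have c2 : (m : ℝ) * (m - 1) * (m - 2) * (m - 3) / 4 ≤ m ^ 4 := by
    have h3 : (m : ℝ) - 3 ≤ m := by linarith
    have h4 : (m : ℝ) * (m - 1) * (m - 2) ≤ m ^ 3 := by
      nlinarith [mul_nonneg (by linarith : 0 ≤ (m : ℝ)) (by linarith : 0 ≤ (m : ℝ) - 2)]
    have h5 := mul_le_mul_of_nonneg_left h3 c10
    have h6 := mul_le_mul_of_nonneg_right h4 (by linarith : 0 ≤ (m : ℝ))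
    have h7 : (m : ℝ) ^ 3 * m = m ^ 4 := by ring
    have h8 : 0 ≤ (m : ℝ) ^ 4 := by positivity
    linarith
  have c3 : (m : ℝ) * (m - 1) / 2 ≤ m ^ 4 := by
    nlinarith [pow_pos (by linarith : (0 : ℝ) < m) 3, pow_pos (by linarith : (0 : ℝ) < m) 2,
      mul_pos (by linarith : (0 : ℝ) < m) (by linarith : (0 : ℝ) < m)]
  have e1 : (m : ℝ) * (m - 1) * (m - 2) * tt (k + 2) (fun v => Dg δ k M v / Sk m δ k) (Mr M)
      ≤ m ^ 4 * (Fs δ A k M / Sk m δ k ^ 3) :=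
    mul_le_mul c1 ht ht0 (by positivity)
  have e2 := mul_le_mul_of_nonneg_right c2 (sq_nonneg (Qs δ k M / Sk m δ k ^ 2))
  have e3 := mul_le_mul_of_nonneg_right c3 hP0
  linarith

end Pool.Agent.H90.PA
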