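import Pool.Agent.H90.PA.Zeta

/-!
The cubic potential and the second moments of increments.
-/

namespace Pool.Agent.H90.PA

open Finset

/-- The data of one step. -/
structure Env (n m : ℕ) (D : ℕ → ℝ) (M : ℕ → ℕ → ℝ) (S : ℝ) : Prop where
  D0 : ∀ v, 0 ≤ D v
  DS : ∑ v ∈ range n, D v = S
  S4 : 4 ≤ S
  mS : 2 * (m : ℝ) ≤ S
  Mn : ∀ u v, 0 ≤ M u v
  Mm : ∀ u v, M u v ≤ m
  symm : ∀ u v, M u v = M v u
  diag : ∀ u, M u u = 0

variable {n m : ℕ} {D : ℕ → ℝ} {M : ℕ → ℕ → ℝ} {S : ℝ}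

theorem Env.w0 (h : Env n m D M S) (v : ℕ) : 0 ≤ D v / S := div_nonneg (h.D0 v) (by linarith [h.S4])

theorem Env.w1 (h : Env n m D M S) : ∑ v ∈ range n, D v / S = 1 := by
  rw [← Finset.sum_div, h.DS]
  exact div_self (by linarith [h.S4])

/-- The potential's linear part. -/
noncomputable def XX (n : ℕ) (D : ℕ → ℝ) (M : ℕ → ℕ → ℝ) (A ρ : ℝ) (N : ℕ → ℕ) (u : ℕ) : ℝ :=
  ∑ v ∈ range n, M u v * (D v + N v) + A * D u + ρ * N u

/-- The cubic potential. -/
noncomputable def PHI (n : ℕ) (D : ℕ → ℝ) (M : ℕ → ℕ → ℝ) (A ρ : ℝ) (N : ℕ → ℕ) : ℝ :=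
  ∑ u ∈ range n, (D u + N u) * XX n D M A ρ N u ^ 2

theorem XX_shift (A ρ : ℝ) (N : ℕ → ℕ) (u : ℕ) {v : ℕ} (hv : v ∈ range n) :
    XX n D M A ρ (fun x => N x + if x = v then 1 else 0) u
      = XX n D M A ρ N u + M u v + if u = v then ρ else 0 := by
  unfold XX
  rw [sum_shift (fun x y => M u x * (D x + y)) N hv]
  push_cast
  split_ifs <;> ring

theorem XX_lower (h : Env n m D M S) {A ρ : ℝ} (hρ : A ≤ ρ) (N : ℕ → ℕ) (u : ℕ) :
    ∑ v ∈ range n, M u v * D v + A * (D u + N u) ≤ XX n D M A ρ N u := by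
  unfold XX
  have h1 : ∑ v ∈ range n, M u v * D v ≤ ∑ v ∈ range n, M u v * (D v + N v) :=
    Finset.sum_le_sum fun v _ => mul_le_mul_of_nonneg_left
      (by linarith [(Nat.cast_nonneg (N v) : (0 : ℝ) ≤ (N v : ℝ))]) (h.Mn u v)
  have h2 : A * (N u : ℝ) ≤ ρ * N u := mul_le_mul_of_nonneg_right hρ (Nat.cast_nonneg _)
  linarith

theorem XX_lower' (h : Env n m D M S) {A ρ : ℝ} (hρ : A ≤ ρ) (N : ℕ → ℕ) (u : ℕ) :
    A * (D u + N u) ≤ XX n D M A ρ N u := by
  have h1 := XX_lower h hρ N u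
  have h2 : 0 ≤ ∑ v ∈ range n, M u v * D v :=
    Finset.sum_nonneg fun v _ => mul_nonneg (h.Mn u v) (h.D0 v)
  linarith

theorem XX_nonneg (h : Env n m D M S) {A ρ : ℝ} (hA : 0 ≤ A) (hρ : A ≤ ρ) (N : ℕ → ℕ) (u : ℕ) :
    0 ≤ XX n D M A ρ N u := by
  have h1 := XX_lower' h hρ N u
  have h2 : 0 ≤ A * (D u + N u) := mul_nonneg hA (add_nonneg (h.D0 u) (Nat.cast_nonneg _))
  linarith

theorem PHI_nonneg (h : Env n m D M S) (A ρ : ℝ) (N : ℕ → ℕ) : 0 ≤ PHI n D M A ρ N :=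
  Finset.sum_nonneg fun u _ => mul_nonneg (add_nonneg (h.D0 u) (Nat.cast_nonneg _)) (sq_nonneg _)

theorem PHI_shift (h : Env n m D M S) (A ρ : ℝ) (N : ℕ → ℕ) {v : ℕ} (hv : v ∈ range n) :
    PHI n D M A ρ (fun x => N x + if x = v then 1 else 0)
      = ∑ u ∈ range n, (D u + N u) * (XX n D M A ρ N u + M u v + if u = v then ρ else 0) ^ 2
        + (XX n D M A ρ N v + ρ) ^ 2 := by
  unfold PHI
  have : ∀ u ∈ range n, (D u + ((N u + if u = v then 1 else 0 : ℕ) : ℝ))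
        * XX n D M A ρ (fun x => N x + if x = v then 1 else 0) u ^ 2
      = (D u + N u) * (XX n D M A ρ N u + M u v + if u = v then ρ else 0) ^ 2
        + if u = v then (XX n D M A ρ N u + M u v + ρ) ^ 2 else 0 := fun u _ => by
    rw [XX_shift A ρ N u hv]
    push_cast
    split_ifs <;> ring
  rw [Finset.sum_congr rfl this, Finset.sum_add_distrib, Finset.sum_ite_eq', if_pos hv, h.diag]
  ring

theorem inner_bound (h : Env n m D M S) {A ρ : ℝ} (hA : 0 < A) (hρ : A ≤ ρ)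
    (hρ2 : 8 * (ρ - A) ≤ A) (N : ℕ → ℕ) {u : ℕ} (hu : u ∈ range n) :
    ∑ v ∈ range n, D v / S * (XX n D M A ρ N u + M u v + if u = v then ρ else 0) ^ 2
      ≤ XX n D M A ρ N u ^ 2 * (1 + (9 / 4) / S) + (m + ρ ^ 2 / A) * XX n D M A ρ N u / S := by
  have hS : 0 < S := by linarith [h.S4]
  set X := XX n D M A ρ N u with hX
  have hX0 : 0 ≤ X := XX_nonneg h hA.le hρ N u
  have hlow := XX_lower h hρ N u
  rw [← hX] at hlow
  have hN : (0 : ℝ) ≤ N u := Nat.cast_nonneg _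
  set g := ∑ v ∈ range n, M u v * D v with hg
  have hg0 : 0 ≤ g := Finset.sum_nonneg fun v _ => mul_nonneg (h.Mn u v) (h.D0 v)
  have h1 : ∑ v ∈ range n, D v / S * (X + M u v + if u = v then ρ else 0) ^ 2
      = ∑ v ∈ range n, (D v / S * X ^ 2 + 2 * X / S * (M u v * D v) + D v * M u v ^ 2 / S)
        + D u / S * (2 * ρ * X + ρ ^ 2) := by
    have : ∀ v ∈ range n, D v / S * (X + M u v + if u = v then ρ else 0) ^ 2
        = (D v / S * X ^ 2 + 2 * X / S * (M u v * D v) + D v * M u v ^ 2 / S)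
          + if u = v then D v / S * (2 * ρ * (X + M u v) + ρ ^ 2) else 0 := fun v _ => by
      split_ifs <;> ring
    rw [Finset.sum_congr rfl this, Finset.sum_add_distrib, Finset.sum_ite_eq, if_pos hu, h.diag,
      add_zero]
  have h2 : ∑ v ∈ range n, D v * M u v ^ 2 / S ≤ m * g / S := by
    rw [← Finset.sum_div]
    refine div_le_div_of_nonneg_right ?_ hS.le
    rw [hg, Finset.mul_sum]
    refine Finset.sum_le_sum fun v _ => ?_
    have := mul_le_mul_of_nonneg_right (h.Mm u v) (mul_nonneg (h.Mn u v) (h.D0 v))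
    nlinarith
  rw [h1, Finset.sum_add_distrib, Finset.sum_add_distrib, ← Finset.sum_mul, h.w1, one_mul,
    ← Finset.mul_sum, ← hg]
  have hDu := h.D0 u
  have hDX : A * D u ≤ X := by nlinarith
  have h3 : g + ρ * D u ≤ X * (9 / 8) := by
    have : (ρ - A) * D u ≤ X / 8 := by
      have h5 : 8 * (ρ - A) * D u ≤ A * D u := mul_le_mul_of_nonneg_right hρ2 hDu
      linarith
    nlinarith
  have h4 : ρ ^ 2 * D u ≤ ρ ^ 2 / A * X := by
    have : ρ ^ 2 * D u = ρ ^ 2 / A * (A * D u) := by field_simp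
    rw [this]
    exact mul_le_mul_of_nonneg_left hDX (by positivity)
  have hgX : g ≤ X := by nlinarith
  have hm0 : (0 : ℝ) ≤ m := Nat.cast_nonneg _
  have h6 : 2 * X / S * g + D u / S * (2 * ρ * X) ≤ X ^ 2 * (9 / 4) / S := by
    have : 2 * X / S * g + D u / S * (2 * ρ * X) = 2 * X * (g + ρ * D u) / S := by ring
    rw [this]
    refine div_le_div_of_nonneg_right ?_ hS.le
    nlinarith
  have h7 : m * g / S + D u / S * ρ ^ 2 ≤ (m + ρ ^ 2 / A) * X / S := by
    have : m * g / S + D u / S * ρ ^ 2 = (m * g + ρ ^ 2 * D u) / S := by ring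
    rw [this]
    refine div_le_div_of_nonneg_right ?_ hS.le
    nlinarith
  have h8 : X ^ 2 * (1 + 9 / 4 / S) = X ^ 2 + X ^ 2 * (9 / 4) / S := by ring
  have h9 : D u / S * (2 * ρ * X + ρ ^ 2) = D u / S * (2 * ρ * X) + D u / S * ρ ^ 2 := by ring
  rw [h8, h9]
  linarith

/-- The additive constant. -/
noncomputable def C0 (m : ℕ) (A ρ : ℝ) : ℝ := ((m + ρ ^ 2 / A) + 2 * ρ) ^ 2 + ρ ^ 2

theorem PHI_draw (h : Env n m D M S) {A ρ : ℝ} (hA : 0 < A) (hρ : A ≤ ρ)
    (hρ2 : 8 * (ρ - A) ≤ A) {j : ℕ} (hj : j ≤ m) {N : ℕ → ℕ} (hN : Cnt n j N) :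
    ∑ v ∈ range n, D v / S * PHI n D M A ρ (fun x => N x + if x = v then 1 else 0)
      ≤ (1 + (7 / 2) / S) * PHI n D M A ρ N + 2 * C0 m A ρ := by
  have hS : 0 < S := by linarith [h.S4]
  have h1 : ∑ v ∈ range n, D v / S * PHI n D M A ρ (fun x => N x + if x = v then 1 else 0)
      = ∑ u ∈ range n, (D u + N u) * (∑ v ∈ range n,
          D v / S * (XX n D M A ρ N u + M u v + if u = v then ρ else 0) ^ 2)
        + ∑ v ∈ range n, D v / S * (XX n D M A ρ N v + ρ) ^ 2 := by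
    have : ∀ v ∈ range n, D v / S * PHI n D M A ρ (fun x => N x + if x = v then 1 else 0)
        = ∑ u ∈ range n, (D u + N u) * (D v / S *
            (XX n D M A ρ N u + M u v + if u = v then ρ else 0) ^ 2)
          + D v / S * (XX n D M A ρ N v + ρ) ^ 2 := fun v hv => by
      rw [PHI_shift h A ρ N hv, mul_add, Finset.mul_sum]
      congr 1
      exact Finset.sum_congr rfl fun u _ => by ring
    rw [Finset.sum_congr rfl this, Finset.sum_add_distrib, Finset.sum_comm]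
    congr 1
    refine Finset.sum_congr rfl fun u _ => ?_
    rw [Finset.mul_sum]
  rw [h1, ← Finset.sum_add_distrib]
  have hsum : ∑ u ∈ range n, (D u + (N u : ℝ)) = S + j := by
    rw [Finset.sum_add_distrib, h.DS]
    congr 1
    rw [← hN.2]
    push_cast
    rfl
  have hC0 : 0 ≤ C0 m A ρ := by
    unfold C0
    positivity
  have hper : ∀ u ∈ range n, (D u + N u) * (∑ v ∈ range n,
          D v / S * (XX n D M A ρ N u + M u v + if u = v then ρ else 0) ^ 2)
        + D u / S * (XX n D M A ρ N u + ρ) ^ 2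
      ≤ (1 + (7 / 2) / S) * ((D u + N u) * XX n D M A ρ N u ^ 2)
        + (D u + N u) * (C0 m A ρ / S) := fun u hu => by
    have hb := inner_bound h hA hρ hρ2 N hu
    have hX0 : 0 ≤ XX n D M A ρ N u := XX_nonneg h hA.le hρ N u
    set X := XX n D M A ρ N u with hX
    have hDN : 0 ≤ D u + N u := add_nonneg (h.D0 u) (Nat.cast_nonneg _)
    have hN0 : (0 : ℝ) ≤ N u := Nat.cast_nonneg _
    have h2 : D u / S * (X + ρ) ^ 2 ≤ (D u + N u) * ((X + ρ) ^ 2 / S) := by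
      have : D u / S * (X + ρ) ^ 2 = D u * ((X + ρ) ^ 2 / S) := by ring
      rw [this]
      exact mul_le_mul_of_nonneg_right (by linarith) (by positivity)
    have h3 := mul_le_mul_of_nonneg_left hb hDN
    have h4 : X ^ 2 * (1 + (9 / 4) / S) + (m + ρ ^ 2 / A) * X / S + (X + ρ) ^ 2 / S
        ≤ (1 + (7 / 2) / S) * X ^ 2 + C0 m A ρ / S := by
      have h5 : (m + ρ ^ 2 / A) * X + 2 * ρ * X ≤ X ^ 2 / 4 + ((m + ρ ^ 2 / A) + 2 * ρ) ^ 2 := by
        nlinarith [sq_nonneg (X / 2 - ((m + ρ ^ 2 / A) + 2 * ρ))]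
      have h6 : X ^ 2 * (1 + (9 / 4) / S) + (m + ρ ^ 2 / A) * X / S + (X + ρ) ^ 2 / S
          = X ^ 2 + (X ^ 2 * (9 / 4) + ((m + ρ ^ 2 / A) * X + 2 * ρ * X) + X ^ 2 + ρ ^ 2) / S := by
        field_simp
        ring
      have h7 : (1 + (7 / 2) / S) * X ^ 2 + C0 m A ρ / S
          = X ^ 2 + (X ^ 2 * (7 / 2) + C0 m A ρ) / S := by
        ring
      rw [h6, h7]
      refine add_le_add le_rfl (div_le_div_of_nonneg_right ?_ hS.le)
      unfold C0
      linarith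
    have h8 := mul_le_mul_of_nonneg_left h4 hDN
    calc _ ≤ (D u + N u) * (X ^ 2 * (1 + (9 / 4) / S) + (m + ρ ^ 2 / A) * X / S)
          + (D u + N u) * ((X + ρ) ^ 2 / S) := add_le_add h3 h2
      _ = (D u + N u) * (X ^ 2 * (1 + (9 / 4) / S) + (m + ρ ^ 2 / A) * X / S
          + (X + ρ) ^ 2 / S) := by ring
      _ ≤ _ := h8
      _ = _ := by ring
  refine (Finset.sum_le_sum hper).trans ?_
  rw [Finset.sum_add_distrib, ← Finset.mul_sum, ← Finset.sum_mul, hsum]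
  change (1 + (7 / 2) / S) * PHI n D M A ρ N + (S + j) * (C0 m A ρ / S) ≤ _
  have hjS : (j : ℝ) ≤ S := by
    have : (j : ℝ) ≤ m := by exact_mod_cast hj
    have hm0 : (0 : ℝ) ≤ m := Nat.cast_nonneg _
    linarith [h.mS]
  have : (S + j) * (C0 m A ρ / S) ≤ 2 * C0 m A ρ := by
    rw [mul_div_assoc', div_le_iff₀ hS]
    nlinarith
  linarith

theorem Mul_PHI (h : Env n m D M S) {A ρ : ℝ} (hA : 0 < A) (hρ : A ≤ ρ)
    (hρ2 : 8 * (ρ - A) ≤ A) {j : ℕ} (hj : j ≤ m) :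
    Mul n (fun v => D v / S) j (PHI n D M A ρ)
      ≤ (1 + (7 / 2) / S) ^ j * (PHI n D M A ρ (fun _ => 0) + j * (2 * C0 m A ρ)) := by
  have hS : 0 < S := by linarith [h.S4]
  have hC0 : 0 ≤ C0 m A ρ := by
    unfold C0
    positivity
  induction j with
  | zero => simp [Mul]
  | succ j ih =>
    have ih' := ih (by omega)
    have h1 : Mul n (fun v => D v / S) (j + 1) (PHI n D M A ρ)
        ≤ (1 + (7 / 2) / S) * Mul n (fun v => D v / S) j (PHI n D M A ρ) + 2 * C0 m A ρ := by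
      rw [Mul]
      calc _ ≤ Mul n (fun v => D v / S) j
            (fun N => (1 + (7 / 2) / S) * PHI n D M A ρ N + 2 * C0 m A ρ) :=
            Mul_mono (fun v _ => h.w0 v) j fun N hN => PHI_draw h hA hρ hρ2 (by omega) hN
        _ = _ := by rw [Mul_add, Mul_smul, Mul_const h.w1]
    have h2 : 1 ≤ 1 + (7 / 2) / S := by
      have : 0 ≤ (7 / 2) / S := by positivity
      linarith
    have h3 : 1 ≤ (1 + (7 / 2) / S) ^ (j + 1) := one_le_pow₀ h2
    have h4 := mul_le_mul_of_nonneg_left ih' (by linarith : 0 ≤ 1 + (7 / 2) / S)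
    have h5 : 2 * C0 m A ρ ≤ (1 + (7 / 2) / S) ^ (j + 1) * (2 * C0 m A ρ) := by
      nlinarith
    push_cast
    calc _ ≤ _ := h1
      _ ≤ (1 + (7 / 2) / S) * ((1 + (7 / 2) / S) ^ j
          * (PHI n D M A ρ (fun _ => 0) + j * (2 * C0 m A ρ)))
          + (1 + (7 / 2) / S) ^ (j + 1) * (2 * C0 m A ρ) := add_le_add h4 h5
      _ = _ := by ring

/-- A crude bound on the potential during one step. -/
theorem Mul_PHI_crude (h : Env n m D M S) {A ρ : ℝ} (hA : 0 < A) (hρ : A ≤ ρ)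
    (hρ2 : 8 * (ρ - A) ≤ A) {j : ℕ} (hj : j ≤ m) :
    Mul n (fun v => D v / S) j (PHI n D M A ρ)
      ≤ 2 ^ m * (PHI n D M A ρ (fun _ => 0) + m * (2 * C0 m A ρ)) := by
  have hS : 0 < S := by linarith [h.S4]
  have hC0 : 0 ≤ C0 m A ρ := by
    unfold C0
    positivity
  refine (Mul_PHI h hA hρ hρ2 hj).trans ?_
  have h1 : 1 + (7 / 2) / S ≤ 2 := by
    have : (7 / 2) / S ≤ 1 := by
      rw [div_le_one hS]
      linarith [h.S4]
    linarith
  have h2 : (1 + (7 / 2) / S) ^ j ≤ 2 ^ m :=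
    (pow_le_pow_left₀ (by positivity) h1 j).trans (pow_le_pow_right₀ (by norm_num) hj)
  have h3 : (j : ℝ) ≤ m := by exact_mod_cast hj
  have h4 := PHI_nonneg h A ρ (fun _ => 0)
  have h5 : (j : ℝ) * (2 * C0 m A ρ) ≤ m * (2 * C0 m A ρ) :=
    mul_le_mul_of_nonneg_right h3 (by linarith)
  refine mul_le_mul h2 (by linarith) ?_ (by positivity)
  have : (0 : ℝ) ≤ j := Nat.cast_nonneg _
  nlinarith [mul_nonneg this hC0]

theorem w_XX (h : Env n m D M S) (A ρ : ℝ) (N : ℕ → ℕ) :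
    ∑ v ∈ range n, D v / S * XX n D M A ρ N v ^ 2 ≤ PHI n D M A ρ N / S := by
  have hS : 0 < S := by linarith [h.S4]
  unfold PHI
  rw [Finset.sum_div]
  refine Finset.sum_le_sum fun v _ => ?_
  rw [div_mul_eq_mul_div]
  refine div_le_div_of_nonneg_right ?_ hS.le
  exact mul_le_mul_of_nonneg_right (by linarith [(Nat.cast_nonneg (N v) : (0 : ℝ) ≤ (N v : ℝ))])
    (sq_nonneg _)

/-- Second moment of the total increment of a functional whose single increments are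
bounded by `K X`. -/
theorem Mul_inc (h : Env n m D M S) {A ρ : ℝ} (V : (ℕ → ℕ) → ℝ) {K B : ℝ} (j : ℕ)
    (hV : ∀ N, ∀ v ∈ range n,
      |V (fun x => N x + if x = v then 1 else 0) - V N| ≤ K * XX n D M A ρ N v)
    (hB : ∀ i < j, Mul n (fun v => D v / S) i (PHI n D M A ρ) ≤ B) (hB0 : 0 ≤ B) :
    Mul n (fun v => D v / S) j (fun N => (V N - V (fun _ => 0)) ^ 2)
      ≤ 4 ^ j * (K ^ 2 * (B / S)) := by
  have hS : 0 < S := by linarith [h.S4]
  induction j with
  | zero =>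
    simp [Mul]
    positivity
  | succ j ih =>
    have ih' := ih (fun i hi => hB i (by omega))
    have h1 : Mul n (fun v => D v / S) (j + 1) (fun N => (V N - V (fun _ => 0)) ^ 2)
        ≤ 2 * Mul n (fun v => D v / S) j (fun N => (V N - V (fun _ => 0)) ^ 2)
          + (2 * K ^ 2 / S) * Mul n (fun v => D v / S) j (PHI n D M A ρ) := by
      rw [Mul, ← Mul_smul, ← Mul_smul, ← Mul_add]
      refine Mul_mono (fun v _ => h.w0 v) j fun N _ => ?_
      have h2 : ∀ v ∈ range n, D v / S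
            * (V (fun u => N u + if u = v then 1 else 0) - V (fun _ => 0)) ^ 2
          ≤ D v / S * (2 * (V N - V (fun _ => 0)) ^ 2)
            + 2 * K ^ 2 * (D v / S * XX n D M A ρ N v ^ 2) := fun v hv => by
        have h3 := hV N v hv
        have h4 : (V (fun u => N u + if u = v then 1 else 0) - V N) ^ 2
            ≤ (K * XX n D M A ρ N v) ^ 2 := by
          rw [← sq_abs]
          exact pow_le_pow_left₀ (abs_nonneg _) h3 2
        have h5 : (V (fun u => N u + if u = v then 1 else 0) - V (fun _ => 0)) ^ 2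
            ≤ 2 * (V N - V (fun _ => 0)) ^ 2 + 2 * (K * XX n D M A ρ N v) ^ 2 := by
          nlinarith [sq_nonneg ((V N - V (fun _ => 0))
            - (V (fun u => N u + if u = v then 1 else 0) - V N))]
        have h6 := mul_le_mul_of_nonneg_left h5 (h.w0 v)
        calc _ ≤ _ := h6
          _ = _ := by ring
      refine (Finset.sum_le_sum h2).trans ?_
      rw [Finset.sum_add_distrib, ← Finset.sum_mul, h.w1, one_mul, ← Finset.mul_sum]
      have h7 := mul_le_mul_of_nonneg_left (w_XX h A ρ N) (by positivity : 0 ≤ 2 * K ^ 2)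
      calc _ ≤ 2 * (V N - V fun _ => 0) ^ 2 + 2 * K ^ 2 * (PHI n D M A ρ N / S) := by linarith
        _ = _ := by ring
    have h8 := mul_le_mul_of_nonneg_left (hB j (by omega)) (by positivity : 0 ≤ 2 * K ^ 2 / S)
    have h9 : (1 : ℝ) ≤ 4 ^ j := one_le_pow₀ (by norm_num)
    have h10 : 0 ≤ K ^ 2 * (B / S) := by positivity
    have h11 : 2 * K ^ 2 / S * B = 2 * (K ^ 2 * (B / S)) := by ring
    have h12 : (4 : ℝ) ^ (j + 1) * (K ^ 2 * (B / S)) = 4 * (4 ^ j * (K ^ 2 * (B / S))) := by ring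
    rw [h12]
    nlinarith

end Pool.Agent.H90.PA
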