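import Pool.Agent.H90.PA.Defs

/-!
One step of the preferential attachment model: invariants, and how degrees, triangles and the
quadratic functionals change.
-/

namespace Pool.Agent.H90.PA

open Finset

/-- Invariants of the multigraph on `k + 2` vertices. -/
structure Inv (m k : ℕ) (M : Gr) : Prop where
  symm : ∀ u v, M u v = M v u
  diag : ∀ u, M u u = 0
  supp : ∀ u v, k + 2 ≤ v → M u v = 0
  le : ∀ u v, M u v ≤ m
  tot : ∑ v ∈ range (k + 2), deg (k + 2) M v = 2 * m * (k + 1)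

/-- Degree plus `δ`. -/
noncomputable def Dg (δ : ℝ) (k : ℕ) (M : Gr) (v : ℕ) : ℝ := (deg (k + 2) M v : ℝ) + δ

/-- The total weight. -/
noncomputable def Sk (m : ℕ) (δ : ℝ) (k : ℕ) : ℝ := 2 * (m : ℝ) * ((k : ℝ) + 1) + ((k : ℝ) + 2) * δ

/-- The expectation over one step. -/
noncomputable def Pst (m : ℕ) (δ : ℝ) (k : ℕ) (F : Gr → ℝ) (M : Gr) : ℝ :=
  Mul (k + 2) (fun v => Dg δ k M v / Sk m δ k) m (fun N => F (att (k + 2) M N))

theorem E_succ (m : ℕ) (δ : ℝ) (k : ℕ) (F : Gr → ℝ) :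
    E m δ (k + 1) F = E m δ k (Pst m δ k F) := by
  rw [E]
  congr 1
  funext M
  rw [Pst, ← sum_eq_Mul]
  refine Finset.sum_congr rfl fun c _ => ?_
  congr 1
  unfold prob
  refine Finset.prod_congr rfl fun l _ => ?_
  unfold Dg Sk
  push_cast
  congr 1
  ring

theorem Sk_succ (m : ℕ) (δ : ℝ) (k : ℕ) : Sk m δ (k + 1) = Sk m δ k + (2 * m + δ) := by
  unfold Sk
  push_cast
  ring

theorem Sk_ge (m : ℕ) (hm : 2 ≤ m) {δ : ℝ} (hδ : 0 < δ) (k : ℕ) : 4 ≤ Sk m δ k := by
  unfold Sk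
  have h1 : (2 : ℝ) ≤ m := by exact_mod_cast hm
  have h2 : (0 : ℝ) ≤ k := Nat.cast_nonneg k
  nlinarith [mul_nonneg h2 hδ.le, mul_nonneg h2 (by linarith : (0 : ℝ) ≤ m)]

theorem Sk_ge_m (m : ℕ) {δ : ℝ} (hδ : 0 < δ) (k : ℕ) : 2 * (m : ℝ) ≤ Sk m δ k := by
  unfold Sk
  have h1 : (0 : ℝ) ≤ m := Nat.cast_nonneg m
  have h2 : (0 : ℝ) ≤ k := Nat.cast_nonneg k
  nlinarith [mul_nonneg h2 hδ.le, mul_nonneg h2 h1]

theorem Dg_ge {δ : ℝ} (k : ℕ) (M : Gr) (v : ℕ) : δ ≤ Dg δ k M v := by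
  unfold Dg
  have : (0 : ℝ) ≤ (deg (k + 2) M v : ℝ) := Nat.cast_nonneg _
  linarith

theorem Dg_sum {m k : ℕ} {δ : ℝ} {M : Gr} (h : Inv m k M) :
    ∑ v ∈ range (k + 2), Dg δ k M v = Sk m δ k := by
  unfold Dg Sk
  rw [Finset.sum_add_distrib, Finset.sum_const, card_range, nsmul_eq_mul]
  have := congrArg (fun x : ℕ => (x : ℝ)) h.tot
  push_cast at this
  rw [this]
  push_cast
  ring

theorem w_nonneg {m k : ℕ} {δ : ℝ} (hδ : 0 < δ) (hm : 2 ≤ m) (M : Gr) (v : ℕ) :
    0 ≤ Dg δ k M v / Sk m δ k :=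
  div_nonneg (hδ.le.trans (Dg_ge k M v)) (by linarith [Sk_ge m hm hδ k])

theorem w_sum {m k : ℕ} {δ : ℝ} (hδ : 0 < δ) (hm : 2 ≤ m) {M : Gr} (h : Inv m k M) :
    ∑ v ∈ range (k + 2), Dg δ k M v / Sk m δ k = 1 := by
  rw [← Finset.sum_div, Dg_sum h]
  exact div_self (by linarith [Sk_ge m hm hδ k])

theorem att_old {n : ℕ} {M : Gr} {N : ℕ → ℕ} {u v : ℕ} (hu : u < n) (hv : v < n) :
    att n M N u v = M u v := by
  unfold att
  rw [if_neg (by omega), if_neg (by omega)]

theorem att_new_left {n : ℕ} {M : Gr} {N : ℕ → ℕ} (v : ℕ) : att n M N n v = N v := by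
  unfold att
  rw [if_pos rfl]

theorem att_new_right {n : ℕ} {M : Gr} {N : ℕ → ℕ} {u : ℕ} (hu : u < n) :
    att n M N u n = N u := by
  unfold att
  rw [if_neg (by omega), if_pos rfl]

theorem deg_att_old {n : ℕ} {M : Gr} {N : ℕ → ℕ} {v : ℕ} (hv : v < n) :
    deg (n + 1) (att n M N) v = deg n M v + N v := by
  unfold deg
  rw [Finset.sum_range_succ, att_new_right hv]
  congr 1
  exact Finset.sum_congr rfl fun u hu => att_old hv (mem_range.1 hu)

theorem deg_att_new {n j : ℕ} {M : Gr} {N : ℕ → ℕ} (hN : Cnt n j N) :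
    deg (n + 1) (att n M N) n = j := by
  unfold deg
  rw [Finset.sum_range_succ, att_new_left, hN.1 n le_rfl, add_zero, ← hN.2]
  exact Finset.sum_congr rfl fun u _ => att_new_left u

theorem Inv_start (m : ℕ) : Inv m 0 (start m) := by
  refine ⟨fun u v => ?_, fun u => ?_, fun u v hv => ?_, fun u v => ?_, ?_⟩
  · unfold start
    by_cases h : (u = 0 ∧ v = 1) ∨ (u = 1 ∧ v = 0)
    · rw [if_pos h, if_pos (by tauto)]
    · rw [if_neg h, if_neg (by tauto)]
  · unfold start
    rw [if_neg (by omega)]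
  · unfold start
    rw [if_neg (by omega)]
  · unfold start
    split_ifs <;> omega
  · simp [deg, start, Finset.sum_range_succ]
    ring

theorem Inv_att {m k : ℕ} {M : Gr} (h : Inv m k M) {N : ℕ → ℕ} (hN : Cnt (k + 2) m N) :
    Inv m (k + 1) (att (k + 2) M N) := by
  have hNle : ∀ v, N v ≤ m := fun v => by
    by_cases hv : v < k + 2
    · rw [← hN.2]
      exact Finset.single_le_sum (f := N) (fun _ _ => Nat.zero_le _) (mem_range.2 hv)
    · rw [hN.1 v (by omega)]
      exact Nat.zero_le _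
  refine ⟨fun u v => ?_, fun u => ?_, fun u v hv => ?_, fun u v => ?_, ?_⟩
  · unfold att
    by_cases hu : u = k + 2
    · by_cases hv : v = k + 2
      · rw [hu, hv]
      · rw [if_pos hu, if_neg hv, if_pos hu]
    · by_cases hv : v = k + 2
      · rw [if_neg hu, if_pos hv, if_pos hv]
      · rw [if_neg hu, if_neg hv, if_neg hv, if_neg hu, h.symm]
  · unfold att
    by_cases hu : u = k + 2
    · rw [if_pos hu]
      exact hN.1 u (by omega)
    · rw [if_neg hu, if_neg hu]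
      exact h.diag u
  · unfold att
    by_cases hu : u = k + 2
    · rw [if_pos hu]
      exact hN.1 v (by omega)
    · rw [if_neg hu, if_neg (by omega)]
      exact h.supp u v (by omega)
  · unfold att
    split_ifs
    · exact hNle v
    · exact hNle u
    · exact h.le u v
  · rw [show k + 1 + 2 = k + 2 + 1 by ring, Finset.sum_range_succ, deg_att_new hN,
      Finset.sum_congr rfl (fun v hv => deg_att_old (mem_range.1 hv)), Finset.sum_add_distrib,
      h.tot, hN.2]
    ring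

theorem Dg_att_old {k : ℕ} {δ : ℝ} {M : Gr} {N : ℕ → ℕ} {v : ℕ} (hv : v < k + 2) :
    Dg δ (k + 1) (att (k + 2) M N) v = Dg δ k M v + N v := by
  unfold Dg
  rw [show k + 1 + 2 = k + 2 + 1 by ring, deg_att_old hv]
  push_cast
  ring

theorem Dg_att_new {m k : ℕ} {δ : ℝ} {M : Gr} {N : ℕ → ℕ} (hN : Cnt (k + 2) m N) :
    Dg δ (k + 1) (att (k + 2) M N) (k + 2) = m + δ := by
  unfold Dg
  rw [show k + 1 + 2 = k + 2 + 1 by ring, deg_att_new hN]

theorem sum_lt_half (n : ℕ) (f : ℕ → ℕ → ℝ) (hs : ∀ u v, f u v = f v u) (hd : ∀ u, f u u = 0) :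
    ∑ b ∈ range n, ∑ c ∈ range b, f b c = (∑ b ∈ range n, ∑ c ∈ range n, f b c) / 2 := by
  induction n with
  | zero => simp
  | succ n ih =>
    rw [Finset.sum_range_succ, ih, Finset.sum_range_succ (fun b => ∑ c ∈ range (n + 1), f b c),
      Finset.sum_range_succ (fun c => f n c) n, hd]
    have : ∑ b ∈ range n, ∑ c ∈ range (n + 1), f b c
        = ∑ b ∈ range n, ∑ c ∈ range n, f b c + ∑ c ∈ range n, f n c := by
      rw [← Finset.sum_add_distrib]
      refine Finset.sum_congr rfl fun b _ => ?_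
      rw [Finset.sum_range_succ, hs b n]
    rw [this]
    ring

/-- The number of new triangles, as a function of the counts. -/
noncomputable def Del (n : ℕ) (M : Gr) (N : ℕ → ℕ) : ℝ :=
  (∑ u ∈ range n, ∑ v ∈ range n, (N u : ℝ) * N v * M u v) / 2

theorem Del_eq {m k : ℕ} {M : Gr} (h : Inv m k M) (N : ℕ → ℕ) :
    Del (k + 2) M N
      = ((∑ b ∈ range (k + 2), ∑ c ∈ range b, N b * N c * M b c : ℕ) : ℝ) := by
  unfold Del
  push_cast
  rw [sum_lt_half (k + 2) (fun u v => (N u : ℝ) * N v * M u v)]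
  · intro u v
    rw [h.symm u v]
    ring
  · intro u
    rw [h.diag u]
    simp

theorem tri_att {m k : ℕ} {M : Gr} (h : Inv m k M) (N : ℕ → ℕ) :
    (tri (k + 2 + 1) (att (k + 2) M N) : ℝ) = tri (k + 2) M + Del (k + 2) M N := by
  rw [Del_eq h, ← Nat.cast_add]
  congr 1
  unfold tri
  rw [Finset.sum_range_succ]
  congr 1
  · refine Finset.sum_congr rfl fun a ha => Finset.sum_congr rfl fun b hb =>
      Finset.sum_congr rfl fun c hc => ?_
    have h1 := mem_range.1 ha
    have h2 := mem_range.1 hb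
    have h3 := mem_range.1 hc
    rw [att_old h1 (by omega), att_old h1 (by omega), att_old (by omega) (by omega)]
  · refine Finset.sum_congr rfl fun b hb => Finset.sum_congr rfl fun c hc => ?_
    have h2 := mem_range.1 hb
    have h3 := mem_range.1 hc
    rw [att_new_left, att_new_left, att_old h2 (by omega)]

section Eprop

variable {m : ℕ} {δ : ℝ}

theorem Pst_mono (hm : 2 ≤ m) (hδ : 0 < δ) {k : ℕ} {M : Gr} (hM : Inv m k M) {F G : Gr → ℝ}
    (h : ∀ M', Inv m (k + 1) M' → F M' ≤ G M') : Pst m δ k F M ≤ Pst m δ k G M := by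
  unfold Pst
  exact Mul_mono (fun v _ => w_nonneg hδ hm M v) m fun N hN => h _ (Inv_att hM hN)

theorem E_mono (hm : 2 ≤ m) (hδ : 0 < δ) (k : ℕ) {F G : Gr → ℝ}
    (h : ∀ M, Inv m k M → F M ≤ G M) : E m δ k F ≤ E m δ k G := by
  induction k generalizing F G with
  | zero => exact h _ (Inv_start m)
  | succ k ih =>
    rw [E_succ, E_succ]
    exact ih fun M hM => Pst_mono hm hδ hM h

theorem E_congr (hm : 2 ≤ m) (hδ : 0 < δ) (k : ℕ) {F G : Gr → ℝ}
    (h : ∀ M, Inv m k M → F M = G M) : E m δ k F = E m δ k G :=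
  le_antisymm (E_mono hm hδ k fun M hM => (h M hM).le) (E_mono hm hδ k fun M hM => (h M hM).ge)

theorem E_add (k : ℕ) (F G : Gr → ℝ) : E m δ k (fun M => F M + G M) = E m δ k F + E m δ k G := by
  induction k generalizing F G with
  | zero => rfl
  | succ k ih =>
    rw [E_succ, E_succ, E_succ, ← ih]
    congr 1
    funext M
    exact Mul_add _ _ _

theorem E_smul (k : ℕ) (a : ℝ) (F : Gr → ℝ) : E m δ k (fun M => a * F M) = a * E m δ k F := by
  induction k generalizing F with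
  | zero => rfl
  | succ k ih =>
    rw [E_succ, E_succ, ← ih]
    congr 1
    funext M
    exact Mul_smul _ _ _

theorem E_const (hm : 2 ≤ m) (hδ : 0 < δ) (k : ℕ) (a : ℝ) : E m δ k (fun _ => a) = a := by
  induction k with
  | zero => rfl
  | succ k ih =>
    rw [E_succ]
    have : E m δ k (Pst m δ k fun _ => a) = E m δ k (fun _ => a) :=
      E_congr hm hδ k fun M hM => Mul_const (w_sum hδ hm hM) m a
    rw [this, ih]

end Eprop

end Pool.Agent.H90.PA
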