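import Pool.Agent.H90.PA.Mom

/-!
The second factorial moment of the number of new triangles.
-/

namespace Pool.Agent.H90.PA

open Finset

variable {n : ℕ} {w : ℕ → ℝ} (M : ℕ → ℕ → ℝ)

/-- `∑_u w_u M_uv`. -/
noncomputable def wt (n : ℕ) (w : ℕ → ℝ) (M : ℕ → ℕ → ℝ) (v : ℕ) : ℝ := ∑ u ∈ range n, w u * M u v

/-- `∑ w w M`. -/
noncomputable def qq (n : ℕ) (w : ℕ → ℝ) (M : ℕ → ℕ → ℝ) : ℝ := ∑ v ∈ range n, w v * wt n w M v

/-- `∑ w wt^2`. -/
noncomputable def tt (n : ℕ) (w : ℕ → ℝ) (M : ℕ → ℕ → ℝ) : ℝ :=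
  ∑ v ∈ range n, w v * wt n w M v ^ 2

theorem sum_w_xx (hG : ∀ u v, M u v = M v u) (N : ℕ → ℕ) :
    ∑ v ∈ range n, w v * xx n M v N = lin n (wt n w M) N := by
  unfold xx lin wt
  have : ∀ v ∈ range n, w v * ∑ u ∈ range n, (N u : ℝ) * M u v
      = ∑ u ∈ range n, w v * M v u * N u := fun v _ => by
    rw [Finset.mul_sum]
    refine Finset.sum_congr rfl fun u _ => ?_
    rw [hG u v]
    ring
  rw [Finset.sum_congr rfl this, Finset.sum_comm]
  refine Finset.sum_congr rfl fun u _ => ?_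
  rw [Finset.sum_mul]

theorem Mul_De (hG : ∀ u v, M u v = M v u) (hd : ∀ u, M u u = 0)
    (hw : ∀ v ∈ range n, 0 ≤ w v) (hs : ∑ v ∈ range n, w v = 1) (j : ℕ) :
    Mul n w j (De n M) = j * (j - 1) / 2 * qq n w M := by
  induction j with
  | zero => simp [Mul, De]
  | succ j ih =>
    rw [Mul_step hw hs j (De n M) (lin n (wt n w M)) (fun N v => xx n M v N)
      (fun N v hv => De_shift M hG hd N hv) (fun N _ => sum_w_xx M hG N), ih, Mul_lin hw hs]
    unfold qq
    push_cast
    ring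

theorem Mul_Y2 (hw : ∀ v ∈ range n, 0 ≤ w v) (hs : ∑ v ∈ range n, w v = 1) (j : ℕ) :
    Mul n w j (fun N => lin n (wt n w M) N ^ 2)
      = j * tt n w M + j * (j - 1) * qq n w M ^ 2 := by
  induction j with
  | zero => simp [Mul, lin]
  | succ j ih =>
    rw [Mul_step hw hs j (fun N => lin n (wt n w M) N ^ 2)
      (fun N => (2 * qq n w M) * lin n (wt n w M) N + tt n w M)
      (fun N v => 2 * lin n (wt n w M) N * wt n w M v + wt n w M v ^ 2)
      (fun N v hv => ?_) (fun N _ => ?_), ih, Mul_add, Mul_const hs, Mul_smul, Mul_lin hw hs]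
    · unfold qq
      push_cast
      ring
    · simp only [lin_shift _ N hv]
      ring
    · unfold qq tt
      rw [Finset.mul_sum, Finset.sum_mul, ← Finset.sum_add_distrib]
      exact Finset.sum_congr rfl fun v _ => by ring

/-- `∑_v w_v M_uv wt_v`. -/
noncomputable def w2 (n : ℕ) (w : ℕ → ℝ) (M : ℕ → ℕ → ℝ) (u : ℕ) : ℝ :=
  ∑ v ∈ range n, w v * M u v * wt n w M v

theorem sum_w_w2 : ∑ u ∈ range n, w u * w2 n w M u = tt n w M := by
  unfold w2 tt
  have : ∀ u ∈ range n, w u * ∑ v ∈ range n, w v * M u v * wt n w M v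
      = ∑ v ∈ range n, w v * wt n w M v * (w u * M u v) := fun u _ => by
    rw [Finset.mul_sum]
    exact Finset.sum_congr rfl fun v _ => by ring
  rw [Finset.sum_congr rfl this, Finset.sum_comm]
  refine Finset.sum_congr rfl fun v _ => ?_
  rw [← Finset.mul_sum]
  change w v * wt n w M v * wt n w M v = _
  ring

theorem sum_w_xx_wt (N : ℕ → ℕ) :
    ∑ v ∈ range n, w v * (xx n M v N * wt n w M v) = lin n (w2 n w M) N := by
  unfold xx lin w2
  have : ∀ v ∈ range n, w v * ((∑ u ∈ range n, (N u : ℝ) * M u v) * wt n w M v)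
      = ∑ u ∈ range n, w v * M u v * wt n w M v * N u := fun v _ => by
    rw [Finset.sum_mul, Finset.mul_sum]
    exact Finset.sum_congr rfl fun u _ => by ring
  rw [Finset.sum_congr rfl this, Finset.sum_comm]
  refine Finset.sum_congr rfl fun u _ => ?_
  rw [Finset.sum_mul]

theorem Mul_DeY (hG : ∀ u v, M u v = M v u) (hd : ∀ u, M u u = 0)
    (hw : ∀ v ∈ range n, 0 ≤ w v) (hs : ∑ v ∈ range n, w v = 1) (j : ℕ) :
    Mul n w j (fun N => De n M N * lin n (wt n w M) N)
      = j * (j - 1) * tt n w M + j * (j - 1) * (j - 2) / 2 * qq n w M ^ 2 := by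
  induction j with
  | zero => simp [Mul, De]
  | succ j ih =>
    rw [Mul_step hw hs j (fun N => De n M N * lin n (wt n w M) N)
      (fun N => qq n w M * De n M N + lin n (wt n w M) N ^ 2 + lin n (w2 n w M) N)
      (fun N v => De n M N * wt n w M v + xx n M v N * lin n (wt n w M) N
        + xx n M v N * wt n w M v)
      (fun N v hv => ?_) (fun N _ => ?_), ih, Mul_add, Mul_add, Mul_smul, Mul_De M hG hd hw hs,
      Mul_Y2 M hw hs, Mul_lin hw hs, sum_w_w2]
    · push_cast
      ring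
    · simp only [lin_shift _ N hv, De_shift M hG hd N hv]
      ring
    · rw [← sum_w_xx_wt M N]
      have h2 : lin n (wt n w M) N ^ 2
          = ∑ v ∈ range n, w v * xx n M v N * lin n (wt n w M) N := by
        rw [← Finset.sum_mul, sum_w_xx M hG N]
        ring
      rw [h2]
      unfold qq
      rw [Finset.sum_mul, ← Finset.sum_add_distrib, ← Finset.sum_add_distrib]
      exact Finset.sum_congr rfl fun v _ => by ring

/-- `∑ w w (M^2 - M)`. -/
noncomputable def pp (n : ℕ) (w : ℕ → ℝ) (M : ℕ → ℕ → ℝ) : ℝ :=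
  ∑ u ∈ range n, w u * ∑ v ∈ range n, w v * (M u v * (M u v - 1))

/-- `∑ w (x^2 - x)`. -/
noncomputable def Z2 (n : ℕ) (w : ℕ → ℝ) (M : ℕ → ℕ → ℝ) (N : ℕ → ℕ) : ℝ :=
  ∑ v ∈ range n, w v * (xx n M v N * (xx n M v N - 1))

theorem Mul_Z2 (hw : ∀ v ∈ range n, 0 ≤ w v) (hs : ∑ v ∈ range n, w v = 1) (j : ℕ) :
    Mul n w j (Z2 n w M) = j * (j - 1) * tt n w M + j * pp n w M := by
  induction j with
  | zero => simp [Mul, Z2, xx]
  | succ j ih =>
    rw [Mul_step hw hs j (Z2 n w M)
      (fun N => 2 * lin n (w2 n w M) N + pp n w M)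
      (fun N u => ∑ v ∈ range n, w v * (2 * xx n M v N * M u v + M u v * (M u v - 1)))
      (fun N v hv => ?_) (fun N _ => ?_), ih, Mul_add, Mul_const hs, Mul_smul, Mul_lin hw hs,
      sum_w_w2]
    · push_cast
      ring
    · unfold Z2
      rw [← Finset.sum_add_distrib]
      refine Finset.sum_congr rfl fun u _ => ?_
      rw [xx_shift M u N hv]
      ring
    · rw [← sum_w_xx_wt M N]
      unfold pp
      rw [Finset.mul_sum]
      have h1 : ∀ u ∈ range n,
          w u * ∑ v ∈ range n, w v * (2 * xx n M v N * M u v + M u v * (M u v - 1))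
          = ∑ v ∈ range n, 2 * (w v * (xx n M v N * (w u * M u v)))
            + w u * ∑ v ∈ range n, w v * (M u v * (M u v - 1)) := fun u _ => by
        rw [Finset.mul_sum, Finset.mul_sum, ← Finset.sum_add_distrib]
        exact Finset.sum_congr rfl fun v _ => by ring
      rw [Finset.sum_congr rfl h1, Finset.sum_add_distrib, Finset.sum_comm]
      congr 1
      refine Finset.sum_congr rfl fun v _ => ?_
      rw [wt, Finset.mul_sum, Finset.mul_sum, Finset.mul_sum]

theorem Mul_De2 (hG : ∀ u v, M u v = M v u) (hd : ∀ u, M u u = 0)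
    (hw : ∀ v ∈ range n, 0 ≤ w v) (hs : ∑ v ∈ range n, w v = 1) (j : ℕ) :
    Mul n w j (fun N => De n M N * (De n M N - 1))
      = j * (j - 1) * (j - 2) * tt n w M + j * (j - 1) * (j - 2) * (j - 3) / 4 * qq n w M ^ 2
        + j * (j - 1) / 2 * pp n w M := by
  induction j with
  | zero => simp [Mul, De]
  | succ j ih =>
    rw [Mul_step hw hs j (fun N => De n M N * (De n M N - 1))
      (fun N => 2 * (De n M N * lin n (wt n w M) N) + Z2 n w M N)
      (fun N v => 2 * De n M N * xx n M v N + xx n M v N * (xx n M v N - 1))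
      (fun N v hv => ?_) (fun N _ => ?_), ih, Mul_add, Mul_smul, Mul_DeY M hG hd hw hs,
      Mul_Z2 M hw hs]
    · push_cast
      ring
    · simp only [De_shift M hG hd N hv]
      ring
    · rw [← sum_w_xx M hG N, Z2, Finset.mul_sum, Finset.mul_sum, ← Finset.sum_add_distrib]
      exact Finset.sum_congr rfl fun v _ => by ring

end Pool.Agent.H90.PA
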